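import Mathlib

/-!
# MP_25e40f_pr, stream F: definitions for the theorem of Liouville type
-/

set_option autoImplicit false

noncomputable section

open Finset Filter Topology

namespace IPC

/-- `K`-th difference in the direction `i` -/
def dK {d : ℕ} (i : Fin d) (K : ℕ) (f : (Fin d → ℤ) → ℝ) : (Fin d → ℤ) → ℝ :=
  (fwdDiff (Pi.single i (1 : ℤ)))^[K] f

/-- approximate inverses: `V m * (δ - Jm m) = δ`, `Jm m → J` with `k` moments, the `K`-th differences of `V m`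
are bounded uniformly in a weighted `ℓ²` norm -/
structure Apx (d k s K : ℕ) (J : (Fin d → ℤ) → ℝ) (V Jm : ℕ → (Fin d → ℤ) → ℝ) (M : ℝ) : Prop where
  hM : 0 ≤ M
  hJ : Summable fun y : Fin d → ℤ => (1 + ‖y‖) ^ k * |J y|
  hJm : ∀ m, Summable fun y : Fin d → ℤ => (1 + ‖y‖) ^ k * |Jm m y|
  hV : ∀ m, Summable fun y : Fin d → ℤ => (1 + ‖y‖) ^ k * |V m y|
  inv : ∀ m x, V m x - ∑' y, V m y * Jm m (x - y) = if x = 0 then 1 else 0
  lim : Tendsto (fun m => ∑' y : Fin d → ℤ, (1 + ‖y‖) ^ k * |J y - Jm m y|) atTop (𝓝 0)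
  bd0 : ∀ m (i : Fin d) (T : Finset (Fin d → ℤ)), ∑ y ∈ T, dK i K (V m) y ^ 2 ≤ M
  bd : ∀ m (i j : Fin d) (T : Finset (Fin d → ℤ)),
    ∑ y ∈ T, |(y j : ℝ)| ^ (2 * s) * dK i K (V m) y ^ 2 ≤ M

end IPC
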