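import Pool.Agent.Lib.MP_25e40f_pr.F.Hk
import Pool.Agent.Lib.MP_25e40f_pr.T.Arm
import Pool.Agent.Lib.MP_25e40f_pr.A.BK

/-!
# MP_25e40f_pr, stream F: the bad events are negligible (job Bad, about 110 lines)

`bad_small`: `BadE d r r' v ω` is the union over `s, s' ∈ Λ_r` of `Box (fun ω => Conn ω s v) (fun ω => ∃ y, y ∉ Λ_{r'} ∧ Conn ω s' y)` (unfold; `BadE` has the same witnesses).  `Pr_exists_le` twice, `bk`: at most
`∑_{s,s' ∈ Λ_r} τ_D(s,v) Pr p (ein D) (∃ y ∉ Λ_{r'}, Conn ω s' y)`; the second factor is `≤ arm p s' r'` (`T.arm_ge` with `T = {y | y ∉ Λ_{r'}}`, `s' ∈ Λ_r ⊆ Λ_{r'}`), the first is `≤ p^(-d r) τ_D(0,v)` (`harnack`).  So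
`Pr(BadE) ≤ #Λ_r p^(-d r) (∑_{s' ∈ Λ_r} arm p s' r') τ_D(0,v)` and `∑_{s' ∈ Λ_r} arm p s' r' → 0` as `r' → ∞` (`NoPerc`, `tendsto_finset_sum`): choose `r' > r` with `#Λ_r p^(-d r) ∑ ≤ ε`.
`bad_mono`: clear.
-/

set_option autoImplicit false

noncomputable section

open Finset
open scoped Classical

namespace IPC

variable {d : ℕ}

theorem bad_small {p : ℝ} (h0 : 0 < p) (h1 : p ≤ 1 / 2) (hN : (Zg d).NoPerc p) (r : ℕ) {ε : ℝ}
    (hε : 0 < ε) : ∃ r' : ℕ, r < r' ∧ ∀ (D : Finset (Fin d → ℤ)) (v : Fin d → ℤ),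
      (Zg d).Lam r ⊆ D → Pr p ((Zg d).ein D) (BadE d r r' v) ≤ ε * (Zg d).tauD p D 0 v := by
  have h1' : p ≤ 1 := by linarith
  have hlim : Filter.Tendsto (fun r' : ℕ => (((Zg d).Lam r).card : ℝ) * (p ^ (d * r))⁻¹ *
      ∑ s' ∈ (Zg d).Lam r, (Zg d).arm p s' r') Filter.atTop (nhds 0) := by
    have h2 : Filter.Tendsto (fun r' : ℕ => ∑ s' ∈ (Zg d).Lam r, (Zg d).arm p s' r') Filter.atTop
        (nhds (∑ _s' ∈ (Zg d).Lam r, (0 : ℝ))) := tendsto_finsetSum _ (fun s' _ => hN s')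
    rw [Finset.sum_const_zero] at h2
    have h3 := h2.const_mul ((((Zg d).Lam r).card : ℝ) * (p ^ (d * r))⁻¹)
    rwa [mul_zero] at h3
  obtain ⟨r', hr1, hr2⟩ := ((Filter.eventually_gt_atTop r).and
    (hlim.eventually (gt_mem_nhds hε))).exists
  refine ⟨r', hr1, fun D v hD => ?_⟩
  have hpow : 0 < p ^ (d * r) := pow_pos h0 _
  have hstep : ∀ s ∈ (Zg d).Lam r, ∀ s' ∈ (Zg d).Lam r,
      Pr p ((Zg d).ein D) (Box (fun ω => Conn ω s v) (fun ω => ∃ y, y ∉ (Zg d).Lam r' ∧ Conn ω s' y)) ≤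
      (p ^ (d * r))⁻¹ * (Zg d).tauD p D 0 v * (Zg d).arm p s' r' := by
    intro s hs s' hs'
    refine (bk h0.le h1 _ _ _ (fun ω ω' h hc => Conn_mono h hc)
      (fun ω ω' h ⟨y, hy, hc⟩ => ⟨y, hy, Conn_mono h hc⟩)).trans ?_
    have h2 : Pr p ((Zg d).ein D) (fun ω => ∃ y, y ∉ (Zg d).Lam r' ∧ Conn ω s' y) ≤ (Zg d).arm p s' r' :=
      T.arm_ge (Zg d) h0.le h1' D (T.Lam_mono (Zg d) hr1.le hs') (T := {y | y ∉ (Zg d).Lam r'}) (fun v hv => hv)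
    have h3 : Pr p ((Zg d).ein D) (fun ω => Conn ω s v) ≤ (p ^ (d * r))⁻¹ * (Zg d).tauD p D 0 v := by
      rw [le_inv_mul_iff₀ hpow]
      exact harnack h0.le h1' hD hs v
    exact mul_le_mul h3 h2 (Pr_nonneg h0.le h1' _ _)
      (mul_nonneg (inv_nonneg.2 hpow.le) (Pr_nonneg h0.le h1' _ _))
  have hA : Pr p ((Zg d).ein D) (BadE d r r' v) ≤ ∑ s ∈ (Zg d).Lam r, ∑ s' ∈ (Zg d).Lam r,
      (p ^ (d * r))⁻¹ * (Zg d).tauD p D 0 v * (Zg d).arm p s' r' := by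
    refine (Pr_exists_le h0.le h1' ((Zg d).ein D) ((Zg d).Lam r)
      (fun s ω => ∃ s' ∈ (Zg d).Lam r, Box (fun ω => Conn ω s v)
        (fun ω => ∃ y, y ∉ (Zg d).Lam r' ∧ Conn ω s' y) ω)).trans ?_
    refine Finset.sum_le_sum (fun s hs => ?_)
    refine (Pr_exists_le h0.le h1' ((Zg d).ein D) ((Zg d).Lam r)
      (fun s' => Box (fun ω => Conn ω s v) (fun ω => ∃ y, y ∉ (Zg d).Lam r' ∧ Conn ω s' y))).trans ?_
    exact Finset.sum_le_sum (fun s' hs' => hstep s hs s' hs')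
  refine hA.trans ?_
  rw [Finset.sum_const, nsmul_eq_mul, ← Finset.mul_sum]
  have h4 : 0 ≤ (Zg d).tauD p D 0 v := Pr_nonneg h0.le h1' _ _
  have h5 := mul_le_mul_of_nonneg_right hr2.le h4
  refine le_trans (le_of_eq ?_) h5
  ring

theorem bad_mono {r r' r'' : ℕ} (h : r' ≤ r'') {v : Fin d → ℤ} {ω : Finset (Sym2 (Fin d → ℤ))}
    (hb : BadE d r r'' v ω) : BadE d r r' v ω := by
  obtain ⟨s, hs, s', hs', ω₁, ω₂, h1, h2, h3, h4, y, hy, hc⟩ := hb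
  exact ⟨s, hs, s', hs', ω₁, ω₂, h1, h2, h3, h4, y, fun hy' => hy (T.Lam_mono (Zg d) h hy'), hc⟩

end IPC
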