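import Pool.Agent.Lib.MP_25e40f_pr.E.Mom
import Pool.Agent.Lib.MP_25e40f_pr.F.Apx

/-!
# MP_25e40f_pr, stream F: weighted `ℓ²` bounds of differences from bounds of the Fourier transform (job Bd, about 220 lines)

Framework of stream E (`E/Fou.lean`, `E/Mom.lean`, namespace `IPC.Fo`, everything there is proved): `FT f k`, `cv`, `del`, `mo e a f = (x e)^a f`, `Mo m f` (moments), `mo_cv` (Leibniz), `FT_cv`, `parseval`, `mu d` (uniform probability measure on the cube).

`ze i K := dK i K (del d)` (finitely supported): `dK i K f = cv (ze i K) f` (`fwdDiff_iter_eq_sum_shift` for both, `cv` with finite sums: `(fun x => f (x + j • e)) = cv (fun x => del d (x + j • e)) f`).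
`ze_FT`: `ze i K x = ∑_{j ≤ K} (-1)^(K-j) C(K,j) [x = - j • e_i]`, so `FT (mo e b (ze i K)) k = ∑_j (-1)^(K-j) C(K,j) (-(j:ℝ) δ_{ei})^b exp(-I j k_i)`: for `e ≠ i` and `b ≥ 1` it is `0`; for `b = 0` it is `(w - 1)^K`, `w = exp(-I k_i)`;
for `e = i` it is `(-1)^b Q_b(w)` with the polynomial `Q_b = (X d/dX)^b (X - 1)^K = ∑_j (-1)^(K-j) C(K,j) j^b X^j` (over `ℂ`).  `(X - 1)^(K-b)` divides `Q_b` for `b ≤ K` (induction: if `Q_b = (X-1)^(K-b) R_b` then
`Q_{b+1} = X Q_b' = (X-1)^(K-b-1) (X (K-b) R_b + X (X-1) R_b')`).  `R_b` is bounded on the unit circle by the sum of the norms of its coefficients; so `‖FT (mo e b (ze i K)) k‖ ≤ C_b ‖w - 1‖^(K-b) ≤ C_b ‖k‖^(K-b)`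
(`‖exp(-I t) - 1‖ ≤ |t|`: `Complex.norm_exp_I_mul_ofReal_sub_one_le` or `Real` version; `|k i| ≤ ‖k‖`).  (If `e ≠ i`, `b = 0`: `‖k‖^K`.)
`dK_bound`: `mo e s (dK i K V) = ∑_{b ≤ s} C(s,b) cv (mo e b (ze i K)) (mo e (s-b) V)` (`mo_cv`), so for `k` in the cube, `k ≠ 0`:
`‖FT (mo e s (dK i K V)) k‖ ≤ ∑_b C(s,b) C_b ‖k‖^(K-b) C ‖k‖^(-(2+s-b)) ≤ C' ‖k‖^(K-s-2) ≤ C' π^(K-s-2)` as `s + 2 ≤ K`.
Then `parseval` (`f = mo e s (dK i K V)`): `∑' (y e)^(2s) (dK i K V y)^2 = ∫ ‖FT‖^2 dμ ≤ C'^2 ...` (the integrand is bounded on the cube, `k ≠ 0` almost everywhere, or use continuity / the value at `0` is bounded too: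
`μ` has no atoms if `d ≥ 1`; another way: at `k = 0` all the factors `FT (mo e b (ze i K)) 0 = 0` for `b < K`).  Finite sums: `Summable.sum_le_tsum`.  (`mu d` is concentrated on the cube: `nu1` is supported in `Icc (-π) π`.)
The case `a = 0` gives the bound without weight (`mo e 0 f = f`).
-/

set_option autoImplicit false

noncomputable section

open Finset MeasureTheory

namespace IPC

open Fo

/-- the difference operator as a convolution -/
def ze {d : ℕ} (i : Fin d) (K : ℕ) : (Fin d → ℤ) → ℝ := dK i K (del d)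

private theorem Bd_succ {d : ℕ} (i : Fin d) (K : ℕ) (y : Fin d → ℤ) :
    ze i (K + 1) y = ze i K (y + Pi.single i 1) - ze i K y := by
  unfold ze dK
  rw [Function.iterate_succ_apply']
  rfl

private theorem Bd_fin {d : ℕ} (i : Fin d) (K : ℕ) : (Function.support (ze i K)).Finite := by
  induction K with
  | zero =>
    refine (Set.finite_singleton (0 : Fin d → ℤ)).subset fun x hx => ?_
    rw [Set.mem_singleton_iff]
    by_contra h
    apply hx
    simp [ze, dK, del, h]
  | succ K ih =>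
    have h1 : ((fun y : Fin d → ℤ => y + Pi.single i 1) ⁻¹' (Function.support (ze i K))).Finite :=
      ih.preimage ((add_left_injective (Pi.single i (1 : ℤ) : Fin d → ℤ)).injOn)
    refine (h1.union ih).subset fun y hy => ?_
    by_contra hcon
    rw [Set.mem_union, not_or] at hcon
    apply hy
    rw [Bd_succ]
    have e1 : ze i K (y + Pi.single i 1) = 0 := by
      by_contra h; exact hcon.1 h
    have e2 : ze i K y = 0 := by
      by_contra h; exact hcon.2 h
    rw [e1, e2, sub_zero]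

private theorem Bd_sm {d : ℕ} (i : Fin d) (K : ℕ) (g : (Fin d → ℤ) → ℝ) :
    Summable fun y => ze i K y * g y := by
  refine summable_of_hasFiniteSupport ((Bd_fin i K).subset fun y hy => ?_)
  intro h
  apply hy
  simp [h]

theorem dK_eq_cv {d : ℕ} (i : Fin d) (K : ℕ) (f : (Fin d → ℤ) → ℝ) : dK i K f = cv (ze i K) f := by
  induction K with
  | zero =>
    funext x
    have h1 : cv (ze i 0) f x = ∑' y, del d y * f (x - y) := rfl
    rw [h1, tsum_eq_single 0]
    · simp [dK, del]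
    · intro y hy
      simp [del, hy]
  | succ K ih =>
    funext x
    have h1 : dK i (K + 1) f x = dK i K f (x + Pi.single i 1) - dK i K f x := by
      unfold dK
      rw [Function.iterate_succ_apply']
      rfl
    have h2 : ∀ y, ze i (K + 1) y = ze i K (y + Pi.single i 1) - ze i K y := fun y => Bd_succ i K y
    rw [h1, ih]
    unfold cv
    have h3 : ∀ y, ze i (K + 1) y * f (x - y) =
        ze i K (y + Pi.single i 1) * f (x - y) - ze i K y * f (x - y) := by
      intro y; rw [h2]; ring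
    rw [tsum_congr h3]
    have hs1 : Summable fun y => ze i K y * f (x + Pi.single i 1 - y) := Bd_sm i K _
    have hs2 : Summable fun y => ze i K y * f (x - y) := Bd_sm i K _
    have hs3 : Summable fun y => ze i K (y + Pi.single i 1) * f (x - y) := by
      refine (((Equiv.addRight (Pi.single i (1 : ℤ) : Fin d → ℤ)).summable_iff).2 hs1).congr fun y => ?_
      change ze i K (y + Pi.single i 1) * f (x + Pi.single i 1 - (y + Pi.single i 1)) = _
      rw [add_sub_add_right_eq_sub]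
    rw [hs3.tsum_sub hs2]
    congr 1
    refine ((Equiv.addRight (Pi.single i (1 : ℤ) : Fin d → ℤ)).tsum_eq
      (fun y => ze i K y * f (x + Pi.single i 1 - y))).symm.trans ?_
    refine tsum_congr fun y => ?_
    change ze i K (y + Pi.single i 1) * f (x + Pi.single i 1 - (y + Pi.single i 1)) = _
    rw [add_sub_add_right_eq_sub]

private theorem Bd_u_nonneg {d : ℕ} (k : Fin d → ℝ) : 0 ≤ min ‖k‖ 1 :=
  le_min (norm_nonneg _) zero_le_one

private theorem Bd_cv {d : ℕ} (i : Fin d) (K : ℕ) : ze i (K + 1) = cv (ze i 1) (ze i K) := by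
  rw [← dK_eq_cv]
  unfold ze dK
  rw [Function.iterate_succ_apply']
  rfl

private theorem Bd_FT1 {d : ℕ} (i : Fin d) (k : Fin d → ℝ) :
    ‖FT (ze i 1) k‖ ≤ 2 * min ‖k‖ 1 := by
  have hs : S1 (fun x : Fin d → ℤ => del d (x + Pi.single i 1)) := by
    have hd1 : Summable (fun x : Fin d → ℤ => |del d x|) := S1_del (d := d)
    exact ((Equiv.addRight (Pi.single i (1 : ℤ) : Fin d → ℤ)).summable_iff).2 hd1
  have h1 : ze i 1 = fun x => del d (x + Pi.single i 1) - del d x := by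
    funext x
    rw [Bd_succ]
    rfl
  have h2 : FT (fun x : Fin d → ℤ => del d (x + Pi.single i 1)) k = ch k (-Pi.single i 1) := by
    unfold FT
    rw [tsum_eq_single (-Pi.single i 1)]
    · simp [del]
    · intro y hy
      have : y + Pi.single i 1 ≠ 0 := fun h => hy (eq_neg_of_add_eq_zero_left h)
      simp [del, this]
  rw [h1, FT_sub hs S1_del, h2, FT_del]
  have h3 : dot k (-Pi.single i 1) = -k i := by
    rw [dot_neg]
    congr 1
    unfold dot
    rw [Finset.sum_eq_single i]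
    · simp
    · intro j _ hj
      simp [Pi.single_eq_of_ne hj]
    · intro h; exact absurd (Finset.mem_univ i) h
  have h4 : ‖ch k (-Pi.single i 1) - 1‖ ≤ |k i| := by
    unfold ch
    rw [h3, mul_comm]
    refine (Real.norm_exp_I_mul_ofReal_sub_one_le).trans (le_of_eq ?_)
    rw [Real.norm_eq_abs, abs_neg]
  have h5 : |k i| ≤ ‖k‖ := by
    have := norm_le_pi_norm k i
    rwa [Real.norm_eq_abs] at this
  have h6 : ‖ch k (-Pi.single i 1) - 1‖ ≤ 2 := by
    refine (norm_sub_le _ _).trans ?_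
    rw [norm_ch, norm_one]
    norm_num
  rcases le_total ‖k‖ 1 with h | h
  · rw [min_eq_left h]
    linarith [norm_nonneg k]
  · rw [min_eq_right h]
    linarith

private theorem Bd_all {d : ℕ} (i e : Fin d) (K : ℕ) : ∀ b : ℕ, ∃ C : ℝ, 0 ≤ C ∧
    ∀ k : Fin d → ℝ, ‖FT (mo e b (ze i K)) k‖ ≤ C * (min ‖k‖ 1) ^ (K - b) := by
  induction K with
  | zero =>
    intro b
    refine ⟨1, zero_le_one, fun k => ?_⟩
    have h0 : ze i 0 = del d := rfl
    rw [h0, Nat.zero_sub, pow_zero, mul_one]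
    rcases Nat.eq_zero_or_pos b with hb | hb
    · rw [hb, mo_zero, FT_del, norm_one]
    · rw [mo_del e hb, FT_zero, norm_zero]
      exact zero_le_one
  | succ K ih =>
    intro b
    choose c hc0 hc using ih
    have hze : ∀ n m, Mo m (ze i n) := fun n m => Mo_of_finite m (Bd_fin i n)
    set B : ℕ → ℝ := fun j => ∑' x : Fin d → ℤ, |(x e : ℝ)| ^ j * |ze i 1 x| with hB
    have hB0 : ∀ j, 0 ≤ B j := fun j => tsum_nonneg fun x => by positivity
    refine ⟨∑ j ∈ range (b + 1), (b.choose j : ℝ) * ((2 + B j) * c (b - j)),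
      Finset.sum_nonneg fun j _ => mul_nonneg (Nat.cast_nonneg _)
        (mul_nonneg (by linarith [hB0 j]) (hc0 _)), fun k => ?_⟩
    rw [Bd_cv, mo_cv e b (hze 1 b) (hze K b), FT_sum]
    · refine (norm_sum_le _ _).trans ?_
      rw [Finset.sum_mul]
      refine Finset.sum_le_sum fun j hj => ?_
      have hjb : j ≤ b := Nat.lt_succ_iff.1 (mem_range.1 hj)
      have hs2 : S1 (mo e j (ze i 1)) := (Mo.mo (m := 0) (a := j) (by
        rw [zero_add]; exact hze 1 j) e).s1
      have hs3 : S1 (mo e (b - j) (ze i K)) := (Mo.mo (m := 0) (a := b - j) (by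
        rw [zero_add]; exact hze K _) e).s1
      rw [FT_const_mul, FT_cv hs2 hs3, norm_mul, norm_mul]
      have e1 : ‖((b.choose j : ℝ) : ℂ)‖ = (b.choose j : ℝ) := by
        rw [Complex.norm_real, Real.norm_eq_abs, abs_of_nonneg (Nat.cast_nonneg _)]
      rw [e1, mul_assoc]
      refine mul_le_mul_of_nonneg_left ?_ (Nat.cast_nonneg _)
      have hu0 := Bd_u_nonneg k
      have hu1 : min ‖k‖ 1 ≤ 1 := min_le_right _ _
      rcases Nat.eq_zero_or_pos j with h0 | h0
      · subst h0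
        rw [mo_zero, Nat.sub_zero]
        have e2 := Bd_FT1 i k
        have e3 := hc b k
        have e4 : (min ‖k‖ 1) ^ (K - b + 1) ≤ (min ‖k‖ 1) ^ (K + 1 - b) :=
          pow_le_pow_of_le_one hu0 hu1 (by omega)
        calc ‖FT (ze i 1) k‖ * ‖FT (mo e b (ze i K)) k‖
            ≤ (2 * min ‖k‖ 1) * (c b * (min ‖k‖ 1) ^ (K - b)) :=
              mul_le_mul e2 e3 (norm_nonneg _) (by positivity)
          _ = 2 * c b * (min ‖k‖ 1) ^ (K - b + 1) := by rw [pow_succ]; ring
          _ ≤ 2 * c b * (min ‖k‖ 1) ^ (K + 1 - b) :=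
              mul_le_mul_of_nonneg_left e4 (by linarith [hc0 b])
          _ ≤ (2 + B 0) * c b * (min ‖k‖ 1) ^ (K + 1 - b) := by
              refine mul_le_mul_of_nonneg_right ?_ (pow_nonneg hu0 _)
              exact mul_le_mul_of_nonneg_right (by linarith [hB0 0]) (hc0 b)
      · have e2 : ‖FT (mo e j (ze i 1)) k‖ ≤ B j := norm_FT_mo_le e j (hze 1 j) k
        have e3 := hc (b - j) k
        have e4 : (min ‖k‖ 1) ^ (K - (b - j)) ≤ (min ‖k‖ 1) ^ (K + 1 - b) :=
          pow_le_pow_of_le_one hu0 hu1 (by omega)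
        calc ‖FT (mo e j (ze i 1)) k‖ * ‖FT (mo e (b - j) (ze i K)) k‖
            ≤ B j * (c (b - j) * (min ‖k‖ 1) ^ (K - (b - j))) :=
              mul_le_mul e2 e3 (norm_nonneg _) (hB0 j)
          _ ≤ B j * (c (b - j) * (min ‖k‖ 1) ^ (K + 1 - b)) :=
              mul_le_mul_of_nonneg_left (mul_le_mul_of_nonneg_left e4 (hc0 _)) (hB0 j)
          _ = B j * c (b - j) * (min ‖k‖ 1) ^ (K + 1 - b) := by ring
          _ ≤ (2 + B j) * c (b - j) * (min ‖k‖ 1) ^ (K + 1 - b) := by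
              refine mul_le_mul_of_nonneg_right ?_ (pow_nonneg hu0 _)
              exact mul_le_mul_of_nonneg_right (by linarith) (hc0 _)
    · intro j hj
      have hs2 : S1 (mo e j (ze i 1)) := (Mo.mo (m := 0) (a := j) (by
        rw [zero_add]; exact hze 1 j) e).s1
      have hs3 : S1 (mo e (b - j) (ze i K)) := (Mo.mo (m := 0) (a := b - j) (by
        rw [zero_add]; exact hze K _) e).s1
      exact (hs2.cv hs3).const_mul _

theorem ze_FT {d : ℕ} (i e : Fin d) (K b : ℕ) (hb : b ≤ K) : ∃ C : ℝ, 0 ≤ C ∧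
    ∀ k : Fin d → ℝ, ‖FT (mo e b (ze i K)) k‖ ≤ C * ‖k‖ ^ (K - b) := by
  obtain ⟨C, hC0, hC⟩ := Bd_all i e K b
  refine ⟨C, hC0, fun k => (hC k).trans ?_⟩
  exact mul_le_mul_of_nonneg_left
    (pow_le_pow_left₀ (Bd_u_nonneg k) (min_le_left _ _) _) hC0

theorem mu_cube (d : ℕ) : ∀ᵐ k ∂(mu d), ∀ i, |k i| ≤ Real.pi := by
  rw [ae_all_iff]
  intro i
  have h1 : ∀ᵐ t ∂nu1, |t| ≤ Real.pi := by
    unfold nu1
    refine Measure.ae_smul_measure ?_ _
    filter_upwards [ae_restrict_mem measurableSet_Icc] with t ht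
    exact abs_le.2 ⟨ht.1, ht.2⟩
  unfold mu
  exact (Measure.tendsto_eval_ae_ae (μ := fun _ : Fin d => nu1) (i := i)).eventually h1

/-- bounds of the Fourier transform of `(x e)^a V` by `C |k|^(-2-a)` give weighted `ℓ²` bounds for high differences -/
theorem dK_bound {d : ℕ} (hd : 1 ≤ d) (s a K : ℕ) (ha : a ≤ s) (hK : s + 2 ≤ K) {C : ℝ} (hC : 0 ≤ C) :
    ∃ M : ℝ, 0 ≤ M ∧ ∀ V : (Fin d → ℤ) → ℝ, Mo s V →
      (∀ (e : Fin d) (b : ℕ), b ≤ s → ∀ k : Fin d → ℝ, (∀ i, |k i| ≤ Real.pi) →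
        ‖FT (mo e b V) k‖ * ‖k‖ ^ (2 + b) ≤ C) →
      ∀ (i e : Fin d) (T : Finset (Fin d → ℤ)), ∑ y ∈ T, |(y e : ℝ)| ^ (2 * a) * dK i K V y ^ 2 ≤ M := by
  choose c hc0 hc using fun (i e : Fin d) (b : ℕ) => Bd_all i e K b
  have hpi := Real.pi_pos
  set D : ℕ → ℝ := fun b => ∑ i, ∑ e, c i e b with hD
  have hcD : ∀ i e b, c i e b ≤ D b := by
    intro i e b
    refine (Finset.single_le_sum (f := fun e => c i e b) (fun e _ => hc0 i e b)
      (Finset.mem_univ e)).trans ?_
    exact Finset.single_le_sum (f := fun i => ∑ e, c i e b)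
      (fun i _ => Finset.sum_nonneg fun e _ => hc0 i e b) (Finset.mem_univ i)
  have hD0 : ∀ b, 0 ≤ D b := fun b =>
    Finset.sum_nonneg fun i _ => Finset.sum_nonneg fun e _ => hc0 i e b
  set C' : ℝ := ∑ b ∈ range (a + 1), (a.choose b : ℝ) * (D b * Real.pi ^ (K - a - 2) * C) with hC'
  have hC'0 : 0 ≤ C' := Finset.sum_nonneg fun b _ =>
    mul_nonneg (Nat.cast_nonneg _) (mul_nonneg (mul_nonneg (hD0 b) (pow_nonneg hpi.le _)) hC)
  refine ⟨C' ^ 2, sq_nonneg _, ?_⟩
  intro V hV hb i e T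
  have hze : ∀ m, Mo m (ze i K) := fun m => Mo_of_finite m (Bd_fin i K)
  have hVa : Mo a V := hV.mono ha
  have hdK : Mo a (dK i K V) := by
    rw [dK_eq_cv]
    exact (hze a).cv hVa
  have hS : S1 (mo e a (dK i K V)) := (Mo.mo (m := 0) (a := a) (by rwa [zero_add]) e).s1
  have hbound : ∀ k : Fin d → ℝ, (∀ i, |k i| ≤ Real.pi) →
      ‖FT (mo e a (dK i K V)) k‖ ≤ C' := by
    intro k hk
    have hkn : ‖k‖ ≤ Real.pi := by
      rw [pi_norm_le_iff_of_nonneg hpi.le]
      intro j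
      rw [Real.norm_eq_abs]
      exact hk j
    rw [dK_eq_cv, mo_cv e a (hze a) hVa, FT_sum]
    · refine (norm_sum_le _ _).trans (Finset.sum_le_sum fun b hb' => ?_)
      have hba : b ≤ a := Nat.lt_succ_iff.1 (mem_range.1 hb')
      have hs2 : S1 (mo e b (ze i K)) := (Mo.mo (m := 0) (a := b) (by
        rw [zero_add]; exact hze b) e).s1
      have hs3 : S1 (mo e (a - b) V) := (Mo.mo (m := 0) (a := a - b) (by
        rw [zero_add]; exact hVa.mono (by omega)) e).s1
      rw [FT_const_mul, FT_cv hs2 hs3, norm_mul, norm_mul]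
      have e1 : ‖((a.choose b : ℝ) : ℂ)‖ = (a.choose b : ℝ) := by
        rw [Complex.norm_real, Real.norm_eq_abs, abs_of_nonneg (Nat.cast_nonneg _)]
      rw [e1]
      refine mul_le_mul_of_nonneg_left ?_ (Nat.cast_nonneg _)
      have e2 := hc i e b k
      have e3 : (min ‖k‖ 1) ^ (K - b) ≤ ‖k‖ ^ (K - b) :=
        pow_le_pow_left₀ (Bd_u_nonneg k) (min_le_left _ _) _
      have e4 : ‖FT (mo e b (ze i K)) k‖ ≤ D b * ‖k‖ ^ (K - b) :=
        e2.trans (mul_le_mul (hcD i e b) e3 (pow_nonneg (Bd_u_nonneg k) _) (hD0 b))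
      have e5 := hb e (a - b) (by omega) k hk
      have e6 : K - b = (K - a - 2) + (2 + (a - b)) := by omega
      calc ‖FT (mo e b (ze i K)) k‖ * ‖FT (mo e (a - b) V) k‖
          ≤ (D b * ‖k‖ ^ (K - b)) * ‖FT (mo e (a - b) V) k‖ :=
            mul_le_mul_of_nonneg_right e4 (norm_nonneg _)
        _ = D b * ‖k‖ ^ (K - a - 2) * (‖FT (mo e (a - b) V) k‖ * ‖k‖ ^ (2 + (a - b))) := by
            rw [e6, pow_add]; ring
        _ ≤ D b * ‖k‖ ^ (K - a - 2) * C :=
            mul_le_mul_of_nonneg_left e5 (mul_nonneg (hD0 b) (pow_nonneg (norm_nonneg _) _))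
        _ ≤ D b * Real.pi ^ (K - a - 2) * C :=
            mul_le_mul_of_nonneg_right (mul_le_mul_of_nonneg_left
              (pow_le_pow_left₀ (norm_nonneg _) hkn _) (hD0 b)) hC
    · intro b hb'
      have hba : b ≤ a := Nat.lt_succ_iff.1 (mem_range.1 hb')
      have hs2 : S1 (mo e b (ze i K)) := (Mo.mo (m := 0) (a := b) (by
        rw [zero_add]; exact hze b) e).s1
      have hs3 : S1 (mo e (a - b) V) := (Mo.mo (m := 0) (a := a - b) (by
        rw [zero_add]; exact hVa.mono (by omega)) e).s1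
      exact (hs2.cv hs3).const_mul _
  have hsq : Summable fun y => mo e a (dK i K V) y ^ 2 := by
    have hB : ∀ y, |mo e a (dK i K V) y| ≤ ∑' x, |mo e a (dK i K V) x| := fun y =>
      hS.le_tsum y fun x _ => abs_nonneg _
    refine Summable.of_nonneg_of_le (fun y => sq_nonneg _) (fun y => ?_)
      (hS.mul_left (∑' x, |mo e a (dK i K V) x|))
    rw [← sq_abs, sq]
    exact mul_le_mul_of_nonneg_right (hB y) (abs_nonneg _)
  have h1 : ∑ y ∈ T, |(y e : ℝ)| ^ (2 * a) * dK i K V y ^ 2 =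
      ∑ y ∈ T, mo e a (dK i K V) y ^ 2 := by
    refine Finset.sum_congr rfl fun y _ => ?_
    rw [mo, mul_pow, ← pow_mul, mul_comm a 2, pow_mul, sq_abs, ← pow_mul]
  rw [h1]
  refine (hsq.sum_le_tsum T fun y _ => sq_nonneg _).trans ?_
  rw [parseval hS]
  have h2 : ∫ k, ‖FT (mo e a (dK i K V)) k‖ ^ 2 ∂(mu d) ≤ ∫ _k, C' ^ 2 ∂(mu d) := by
    refine integral_mono_of_nonneg (Filter.Eventually.of_forall fun k => sq_nonneg _)
      (integrable_const _) ?_
    filter_upwards [mu_cube d] with k hk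
    exact pow_le_pow_left₀ (norm_nonneg _) (hbound k hk) 2
  refine h2.trans (le_of_eq ?_)
  rw [integral_const, probReal_univ, one_smul]

end IPC
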