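import Pool.Agent.Lib.MP_25e40f_pr.A.Trl
import Pool.Agent.Lib.MP_25e40f_pr.A.Cnn

/-!
# MP_25e40f_pr, stream F: branching (job Brn, about 180 lines)

`branch`: induction on the finite set `J` (`Finset.induction_on`), for `J = insert j J'`, `j ∉ J'`.
* `J'` empty: `J` has only one element, excluded.
* `J' = {i}` has one element: `Conn ω x (y i)`: `exists_trail`: `σ ⊆ ω`, `Trail σ x (y i)`.  `X = {x, y i} ∪ VV σ`, `Conn_last_exit X` for `Conn ω x (y j)`: `t ∈ X`, `Conn R t (y j)` with `R = ω.filter (not inside X)`, disjoint from `σ`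
  (all the edges of `σ` are inside `VV σ ⊆ X`).  `Trail_split` of `σ` at `t`: `σ = σ₁ ⊔ σ₂`, `Trail σ₁ x t`, `Trail σ₂ t (y i)`.  `z = t`, `I = {i}`, `ω₀ = σ₁`, `ω₁ = σ₂`, `ω₂ = R`.
* `J'` has at least two elements: induction gives `I ⊂ J'`, `z`, `ω₀`, `ω₁`, `ω₂`.  Shrink: replace `ω₀` by a trail `σ ⊆ ω₀` from `x` to `z`, and `ω₁`, `ω₂` by `ω₁' = ω₁.filter (fun e => ∀ a ∈ e, Conn ω₁ z a)`,
  `ω₂'` similarly (connections from `z` in `ω₁` only use edges whose endpoints are connected to `z`: `Conn_closed`-type induction along the path: private lemma `Conn ω₁ z a → Conn ω₁' z a`); so every vertex of `VV ω₁'` is connected to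
  `z` in `ω₁'`.  `X = {x, z} ∪ VV σ ∪ VV ω₁' ∪ VV ω₂'`, `Conn_last_exit X` for `Conn ω x (y j)`: `t ∈ X`, `R` disjoint from `σ`, `ω₁'`, `ω₂'`, `Conn R t (y j)`.
  - `t ∈ VV ω₁'` (or `t = z`): `ω₁' ∪ R` joins `z` to all `y i`, `i ∈ I`, and to `y j`: take `insert j I`, `z`, `σ`, `ω₁' ∪ R`, `ω₂'`.
  - `t ∈ VV ω₂'`: take `I` again, `z`, `σ`, `ω₁'`, `ω₂' ∪ R` (now `j` belongs to the complement).
  - `t ∈ VV σ` or `t = x`: `Trail_split`: `σ = σ₁ ⊔ σ₂`, `Trail σ₁ x t`, `Trail σ₂ t z`: take `I := J'` (nonempty, complement `{j}`), `z := t`, `ω₀ = σ₁`, `ω₁ = σ₂ ∪ ω₁' ∪ ω₂'`, `ω₂ = R`.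
-/

set_option autoImplicit false

noncomputable section

open Finset
open scoped Classical

namespace IPC

variable {V : Type} [DecidableEq V]

private theorem Brn_disj {ω τ : Finset (Sym2 V)} {X : Finset V} (h : VV τ ⊆ X) :
    Disjoint τ (ω.filter fun e => ¬ ∀ a ∈ e, a ∈ X) := by
  rw [Finset.disjoint_left]
  intro e he hf
  rw [Finset.mem_filter] at hf
  apply hf.2
  intro a ha
  apply h
  rw [mem_VV]
  obtain ⟨b, rfl⟩ := Sym2.mem_iff_exists.1 ha
  exact ⟨b, he⟩

private theorem Brn_shrink (ω : Finset (Sym2 V)) (z : V) :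
    ∃ τ, τ ⊆ ω ∧ (∀ a, Conn ω z a → Conn τ z a) ∧ ∀ b ∈ VV τ, Conn τ z b := by
  have h1 : ∀ a, Conn ω z a → Conn (off ω {a | ¬ Conn ω z a}) z a := fun a ha =>
    Conn_off_of_disjoint {a | ¬ Conn ω z a} ha fun _ hb => hb
  refine ⟨off ω {a | ¬ Conn ω z a}, Finset.filter_subset _ _, h1, ?_⟩
  intro b hb
  rw [mem_VV] at hb
  obtain ⟨c, hc⟩ := hb
  unfold off at hc
  rw [Finset.mem_filter] at hc
  have h2 : ¬ (b ∈ {a | ¬ Conn ω z a}) := hc.2 b (Sym2.mem_mk_left b c)
  exact h1 b (not_not.1 h2)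

/-- if at least two vertices are connected to `x`, there is a first branching point `z` -/
theorem branch {ι : Type} [DecidableEq ι] (J : Finset ι) (y : ι → V) (x : V) (ω : Finset (Sym2 V))
    (hJ : 2 ≤ J.card) (h : ∀ i ∈ J, Conn ω x (y i)) :
    ∃ I ⊆ J, I.Nonempty ∧ (J \ I).Nonempty ∧ ∃ z, ∃ ω₀ ω₁ ω₂ : Finset (Sym2 V),
      ω₀ ⊆ ω ∧ ω₁ ⊆ ω ∧ ω₂ ⊆ ω ∧ Disjoint ω₀ ω₁ ∧ Disjoint ω₀ ω₂ ∧ Disjoint ω₁ ω₂ ∧
      Conn ω₀ x z ∧ (∀ i ∈ I, Conn ω₁ z (y i)) ∧ ∀ i ∈ J \ I, Conn ω₂ z (y i) := by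
  induction J using Finset.induction_on with
  | empty => simp at hJ
  | insert j J' hj ih =>
    rw [Finset.card_insert_of_notMem hj] at hJ
    have hcj : Conn ω x (y j) := h j (Finset.mem_insert_self j J')
    have h' : ∀ i ∈ J', Conn ω x (y i) := fun i hi => h i (Finset.mem_insert_of_mem hi)
    rcases Nat.lt_or_ge J'.card 2 with hlt | hge
    · obtain ⟨i, hi⟩ := Finset.card_eq_one.1 (show J'.card = 1 by omega)
      subst hi
      have hji : j ≠ i := fun h => hj (Finset.mem_singleton.2 h)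
      obtain ⟨σ, hσ, ht⟩ := exists_trail (h' i (Finset.mem_singleton_self i))
      obtain ⟨t, htX, hR⟩ := Conn_last_exit (insert x (insert (y i) (VV σ)))
        (Finset.mem_insert_self _ _) hcj
      have hdR : Disjoint σ (ω.filter fun e => ¬ ∀ a ∈ e, a ∈ insert x (insert (y i) (VV σ))) :=
        Brn_disj ((Finset.subset_insert _ _).trans (Finset.subset_insert _ _))
      have hsR : (ω.filter fun e => ¬ ∀ a ∈ e, a ∈ insert x (insert (y i) (VV σ))) ⊆ ω :=
        Finset.filter_subset _ _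
      generalize (ω.filter fun e => ¬ ∀ a ∈ e, a ∈ insert x (insert (y i) (VV σ))) = R at *
      have htt : t = x ∨ t = y i ∨ t ∈ VV σ := by
        rw [Finset.mem_insert, Finset.mem_insert] at htX
        exact htX
      obtain ⟨σ₁, σ₂, hd, hu, h1, h2⟩ := Trail_split ht htt
      have hs1 : σ₁ ⊆ σ := by rw [← hu]; exact Finset.subset_union_left
      have hs2 : σ₂ ⊆ σ := by rw [← hu]; exact Finset.subset_union_right
      refine ⟨{i}, Finset.subset_insert _ _, Finset.singleton_nonempty i,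
        ⟨j, Finset.mem_sdiff.2 ⟨Finset.mem_insert_self _ _, hj⟩⟩, t, σ₁, σ₂, R,
        hs1.trans hσ, hs2.trans hσ, hsR, hd, Finset.disjoint_of_subset_left hs1 hdR,
        Finset.disjoint_of_subset_left hs2 hdR, Trail_conn h1, ?_, ?_⟩
      · intro k hk
        rw [Finset.mem_singleton.1 hk]
        exact Trail_conn h2
      · intro k hk
        rw [Finset.mem_sdiff, Finset.mem_insert] at hk
        rw [hk.1.resolve_right hk.2]
        exact hR
    · obtain ⟨I, hIJ, hIne, hcne, z, ω₀, ω₁, ω₂, hs0, hs1, hs2, hd01, hd02, hd12, hc0, hc1, hc2⟩ :=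
        ih hge h'
      obtain ⟨σ, hσ, ht⟩ := exists_trail hc0
      obtain ⟨τ₁, ht1, hτ1, hV1⟩ := Brn_shrink ω₁ z
      obtain ⟨τ₂, ht2, hτ2, hV2⟩ := Brn_shrink ω₂ z
      have hc1' : ∀ i ∈ I, Conn τ₁ z (y i) := fun i hi => hτ1 _ (hc1 i hi)
      have hc2' : ∀ i ∈ J' \ I, Conn τ₂ z (y i) := fun i hi => hτ2 _ (hc2 i hi)
      obtain ⟨t, htX, hR⟩ := Conn_last_exit (insert x (insert z (VV σ ∪ (VV τ₁ ∪ VV τ₂))))
        (Finset.mem_insert_self _ _) hcj
      have hXs : VV σ ∪ (VV τ₁ ∪ VV τ₂) ⊆ insert x (insert z (VV σ ∪ (VV τ₁ ∪ VV τ₂))) :=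
        (Finset.subset_insert _ _).trans (Finset.subset_insert _ _)
      have hdσR : Disjoint σ (ω.filter fun e =>
          ¬ ∀ a ∈ e, a ∈ insert x (insert z (VV σ ∪ (VV τ₁ ∪ VV τ₂)))) :=
        Brn_disj (Finset.subset_union_left.trans hXs)
      have hd1R : Disjoint τ₁ (ω.filter fun e =>
          ¬ ∀ a ∈ e, a ∈ insert x (insert z (VV σ ∪ (VV τ₁ ∪ VV τ₂)))) :=
        Brn_disj ((Finset.subset_union_left.trans Finset.subset_union_right).trans hXs)
      have hd2R : Disjoint τ₂ (ω.filter fun e =>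
          ¬ ∀ a ∈ e, a ∈ insert x (insert z (VV σ ∪ (VV τ₁ ∪ VV τ₂)))) :=
        Brn_disj ((Finset.subset_union_right.trans Finset.subset_union_right).trans hXs)
      have hsR : (ω.filter fun e =>
          ¬ ∀ a ∈ e, a ∈ insert x (insert z (VV σ ∪ (VV τ₁ ∪ VV τ₂)))) ⊆ ω :=
        Finset.filter_subset _ _
      generalize (ω.filter fun e =>
          ¬ ∀ a ∈ e, a ∈ insert x (insert z (VV σ ∪ (VV τ₁ ∪ VV τ₂)))) = R at *
      have hσω : σ ⊆ ω := hσ.trans hs0
      have h1ω : τ₁ ⊆ ω := ht1.trans hs1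
      have h2ω : τ₂ ⊆ ω := ht2.trans hs2
      have hdσ1 : Disjoint σ τ₁ := Finset.disjoint_of_subset_left hσ
        (Finset.disjoint_of_subset_right ht1 hd01)
      have hdσ2 : Disjoint σ τ₂ := Finset.disjoint_of_subset_left hσ
        (Finset.disjoint_of_subset_right ht2 hd02)
      have hd12' : Disjoint τ₁ τ₂ := Finset.disjoint_of_subset_left ht1
        (Finset.disjoint_of_subset_right ht2 hd12)
      have htt : (t = x ∨ t ∈ VV σ) ∨ (Conn τ₁ z t) ∨ Conn τ₂ z t := by
        rw [Finset.mem_insert, Finset.mem_insert, Finset.mem_union, Finset.mem_union] at htX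
        rcases htX with h3 | h3 | h3 | h3 | h3
        · exact Or.inl (Or.inl h3)
        · exact Or.inr (Or.inl (by rw [h3]; exact Conn_refl _ _))
        · exact Or.inl (Or.inr h3)
        · exact Or.inr (Or.inl (hV1 t h3))
        · exact Or.inr (Or.inr (hV2 t h3))
      rcases htt with h3 | h3 | h3
      · obtain ⟨σ₁, σ₂, hd, hu, e1, e2⟩ := Trail_split ht
          (h3.elim (fun h => Or.inl h) (fun h => Or.inr (Or.inr h)))
        have hσ1 : σ₁ ⊆ σ := by rw [← hu]; exact Finset.subset_union_left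
        have hσ2 : σ₂ ⊆ σ := by rw [← hu]; exact Finset.subset_union_right
        refine ⟨J', Finset.subset_insert _ _, Finset.card_pos.1 (by omega),
          ⟨j, Finset.mem_sdiff.2 ⟨Finset.mem_insert_self _ _, hj⟩⟩, t, σ₁, σ₂ ∪ (τ₁ ∪ τ₂), R,
          hσ1.trans hσω, Finset.union_subset (hσ2.trans hσω) (Finset.union_subset h1ω h2ω), hsR,
          ?_, Finset.disjoint_of_subset_left hσ1 hdσR, ?_, Trail_conn e1, ?_, ?_⟩
        · exact Finset.disjoint_union_right.2 ⟨hd, Finset.disjoint_union_right.2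
            ⟨Finset.disjoint_of_subset_left hσ1 hdσ1, Finset.disjoint_of_subset_left hσ1 hdσ2⟩⟩
        · exact Finset.disjoint_union_left.2 ⟨Finset.disjoint_of_subset_left hσ2 hdσR,
            Finset.disjoint_union_left.2 ⟨hd1R, hd2R⟩⟩
        · intro i hi
          refine Conn_trans (Conn_mono Finset.subset_union_left (Trail_conn e2)) ?_
          by_cases hiI : i ∈ I
          · exact Conn_mono (Finset.subset_union_left.trans Finset.subset_union_right)
              (hc1' i hiI)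
          · exact Conn_mono (Finset.subset_union_right.trans Finset.subset_union_right)
              (hc2' i (Finset.mem_sdiff.2 ⟨hi, hiI⟩))
        · intro k hk
          rw [Finset.mem_sdiff, Finset.mem_insert] at hk
          rw [hk.1.resolve_right hk.2]
          exact hR
      · refine ⟨insert j I, Finset.insert_subset_insert j hIJ, Finset.insert_nonempty j I, ?_, z,
          σ, τ₁ ∪ R, τ₂, hσω, Finset.union_subset h1ω hsR, h2ω,
          Finset.disjoint_union_right.2 ⟨hdσ1, hdσR⟩, hdσ2,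
          Finset.disjoint_union_left.2 ⟨hd12', hd2R.symm⟩, Trail_conn ht, ?_, ?_⟩
        · obtain ⟨k, hk⟩ := hcne
          rw [Finset.mem_sdiff] at hk
          refine ⟨k, Finset.mem_sdiff.2 ⟨Finset.mem_insert_of_mem hk.1, ?_⟩⟩
          rw [Finset.mem_insert]
          rintro (h4 | h4)
          · exact hj (by rw [← h4]; exact hk.1)
          · exact hk.2 h4
        · intro i hi
          rcases Finset.mem_insert.1 hi with h4 | h4
          · rw [h4]
            exact Conn_trans (Conn_mono Finset.subset_union_left h3)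
              (Conn_mono Finset.subset_union_right hR)
          · exact Conn_mono Finset.subset_union_left (hc1' i h4)
        · intro k hk
          rw [Finset.mem_sdiff, Finset.mem_insert, Finset.mem_insert, not_or] at hk
          exact hc2' k (Finset.mem_sdiff.2 ⟨hk.1.resolve_left hk.2.1, hk.2.2⟩)
      · refine ⟨I, hIJ.trans (Finset.subset_insert _ _), hIne,
          ⟨j, Finset.mem_sdiff.2 ⟨Finset.mem_insert_self _ _, fun h4 => hj (hIJ h4)⟩⟩, z,
          σ, τ₁, τ₂ ∪ R, hσω, h1ω, Finset.union_subset h2ω hsR, hdσ1,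
          Finset.disjoint_union_right.2 ⟨hdσ2, hdσR⟩,
          Finset.disjoint_union_right.2 ⟨hd12', hd1R⟩, Trail_conn ht, hc1', ?_⟩
        intro k hk
        rw [Finset.mem_sdiff, Finset.mem_insert] at hk
        rcases hk.1 with h4 | h4
        · rw [h4]
          exact Conn_trans (Conn_mono Finset.subset_union_left h3)
            (Conn_mono Finset.subset_union_right hR)
        · exact Conn_mono Finset.subset_union_left (hc2' k (Finset.mem_sdiff.2 ⟨h4, hk.2⟩))

end IPC
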