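import Pool.Agent.Lib.MP_25e40f_pr.ZDef

/-!
# MP_25e40f_pr, stream F: definitions (deep domains, iterated kernels, bad events)
-/

set_option autoImplicit false

noncomputable section

open Finset
open scoped Classical

namespace IPC

/-- the box of radius `r` is inside `D`, and `v ∈ D` is outside of the box -/
structure Deep (d r : ℕ) (D : Finset (Fin d → ℤ)) (v : Fin d → ℤ) : Prop where
  sub : (Zg d).Lam r ⊆ D
  mem : v ∈ D
  out : v ∉ (Zg d).Lam r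

/-- `∑_{y_1, ..., y_j ∈ B} τ_{B'}(x, y_1) ... τ_{B'}(y_j, y)` -/
def itau (d : ℕ) (p : ℝ) (B B' : Finset (Fin d → ℤ)) : ℕ → (Fin d → ℤ) → (Fin d → ℤ) → ℝ
  | 0, x, y => (Zg d).tauD p B' x y
  | j + 1, x, y => ∑ z ∈ B, (Zg d).tauD p B' x z * itau d p B B' j z y

/-- disjoint occurrence of a connection from the box `Λ_r` to `v` and of a connection from the box to the outside of
the box `Λ_{r'}` -/
def BadE (d r r' : ℕ) (v : Fin d → ℤ) (ω : Finset (Sym2 (Fin d → ℤ))) : Prop :=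
  ∃ s ∈ (Zg d).Lam r, ∃ s' ∈ (Zg d).Lam r, ∃ ω₁ ω₂, ω₁ ⊆ ω ∧ ω₂ ⊆ ω ∧ Disjoint ω₁ ω₂ ∧
    Conn ω₁ s v ∧ ∃ y, y ∉ (Zg d).Lam r' ∧ Conn ω₂ s' y

theorem mem_Lam {d r : ℕ} {x : Fin d → ℤ} : x ∈ (Zg d).Lam r ↔ ∀ i, |x i| ≤ r := by
  show x ∈ (Fintype.piFinset fun _ : Fin d => Finset.Icc (-(r : ℤ)) r) ↔ _
  rw [Fintype.mem_piFinset]
  refine forall_congr' fun i => ?_
  rw [Finset.mem_Icc, abs_le]

theorem mem_Lam_norm {d r : ℕ} {x : Fin d → ℤ} : x ∈ (Zg d).Lam r ↔ ‖x‖ ≤ r := by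
  rw [mem_Lam, pi_norm_le_iff_of_nonneg (Nat.cast_nonneg r)]
  refine forall_congr' fun i => ?_
  rw [Int.norm_eq_abs]
  constructor
  · intro h
    exact_mod_cast h
  · intro h
    exact_mod_cast h

theorem Lam_le {d r s : ℕ} (h : r ≤ s) : (Zg d).Lam r ⊆ (Zg d).Lam s := by
  intro x hx
  rw [mem_Lam] at hx ⊢
  intro i
  exact (hx i).trans (by exact_mod_cast h)

theorem zero_mem_Lam (d r : ℕ) : (0 : Fin d → ℤ) ∈ (Zg d).Lam r := by
  rw [mem_Lam]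
  intro i
  simp

theorem Deep.mono {d r r' : ℕ} {D : Finset (Fin d → ℤ)} {v : Fin d → ℤ} (h : Deep d r D v)
    (hr : r' ≤ r) : Deep d r' D v :=
  ⟨(Lam_le hr).trans h.sub, h.mem, fun hv => h.out (Lam_le hr hv)⟩

end IPC
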