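import Pool.Agent.Lib.MP_25e40f_pr.F.Mom
import Pool.Agent.Lib.MP_25e40f_pr.F.Dp

/-!
# MP_25e40f_pr, stream F: chains (job Chn, about 110 lines)

`chain_harris`: see the statement; induction on `j` (all `x`).  Write `ω' = ω ∩ ein B'`.
`j = 0`: `τ_{B'}(x,y) = Pr (ein D) (fun ω => Conn ω' x y)` (`Pr_restrict`: `(ω ∩ ein B') ∩ ein B' = ω ∩ ein B'`, `T.ein_mono`), `harris`: `τ_{B'}(x,y) τ_D(y,v) ≤ Pr (Conn ω' x y ∧ Conn ω y v)`, and if `Conn ω' x y` then `Conn ω y v ↔ Conn ω x v`;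
sum over `y ∈ B`: `∑_y ind (Conn ω' x y ∧ Conn ω x v) = szD B ω' x * ind (Conn ω x v)` (`EE_sum`).
Step: `∑_{y ∈ B} itau (j+1) x y τ_D(y,v) = ∑_{z ∈ B} τ_{B'}(x,z) ∑_{y ∈ B} itau j z y τ_D(y,v) ≤ ∑_{z ∈ B} EE (ind (Conn ω' x z)) * EE (f_z)` with `f_z ω = szD B ω' z ^ (j+1) * ind (Conn ω z v)`, `≤ ∑_z EE (ind (Conn ω' x z) * f_z)` (`EE_harris`,
both functions are increasing: `szD` increases with `ω`, nonnegative), and on `Conn ω' x z`: `szD B ω' z = szD B ω' x` (same sets), `Conn ω z v ↔ Conn ω x v`; `∑_{z ∈ B} ind (Conn ω' x z) = szD B ω' x`.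
-/

set_option autoImplicit false

noncomputable section

open Finset
open scoped Classical

namespace IPC

variable {d : ℕ}

private theorem Chn_tau {p : ℝ} {B' D : Finset (Fin d → ℤ)} (hB : B' ⊆ D) (x z : Fin d → ℤ) :
    (Zg d).tauD p B' x z = Pr p ((Zg d).ein D) (fun ω => Conn (ω ∩ (Zg d).ein B') x z) := by
  rw [Pr_restrict p (T.ein_mono (Zg d) hB) (fun ω => Conn (ω ∩ (Zg d).ein B') x z)]
  · refine Pr_congr p _ fun ω hω => ?_
    rw [Finset.inter_eq_left.2 hω]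
  · intro ω _
    rw [Finset.inter_assoc, Finset.inter_self]

private theorem Chn_sz_congr (B : Finset (Fin d → ℤ)) {ω : Finset (Sym2 (Fin d → ℤ))} {x z : Fin d → ℤ}
    (h : Conn ω x z) : szD B ω z = szD B ω x := by
  unfold szD
  refine congrArg (fun n : ℕ => (n : ℝ)) (congrArg Finset.card ?_)
  refine Finset.filter_congr fun y _ => ?_
  exact ⟨fun h1 => Conn_trans h h1, fun h1 => Conn_trans (Conn_symm h) h1⟩

private theorem Chn_sz_mono (B : Finset (Fin d → ℤ)) {ω ω' : Finset (Sym2 (Fin d → ℤ))} (h : ω ⊆ ω')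
    (x : Fin d → ℤ) : szD B ω x ≤ szD B ω' x := by
  unfold szD
  have h1 : (B.filter fun y => Conn ω x y) ⊆ (B.filter fun y => Conn ω' x y) := by
    intro y hy
    rw [Finset.mem_filter] at hy ⊢
    exact ⟨hy.1, Conn_mono h hy.2⟩
  exact_mod_cast Finset.card_le_card h1

private theorem Chn_sz_nonneg (B : Finset (Fin d → ℤ)) (ω : Finset (Sym2 (Fin d → ℤ))) (x : Fin d → ℤ) :
    0 ≤ szD B ω x := Nat.cast_nonneg _

private theorem Chn_sz_sum (B : Finset (Fin d → ℤ)) (ω : Finset (Sym2 (Fin d → ℤ))) (x : Fin d → ℤ) :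
    szD B ω x = ∑ z ∈ B, ind (Conn ω x z) := by
  unfold szD ind
  rw [Finset.card_filter]
  push_cast
  rfl

private theorem Chn_key {p : ℝ} (h0 : 0 ≤ p) (h1 : p ≤ 1) {B B' D : Finset (Fin d → ℤ)}
    (hB : B' ⊆ D) (v : Fin d → ℤ) (m : ℕ) (x : Fin d → ℤ) :
    ∑ z ∈ B, (Zg d).tauD p B' x z *
      EE p ((Zg d).ein D) (fun ω => szD B (ω ∩ (Zg d).ein B') z ^ m * ind (Conn ω z v)) ≤
      EE p ((Zg d).ein D) (fun ω => szD B (ω ∩ (Zg d).ein B') x ^ (m + 1) * ind (Conn ω x v)) := by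
  have e1 : EE p ((Zg d).ein D) (fun ω => szD B (ω ∩ (Zg d).ein B') x ^ (m + 1) * ind (Conn ω x v)) =
      ∑ z ∈ B, EE p ((Zg d).ein D) (fun ω => ind (Conn (ω ∩ (Zg d).ein B') x z) *
        (szD B (ω ∩ (Zg d).ein B') z ^ m * ind (Conn ω z v))) := by
    rw [← EE_sum]
    refine EE_congr p _ fun ω _ => ?_
    have e2 : ∀ z ∈ B, ind (Conn (ω ∩ (Zg d).ein B') x z) *
        (szD B (ω ∩ (Zg d).ein B') z ^ m * ind (Conn ω z v)) =
        ind (Conn (ω ∩ (Zg d).ein B') x z) *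
        (szD B (ω ∩ (Zg d).ein B') x ^ m * ind (Conn ω x v)) := by
      intro z _
      by_cases hc : Conn (ω ∩ (Zg d).ein B') x z
      · have hc' : Conn ω x z := Conn_mono Finset.inter_subset_left hc
        have e3 : (Conn ω z v) = (Conn ω x v) :=
          propext ⟨fun h => Conn_trans hc' h, fun h => Conn_trans (Conn_symm hc') h⟩
        rw [Chn_sz_congr B hc, e3]
      · rw [ind_not hc, zero_mul, zero_mul]
    rw [Finset.sum_congr rfl e2, ← Finset.sum_mul, ← Chn_sz_sum, pow_succ]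
    ring
  rw [e1]
  refine Finset.sum_le_sum fun z _ => ?_
  rw [Chn_tau hB x z]
  unfold Pr
  refine EE_harris h0 h1 _ _ _ (fun ω ω' h => ?_) (fun ω ω' h => ?_)
  · exact ind_mono fun hc => Conn_mono (Finset.inter_subset_inter_right h) hc
  · refine mul_le_mul ?_ (ind_mono fun hc => Conn_mono h hc) (ind_nonneg _)
      (pow_nonneg (Chn_sz_nonneg _ _ _) _)
    exact pow_le_pow_left₀ (Chn_sz_nonneg _ _ _) (Chn_sz_mono B (Finset.inter_subset_inter_right h) z) m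

private theorem Chn_tau_nonneg {p : ℝ} (h0 : 0 ≤ p) (h1 : p ≤ 1) (B : Finset (Fin d → ℤ))
    (x z : Fin d → ℤ) : 0 ≤ (Zg d).tauD p B x z := Pr_nonneg h0 h1 _ _

theorem chain_harris {p : ℝ} (h0 : 0 ≤ p) (h1 : p ≤ 1) {B B' D : Finset (Fin d → ℤ)}
    (hB : B' ⊆ D) (v : Fin d → ℤ) (j : ℕ) (x : Fin d → ℤ) :
    ∑ y ∈ B, itau d p B B' j x y * (Zg d).tauD p D y v ≤
      EE p ((Zg d).ein D) (fun ω => szD B (ω ∩ (Zg d).ein B') x ^ (j + 1) * ind (Conn ω x v)) := by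
  induction j generalizing x with
  | zero =>
    refine le_trans (le_of_eq ?_) (Chn_key h0 h1 hB v 0 x)
    refine Finset.sum_congr rfl fun y _ => ?_
    show (Zg d).tauD p B' x y * (Zg d).tauD p D y v = _
    refine congrArg (fun t => (Zg d).tauD p B' x y * t) ?_
    refine EE_congr p _ fun ω _ => ?_
    show ind _ = _
    rw [pow_zero, one_mul]
  | succ j ih =>
    have e1 : ∑ y ∈ B, itau d p B B' (j + 1) x y * (Zg d).tauD p D y v =
        ∑ z ∈ B, (Zg d).tauD p B' x z * ∑ y ∈ B, itau d p B B' j z y * (Zg d).tauD p D y v := by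
      have e2 : ∀ y ∈ B, itau d p B B' (j + 1) x y * (Zg d).tauD p D y v =
          ∑ z ∈ B, (Zg d).tauD p B' x z * (itau d p B B' j z y * (Zg d).tauD p D y v) := by
        intro y _
        show (∑ z ∈ B, (Zg d).tauD p B' x z * itau d p B B' j z y) * (Zg d).tauD p D y v = _
        rw [Finset.sum_mul]
        exact Finset.sum_congr rfl fun z _ => by ring
      rw [Finset.sum_congr rfl e2, Finset.sum_comm]
      exact Finset.sum_congr rfl fun z _ => by rw [Finset.mul_sum]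
    rw [e1]
    refine le_trans (Finset.sum_le_sum fun z _ => ?_) (Chn_key h0 h1 hB v (j + 1) x)
    exact mul_le_mul_of_nonneg_left (ih z) (Chn_tau_nonneg h0 h1 _ _ _)

end IPC
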