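import Mathlib

/-!
# MP_25e40f_pr, stream F: a nonnegative homogeneous harmonic polynomial of positive degree is zero (job Gau, about 200 lines)

`gw x = ∏ i, exp (- (x i)^2 / 2)`, `gL P = ∫ P gw`.
One variable: `M n := ∫ t : ℝ, t^n * exp (-t^2/2)`; integrable (`integrable_rpow_mul_exp_neg_mul_sq` or `integrable_pow_mul_exp_neg_mul_sq`...; with `b = 1/2`), `M 1 = 0`-type facts are not needed separately:
`M (n+1) = n * M (n-1)` for `n ≥ 1` and `M 1 = 0`: the function `t^n exp(-t^2/2)` has derivative `n t^(n-1) exp(-t^2/2) - t^(n+1) exp(-t^2/2)` and tends to `0` at both ends (`integral_of_hasDerivAt_of_tendsto`), or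
`integral_eq_zero_of_hasDerivAt_of_integrable`.
Several variables: for a monomial `α` the integrand is `∏ i, (x i)^(α i) exp (-(x i)^2/2)`: `MeasureTheory.integral_fintype_prod_eq_prod` (or `integral_fintype_prod_volume_eq_prod`), `MeasureTheory.Integrable.fintype_prod`.
`gL_int`, `gL_add`, `gL_smul`: linear combinations of monomials (`MvPolynomial.induction_on'` or `eval_eq`).
`gL_by_parts`: by linearity for `P = monomial α 1`: `X i * P` has exponent `α i + 1` at `i`, `pderiv i P = α i * monomial (α - single i 1) 1` (`pderiv_monomial`); the factors for `j ≠ i` are the same; one variable formula.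
`gL_pos`: the integrand is continuous, nonnegative and not identically zero (`MvPolynomial.funext`): `integral_pos_iff_support_of_nonneg` and the support is open and nonempty (`IsOpen.measure_pos`), or
`Continuous.integral_pos_of_...`.
`homog_harmonic_zero`: suppose `P ≠ 0`. Euler (`IsHomogeneous.sum_X_mul_pderiv`): `∑ i, X i * pderiv i P = m • P`.  So `m * gL P = ∑ i, gL (X i * pderiv i P) = ∑ i, gL (pderiv i (pderiv i P)) = gL (∑ i, pderiv i (pderiv i P)) = 0`;
`gL_pos` and `m ≥ 1`: contradiction.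
-/

set_option autoImplicit false

noncomputable section

open Finset MvPolynomial MeasureTheory

namespace IPC

/-- Gaussian weight -/
def gw {d : ℕ} (x : Fin d → ℝ) : ℝ := ∏ i, Real.exp (-(x i) ^ 2 / 2)

/-- Gaussian functional -/
def gL {d : ℕ} (P : MvPolynomial (Fin d) ℝ) : ℝ := ∫ x : Fin d → ℝ, eval x P * gw x

private def Gau_h (n : ℕ) (t : ℝ) : ℝ := t ^ n * Real.exp (-t ^ 2 / 2)

private lemma Gau_h_int (n : ℕ) : Integrable (Gau_h n) := by
  have h := integrable_rpow_mul_exp_neg_mul_sq (b := (1 / 2 : ℝ)) (by norm_num)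
    (s := (n : ℝ)) (by
      have : (0 : ℝ) ≤ n := Nat.cast_nonneg n
      linarith)
  refine h.congr (Filter.Eventually.of_forall fun t => ?_)
  have h1 : -(1 / 2 : ℝ) * t ^ 2 = -t ^ 2 / 2 := by ring
  simp only [Gau_h, Real.rpow_natCast, h1]

private def Gau_M (n : ℕ) : ℝ := ∫ t : ℝ, Gau_h n t

private lemma Gau_M_succ (n : ℕ) : Gau_M (n + 1) = n * Gau_M (n - 1) := by
  have hd : ∀ t : ℝ, HasDerivAt (Gau_h n) (n * Gau_h (n - 1) t - Gau_h (n + 1) t) t := by
    intro t
    have h1 : HasDerivAt (fun s : ℝ => s ^ n) (n * t ^ (n - 1)) t := hasDerivAt_pow n t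
    have h3 : HasDerivAt (fun s : ℝ => -s ^ 2 / 2) (-t) t := by
      have h4 : HasDerivAt (fun s : ℝ => -s ^ 2 / 2) (-((2 : ℕ) * t ^ (2 - 1)) / 2) t :=
        ((hasDerivAt_pow 2 t).neg).div_const 2
      have h5 : (-(((2 : ℕ) : ℝ) * t ^ (2 - 1)) / 2) = -t := by
        norm_num
        ring
      rw [h5] at h4
      exact h4
    have h2 : HasDerivAt (fun s : ℝ => Real.exp (-s ^ 2 / 2)) (Real.exp (-t ^ 2 / 2) * (-t)) t :=
      h3.exp
    have h6 := h1.mul h2
    have h7 : (n * Gau_h (n - 1) t - Gau_h (n + 1) t) =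
        (n * t ^ (n - 1)) * Real.exp (-t ^ 2 / 2) + t ^ n * (Real.exp (-t ^ 2 / 2) * (-t)) := by
      simp only [Gau_h, pow_succ]
      ring
    rw [h7]
    exact h6
  have hi : Integrable (fun t => (n : ℝ) * Gau_h (n - 1) t - Gau_h (n + 1) t) :=
    ((Gau_h_int _).const_mul _).sub (Gau_h_int _)
  have h0 := integral_eq_zero_of_hasDerivAt_of_integrable hd hi (Gau_h_int n)
  rw [integral_sub ((Gau_h_int _).const_mul _) (Gau_h_int _), integral_const_mul] at h0
  unfold Gau_M
  linarith

private lemma Gau_mon {d : ℕ} (α : Fin d →₀ ℕ) (c : ℝ) (x : Fin d → ℝ) :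
    eval x (monomial α c) * gw x = c * ∏ i, Gau_h (α i) (x i) := by
  rw [eval_monomial, Finsupp.prod_fintype _ _ (by simp)]
  simp only [gw, Gau_h, Finset.prod_mul_distrib]
  ring

theorem gL_int {d : ℕ} (P : MvPolynomial (Fin d) ℝ) :
    Integrable (fun x : Fin d → ℝ => eval x P * gw x) := by
  induction P using MvPolynomial.induction_on' with
  | monomial α c =>
    simp_rw [Gau_mon]
    exact (Integrable.fintype_prod (fun i => Gau_h_int (α i))).const_mul c
  | add p q hp hq =>
    simp_rw [map_add, add_mul]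
    exact hp.add hq

private lemma Gau_gL_mon {d : ℕ} (α : Fin d →₀ ℕ) (c : ℝ) :
    gL (monomial α c) = c * ∏ i, Gau_M (α i) := by
  unfold gL
  simp_rw [Gau_mon]
  rw [integral_const_mul,
    integral_fintype_prod_volume_eq_prod (fun (i : Fin d) (t : ℝ) => Gau_h (α i) t)]
  rfl

theorem gL_add {d : ℕ} (P R : MvPolynomial (Fin d) ℝ) : gL (P + R) = gL P + gL R := by
  unfold gL
  rw [← integral_add (gL_int P) (gL_int R)]
  simp_rw [map_add, add_mul]

theorem gL_smul {d : ℕ} (c : ℝ) (P : MvPolynomial (Fin d) ℝ) : gL (c • P) = c * gL P := by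
  unfold gL
  rw [← integral_const_mul]
  simp_rw [smul_eval, mul_assoc]

theorem gL_by_parts {d : ℕ} (i : Fin d) (P : MvPolynomial (Fin d) ℝ) :
    gL (X i * P) = gL (pderiv i P) := by
  induction P using MvPolynomial.induction_on' with
  | monomial α c =>
    have h1 : (X i : MvPolynomial (Fin d) ℝ) * monomial α c =
        monomial (Finsupp.single i 1 + α) c := by
      rw [X, monomial_mul, one_mul]
    rw [h1, pderiv_monomial, Gau_gL_mon, Gau_gL_mon,
      ← Finset.mul_prod_erase Finset.univ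
        (fun j => Gau_M ((Finsupp.single i 1 + α : Fin d →₀ ℕ) j)) (Finset.mem_univ i),
      ← Finset.mul_prod_erase Finset.univ
        (fun j => Gau_M ((α - Finsupp.single i 1 : Fin d →₀ ℕ) j)) (Finset.mem_univ i)]
    have h2 : (∏ x ∈ Finset.univ.erase i, Gau_M ((Finsupp.single i 1 + α : Fin d →₀ ℕ) x)) =
        ∏ x ∈ Finset.univ.erase i, Gau_M (α x) := by
      refine Finset.prod_congr rfl fun j hj => ?_
      have hji : j ≠ i := Finset.ne_of_mem_erase hj
      rw [Finsupp.add_apply, Finsupp.single_eq_of_ne hji, zero_add]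
    have h3 : (∏ x ∈ Finset.univ.erase i, Gau_M ((α - Finsupp.single i 1 : Fin d →₀ ℕ) x)) =
        ∏ x ∈ Finset.univ.erase i, Gau_M (α x) := by
      refine Finset.prod_congr rfl fun j hj => ?_
      have hji : j ≠ i := Finset.ne_of_mem_erase hj
      rw [Finsupp.tsub_apply, Finsupp.single_eq_of_ne hji, Nat.sub_zero]
    have h4 : (Finsupp.single i 1 + α : Fin d →₀ ℕ) i = α i + 1 := by
      rw [Finsupp.add_apply, Finsupp.single_eq_same, add_comm]
    have h5 : (α - Finsupp.single i 1 : Fin d →₀ ℕ) i = α i - 1 := by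
      rw [Finsupp.tsub_apply, Finsupp.single_eq_same]
    rw [h2, h3, h4, h5, Gau_M_succ]
    ring
  | add p q hp hq =>
    rw [mul_add, gL_add, hp, hq, map_add, gL_add]

private lemma Gau_gw_pos {d : ℕ} (x : Fin d → ℝ) : 0 < gw x :=
  Finset.prod_pos fun _ _ => Real.exp_pos _

private lemma Gau_gw_cont {d : ℕ} : Continuous (gw : (Fin d → ℝ) → ℝ) := by
  unfold gw
  fun_prop

theorem gL_pos {d : ℕ} {P : MvPolynomial (Fin d) ℝ} (hP : ∀ x, 0 ≤ eval x P) (hne : P ≠ 0) :
    0 < gL P := by
  unfold gL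
  have hnn : 0 ≤ fun x : Fin d → ℝ => eval x P * gw x := fun x =>
    mul_nonneg (hP x) (Gau_gw_pos x).le
  rw [integral_pos_iff_support_of_nonneg hnn (gL_int P)]
  have hc : Continuous (fun x : Fin d → ℝ => eval x P * gw x) :=
    (MvPolynomial.continuous_eval P).mul Gau_gw_cont
  have ho : IsOpen (Function.support (fun x : Fin d → ℝ => eval x P * gw x)) :=
    hc.isOpen_support
  refine ho.measure_pos volume ?_
  by_contra hemp
  rw [Set.not_nonempty_iff_eq_empty, Function.support_eq_empty_iff] at hemp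
  apply hne
  refine MvPolynomial.funext fun x => ?_
  have h1 : eval x P * gw x = 0 := congrFun hemp x
  rw [map_zero]
  exact (mul_eq_zero.mp h1).resolve_right (Gau_gw_pos x).ne'

private lemma Gau_gL_zero {d : ℕ} : gL (0 : MvPolynomial (Fin d) ℝ) = 0 := by
  have := gL_smul (d := d) 0 0
  rw [zero_smul, zero_mul] at this
  exact this

private lemma Gau_gL_sum {d : ℕ} (s : Finset (Fin d)) (f : Fin d → MvPolynomial (Fin d) ℝ) :
    gL (∑ i ∈ s, f i) = ∑ i ∈ s, gL (f i) := by
  classical
  induction s using Finset.induction_on with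
  | empty => simp [Gau_gL_zero]
  | insert a s ha ih => rw [Finset.sum_insert ha, Finset.sum_insert ha, gL_add, ih]

theorem homog_harmonic_zero {d m : ℕ} (hm : 1 ≤ m) {P : MvPolynomial (Fin d) ℝ}
    (hP : P.IsHomogeneous m) (h0 : ∀ x, 0 ≤ eval x P) (hΔ : ∑ i, pderiv i (pderiv i P) = 0) :
    P = 0 := by
  by_contra hne
  have hpos := gL_pos h0 hne
  have hE := hP.sum_X_mul_pderiv
  have h1 : gL (m • P) = m * gL P := by
    rw [← Nat.cast_smul_eq_nsmul ℝ m P, gL_smul]
  have h2 : gL (m • P) = 0 := by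
    rw [← hE, Gau_gL_sum]
    simp_rw [gL_by_parts]
    rw [← Gau_gL_sum, hΔ, Gau_gL_zero]
  rw [h1] at h2
  have hm' : (0 : ℝ) < m := by exact_mod_cast hm
  have := mul_pos hm' hpos
  linarith

end IPC
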