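import Mathlib

/-!
# MP_25e40f_pr, stream F: second order Taylor expansion of polynomials (job Rem, about 180 lines)

`rem2 P x y` is linear in `P`.  `rem2 (C a) = 0` and, with `D P := ∑ i, y i * eval x (pderiv i P)`, `D2 P := ∑ i, ∑ j, y i * y j * eval x (pderiv i (pderiv j P))`:
`rem2 (X l * P) x y = (x l - y l) * rem2 P x y - (1/2) * y l * D2 P` because `D (X l * P) = y l * eval x P + x l * D P`, `D2 (X l * P) = 2 y l * D P + x l * D2 P` (`pderiv_mul`, `pderiv_X`, `Finset.sum_ite_eq`).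
Consider for a monomial `M` of degree `m` (a product of `m` variables) the three bounds, all `x`, `y` (sup norms on `Fin d → ℝ`, `|x i| ≤ ‖x‖`):
 (a) `|eval x M| ≤ (1+‖x‖)^m`;
 (b) `(1+‖x‖) |eval x (pderiv i M)| ≤ C (1+‖x‖)^m`;
 (c) `(1+‖x‖)^2 |eval x (pderiv i (pderiv j M))| ≤ C (1+‖x‖)^m`;
 (d) `(1+‖x‖)^3 |rem2 M x y| ≤ C (1+‖x‖)^m (1+‖y‖)^(m+3)`.
They hold for `M = 1` and go from `M` to `X l * M` by the product rule and the formula above (`|x l - y l| ≤ (1+‖x‖)(1+‖y‖)`, `|D2 M| ≤ d^2 ‖y‖^2 max |..|`).  Induction on monomials: `MvPolynomial.monomial_add_single`,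
`MvPolynomial.induction_on'`... for example prove for all `m` and all `α : Fin d →₀ ℕ` with `α.degree = m` (or `α.sum (fun _ e => e) = m`) by induction on `m`: `monomial α 1 = X l * monomial (α - single l 1) 1` for some `l`
with `α l ≠ 0`.  Then `P = ∑_{α ∈ support} coeff α * monomial α 1` with `degree α ≤ m` (`le_totalDegree`), `(1+‖x‖)^(degree α) ≤ (1+‖x‖)^m`, and the constants are added up.
-/

set_option autoImplicit false

noncomputable section

open Finset MvPolynomial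

namespace IPC

/-- the remainder of the Taylor expansion of second order of `P (x - y)` -/
def rem2 {d : ℕ} (P : MvPolynomial (Fin d) ℝ) (x y : Fin d → ℝ) : ℝ :=
  eval (x - y) P - eval x P + ∑ i, y i * eval x (pderiv i P) -
    (1 / 2) * ∑ i, ∑ j, y i * y j * eval x (pderiv i (pderiv j P))

private def Rem_Bd {d : ℕ} (P : MvPolynomial (Fin d) ℝ) (m : ℕ) : Prop :=
  ∃ K : ℝ, 0 ≤ K ∧ (∀ x : Fin d → ℝ, |eval x P| ≤ K * (1 + ‖x‖) ^ m) ∧
    (∀ (i : Fin d) (x : Fin d → ℝ), (1 + ‖x‖) * |eval x (pderiv i P)| ≤ K * (1 + ‖x‖) ^ m) ∧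
    (∀ (i j : Fin d) (x : Fin d → ℝ),
      (1 + ‖x‖) ^ 2 * |eval x (pderiv i (pderiv j P))| ≤ K * (1 + ‖x‖) ^ m) ∧
    (∀ x y : Fin d → ℝ, (1 + ‖x‖) ^ 3 * |rem2 P x y| ≤ K * (1 + ‖x‖) ^ m * (1 + ‖y‖) ^ (m + 3))

private theorem Rem_zero {d : ℕ} (m : ℕ) : Rem_Bd (0 : MvPolynomial (Fin d) ℝ) m := by
  refine ⟨0, le_rfl, fun x => ?_, fun i x => ?_, fun i j x => ?_, fun x y => ?_⟩
  · simp
  · simp
  · simp
  · simp [rem2]

private theorem Rem_one {d : ℕ} : Rem_Bd (1 : MvPolynomial (Fin d) ℝ) 0 := by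
  refine ⟨1, zero_le_one, fun x => ?_, fun i x => ?_, fun i j x => ?_, fun x y => ?_⟩
  · simp
  · simp
  · simp
  · have h : rem2 (1 : MvPolynomial (Fin d) ℝ) x y = 0 := by simp [rem2]
    rw [h, abs_zero, mul_zero]
    positivity

private theorem Rem_add {d m : ℕ} {P Q : MvPolynomial (Fin d) ℝ} (hP : Rem_Bd P m) (hQ : Rem_Bd Q m) :
    Rem_Bd (P + Q) m := by
  obtain ⟨K, hK, a1, b1, c1, d1⟩ := hP
  obtain ⟨L, hL, a2, b2, c2, d2⟩ := hQ
  refine ⟨K + L, add_nonneg hK hL, fun x => ?_, fun i x => ?_, fun i j x => ?_, fun x y => ?_⟩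
  · rw [map_add, add_mul]
    exact (abs_add_le _ _).trans (add_le_add (a1 x) (a2 x))
  · rw [map_add, map_add, add_mul K]
    refine (mul_le_mul_of_nonneg_left (abs_add_le _ _) (show 0 ≤ 1 + ‖x‖ by positivity)).trans ?_
    rw [mul_add (1 + ‖x‖)]
    exact add_le_add (b1 i x) (b2 i x)
  · rw [map_add, map_add, map_add, add_mul]
    refine (mul_le_mul_of_nonneg_left (abs_add_le _ _) (show 0 ≤ (1 + ‖x‖) ^ 2 by positivity)).trans ?_
    rw [mul_add ((1 + ‖x‖) ^ 2)]
    exact add_le_add (c1 i j x) (c2 i j x)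
  · have h : rem2 (P + Q) x y = rem2 P x y + rem2 Q x y := by
      unfold rem2
      simp only [map_add, mul_add, Finset.sum_add_distrib]
      ring
    rw [h, add_mul, add_mul]
    refine (mul_le_mul_of_nonneg_left (abs_add_le _ _) (show 0 ≤ (1 + ‖x‖) ^ 3 by positivity)).trans ?_
    rw [mul_add ((1 + ‖x‖) ^ 3)]
    exact add_le_add (d1 x y) (d2 x y)

private theorem Rem_smul {d m : ℕ} {P : MvPolynomial (Fin d) ℝ} (a : ℝ) (hP : Rem_Bd P m) :
    Rem_Bd (C a * P) m := by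
  obtain ⟨K, hK, a1, b1, c1, d1⟩ := hP
  have key : ∀ t u v : ℝ, t * |u| ≤ v → t * |a * u| ≤ |a| * v := by
    intro t u v h
    have h1 := mul_le_mul_of_nonneg_left h (abs_nonneg a)
    rw [abs_mul]
    calc t * (|a| * |u|) = |a| * (t * |u|) := by ring
      _ ≤ _ := h1
  refine ⟨|a| * K, mul_nonneg (abs_nonneg a) hK, fun x => ?_, fun i x => ?_, fun i j x => ?_, fun x y => ?_⟩
  · rw [map_mul, eval_C, mul_assoc, abs_mul]
    exact mul_le_mul_of_nonneg_left (a1 x) (abs_nonneg a)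
  · rw [pderiv_C_mul, map_mul, eval_C, mul_assoc]
    exact key _ _ _ (b1 i x)
  · rw [pderiv_C_mul, pderiv_C_mul, map_mul, eval_C, mul_assoc]
    exact key _ _ _ (c1 i j x)
  · have h : rem2 (C a * P) x y = a * rem2 P x y := by
      unfold rem2
      simp only [pderiv_C_mul, map_mul, eval_C]
      have e1 : ∑ i, y i * (a * eval x (pderiv i P)) = a * ∑ i, y i * eval x (pderiv i P) := by
        rw [Finset.mul_sum]
        exact Finset.sum_congr rfl fun i _ => by ring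
      have e2 : ∑ i, ∑ j, y i * y j * (a * eval x (pderiv i (pderiv j P))) =
          a * ∑ i, ∑ j, y i * y j * eval x (pderiv i (pderiv j P)) := by
        rw [Finset.mul_sum]
        refine Finset.sum_congr rfl fun i _ => ?_
        rw [Finset.mul_sum]
        exact Finset.sum_congr rfl fun j _ => by ring
      rw [e1, e2]
      ring
    rw [h, mul_assoc, mul_assoc, ← mul_assoc K]
    exact key _ _ _ (d1 x y)

private theorem Rem_le {d m n : ℕ} (hmn : m ≤ n) {P : MvPolynomial (Fin d) ℝ} (hP : Rem_Bd P m) :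
    Rem_Bd P n := by
  obtain ⟨K, hK, a1, b1, c1, d1⟩ := hP
  have h1 : ∀ x : Fin d → ℝ, 1 ≤ 1 + ‖x‖ := fun x => by linarith [norm_nonneg x]
  have h2 : ∀ x : Fin d → ℝ, K * (1 + ‖x‖) ^ m ≤ K * (1 + ‖x‖) ^ n := fun x =>
    mul_le_mul_of_nonneg_left (pow_le_pow_right₀ (h1 x) hmn) hK
  refine ⟨K, hK, fun x => (a1 x).trans (h2 x), fun i x => (b1 i x).trans (h2 x),
    fun i j x => (c1 i j x).trans (h2 x), fun x y => (d1 x y).trans ?_⟩
  refine mul_le_mul (h2 x) (pow_le_pow_right₀ (h1 y) (by omega)) (by positivity) (by positivity)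

private theorem Rem_pX {d : ℕ} (P : MvPolynomial (Fin d) ℝ) (l i : Fin d) (x : Fin d → ℝ) :
    eval x (pderiv i (P * X l)) = eval x (pderiv i P) * x l + (if l = i then eval x P else 0) := by
  rw [pderiv_mul, map_add, map_mul, map_mul, eval_X, pderiv_X]
  by_cases h : l = i
  · subst h
    rw [Pi.single_eq_same, if_pos rfl, map_one, mul_one]
  · rw [Pi.single_eq_of_ne h, if_neg h, map_zero, mul_zero]

private theorem Rem_ppX {d : ℕ} (P : MvPolynomial (Fin d) ℝ) (l i j : Fin d) (x : Fin d → ℝ) :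
    eval x (pderiv i (pderiv j (P * X l))) = eval x (pderiv i (pderiv j P)) * x l +
      (if l = i then eval x (pderiv j P) else 0) + (if l = j then eval x (pderiv i P) else 0) := by
  rw [pderiv_mul, map_add, map_add, Rem_pX, pderiv_X]
  congr 1
  by_cases h : l = j
  · subst h
    rw [Pi.single_eq_same, if_pos rfl, mul_one]
  · rw [Pi.single_eq_of_ne h, if_neg h, mul_zero, map_zero, map_zero]

private theorem Rem_remX {d : ℕ} (P : MvPolynomial (Fin d) ℝ) (l : Fin d) (x y : Fin d → ℝ) :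
    rem2 (P * X l) x y = (x l - y l) * rem2 P x y -
      (1 / 2) * y l * ∑ i, ∑ j, y i * y j * eval x (pderiv i (pderiv j P)) := by
  have e1 : ∑ i, y i * eval x (pderiv i (P * X l)) =
      x l * (∑ i, y i * eval x (pderiv i P)) + y l * eval x P := by
    simp only [Rem_pX, mul_add, mul_ite, mul_zero, Finset.sum_add_distrib, Finset.sum_ite_eq,
      Finset.mem_univ, if_true]
    congr 1
    rw [Finset.mul_sum]
    exact Finset.sum_congr rfl fun i _ => by ring
  have e2 : ∑ i, ∑ j, y i * y j * eval x (pderiv i (pderiv j (P * X l))) =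
      x l * (∑ i, ∑ j, y i * y j * eval x (pderiv i (pderiv j P))) +
        2 * y l * ∑ i, y i * eval x (pderiv i P) := by
    have f1 : ∑ i, ∑ j, y i * y j * (eval x (pderiv i (pderiv j P)) * x l) =
        x l * (∑ i, ∑ j, y i * y j * eval x (pderiv i (pderiv j P))) := by
      rw [Finset.mul_sum]
      refine Finset.sum_congr rfl fun i _ => ?_
      rw [Finset.mul_sum]
      exact Finset.sum_congr rfl fun j _ => by ring
    have f2 : ∑ i, ∑ j, y i * y j * (if l = i then eval x (pderiv j P) else 0) =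
        y l * ∑ i, y i * eval x (pderiv i P) := by
      rw [Finset.sum_comm, Finset.mul_sum]
      refine Finset.sum_congr rfl fun j _ => ?_
      simp only [mul_ite, mul_zero, Finset.sum_ite_eq, Finset.mem_univ, if_true]
      ring
    have f3 : ∑ i, ∑ j, y i * y j * (if l = j then eval x (pderiv i P) else 0) =
        y l * ∑ i, y i * eval x (pderiv i P) := by
      rw [Finset.mul_sum]
      refine Finset.sum_congr rfl fun j _ => ?_
      simp only [mul_ite, mul_zero, Finset.sum_ite_eq, Finset.mem_univ, if_true]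
      ring
    simp only [Rem_ppX, mul_add, Finset.sum_add_distrib]
    rw [f1, f2, f3]
    ring
  unfold rem2
  rw [e1, e2, map_mul, map_mul, eval_X, eval_X, Pi.sub_apply]
  ring

private theorem Rem_abs {d : ℕ} (x : Fin d → ℝ) (l : Fin d) : |x l| ≤ ‖x‖ := by
  rw [← Real.norm_eq_abs]
  exact norm_le_pi_norm x l

private theorem Rem_D2 {d m : ℕ} {P : MvPolynomial (Fin d) ℝ} {K : ℝ}
    (c1 : ∀ (i j : Fin d) (x : Fin d → ℝ),
      (1 + ‖x‖) ^ 2 * |eval x (pderiv i (pderiv j P))| ≤ K * (1 + ‖x‖) ^ m) (x y : Fin d → ℝ) :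
    (1 + ‖x‖) ^ 2 * |∑ i, ∑ j, y i * y j * eval x (pderiv i (pderiv j P))| ≤
      (d : ℝ) ^ 2 * ((1 + ‖y‖) ^ 2 * (K * (1 + ‖x‖) ^ m)) := by
  have h1 : |∑ i, ∑ j, y i * y j * eval x (pderiv i (pderiv j P))| ≤
      ∑ i, ∑ j, |y i * y j * eval x (pderiv i (pderiv j P))| :=
    (Finset.abs_sum_le_sum_abs _ _).trans (Finset.sum_le_sum fun i _ => Finset.abs_sum_le_sum_abs _ _)
  refine (mul_le_mul_of_nonneg_left h1 (by positivity)).trans ?_
  rw [Finset.mul_sum]
  have h2 : ∀ i ∈ (Finset.univ : Finset (Fin d)),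
      (1 + ‖x‖) ^ 2 * ∑ j, |y i * y j * eval x (pderiv i (pderiv j P))| ≤
        (d : ℝ) * ((1 + ‖y‖) ^ 2 * (K * (1 + ‖x‖) ^ m)) := by
    intro i _
    rw [Finset.mul_sum]
    have h3 : ∀ j ∈ (Finset.univ : Finset (Fin d)),
        (1 + ‖x‖) ^ 2 * |y i * y j * eval x (pderiv i (pderiv j P))| ≤
          (1 + ‖y‖) ^ 2 * (K * (1 + ‖x‖) ^ m) := by
      intro j _
      have hi : |y i| ≤ 1 + ‖y‖ := (Rem_abs y i).trans (by linarith)
      have hj : |y j| ≤ 1 + ‖y‖ := (Rem_abs y j).trans (by linarith)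
      have hij : |y i| * |y j| ≤ (1 + ‖y‖) ^ 2 := by
        rw [pow_two]
        exact mul_le_mul hi hj (abs_nonneg _) (by positivity)
      rw [abs_mul, abs_mul]
      calc (1 + ‖x‖) ^ 2 * (|y i| * |y j| * |eval x (pderiv i (pderiv j P))|)
          = (|y i| * |y j|) * ((1 + ‖x‖) ^ 2 * |eval x (pderiv i (pderiv j P))|) := by ring
        _ ≤ (1 + ‖y‖) ^ 2 * (K * (1 + ‖x‖) ^ m) :=
          mul_le_mul hij (c1 i j x) (by positivity) (by positivity)
    refine (Finset.sum_le_card_nsmul _ _ _ h3).trans (le_of_eq ?_)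
    rw [Finset.card_univ, Fintype.card_fin, nsmul_eq_mul]
  refine (Finset.sum_le_card_nsmul _ _ _ h2).trans (le_of_eq ?_)
  rw [Finset.card_univ, Fintype.card_fin, nsmul_eq_mul]
  ring

private theorem Rem_mulX {d m : ℕ} {P : MvPolynomial (Fin d) ℝ} (hP : Rem_Bd P m) (l : Fin d) :
    Rem_Bd (P * X l) (m + 1) := by
  obtain ⟨K, hK, a1, b1, c1, d1⟩ := hP
  have hd0 : (0 : ℝ) ≤ (d : ℝ) ^ 2 := by positivity
  refine ⟨(3 + (d : ℝ) ^ 2) * K, by positivity, fun x => ?_, fun i x => ?_, fun i j x => ?_, fun x y => ?_⟩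
  · have hx : |x l| ≤ 1 + ‖x‖ := (Rem_abs x l).trans (by linarith)
    have h0 : 0 ≤ K * (1 + ‖x‖) ^ (m + 1) := by positivity
    rw [map_mul, eval_X, abs_mul]
    have h := mul_le_mul (a1 x) hx (abs_nonneg _) (by positivity)
    have e : K * (1 + ‖x‖) ^ m * (1 + ‖x‖) = K * (1 + ‖x‖) ^ (m + 1) := by ring
    rw [e] at h
    nlinarith [mul_nonneg hd0 h0]
  · have hx : |x l| ≤ 1 + ‖x‖ := (Rem_abs x l).trans (by linarith)
    have h0 : 0 ≤ K * (1 + ‖x‖) ^ (m + 1) := by positivity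
    have e : K * (1 + ‖x‖) ^ m * (1 + ‖x‖) = K * (1 + ‖x‖) ^ (m + 1) := by ring
    have h1 := mul_le_mul (b1 i x) hx (abs_nonneg _) (by positivity)
    have h2 := mul_le_mul_of_nonneg_right (a1 x) (show 0 ≤ 1 + ‖x‖ by positivity)
    rw [e] at h1 h2
    have h3 : |if l = i then eval x P else 0| ≤ |eval x P| := by
      split_ifs
      · exact le_rfl
      · rw [abs_zero]
        exact abs_nonneg _
    have h4 : |eval x (pderiv i (P * X l))| ≤ |eval x (pderiv i P)| * |x l| + |eval x P| := by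
      rw [Rem_pX, ← abs_mul]
      exact (abs_add_le _ _).trans (add_le_add le_rfl h3)
    have h5 := mul_le_mul_of_nonneg_left h4 (show 0 ≤ 1 + ‖x‖ by positivity)
    nlinarith [mul_nonneg hd0 h0]
  · have hx : |x l| ≤ 1 + ‖x‖ := (Rem_abs x l).trans (by linarith)
    have h0 : 0 ≤ K * (1 + ‖x‖) ^ (m + 1) := by positivity
    have e : K * (1 + ‖x‖) ^ m * (1 + ‖x‖) = K * (1 + ‖x‖) ^ (m + 1) := by ring
    have h1 := mul_le_mul (c1 i j x) hx (abs_nonneg _) (by positivity)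
    have h2 := mul_le_mul_of_nonneg_right (b1 i x) (show 0 ≤ 1 + ‖x‖ by positivity)
    have h2' := mul_le_mul_of_nonneg_right (b1 j x) (show 0 ≤ 1 + ‖x‖ by positivity)
    rw [e] at h1 h2 h2'
    have h3 : |if l = i then eval x (pderiv j P) else 0| ≤ |eval x (pderiv j P)| := by
      split_ifs
      · exact le_rfl
      · rw [abs_zero]
        exact abs_nonneg _
    have h3' : |if l = j then eval x (pderiv i P) else 0| ≤ |eval x (pderiv i P)| := by
      split_ifs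
      · exact le_rfl
      · rw [abs_zero]
        exact abs_nonneg _
    have h4 : |eval x (pderiv i (pderiv j (P * X l)))| ≤
        |eval x (pderiv i (pderiv j P))| * |x l| + |eval x (pderiv j P)| + |eval x (pderiv i P)| := by
      rw [Rem_ppX, ← abs_mul]
      exact (abs_add_three _ _ _).trans (add_le_add (add_le_add le_rfl h3) h3')
    have h5 := mul_le_mul_of_nonneg_left h4 (show 0 ≤ (1 + ‖x‖) ^ 2 by positivity)
    have h6 : (1 + ‖x‖) ^ 2 * (|eval x (pderiv i (pderiv j P))| * |x l| + |eval x (pderiv j P)| +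
        |eval x (pderiv i P)|) = (1 + ‖x‖) ^ 2 * |eval x (pderiv i (pderiv j P))| * |x l| +
        (1 + ‖x‖) * |eval x (pderiv j P)| * (1 + ‖x‖) + (1 + ‖x‖) * |eval x (pderiv i P)| * (1 + ‖x‖) := by
      ring
    rw [h6] at h5
    nlinarith [mul_nonneg hd0 h0]
  · have hx : |x l| ≤ ‖x‖ := Rem_abs x l
    have hy : |y l| ≤ ‖y‖ := Rem_abs y l
    have hxy : |x l - y l| ≤ (1 + ‖x‖) * (1 + ‖y‖) := by
      have h := abs_sub (x l) (y l)
      nlinarith [norm_nonneg x, norm_nonneg y, mul_nonneg (norm_nonneg x) (norm_nonneg y)]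
    have hy1 : |y l| ≤ 1 + ‖y‖ := by linarith
    have ht : 1 ≤ 1 + ‖y‖ := by linarith [norm_nonneg y]
    have h1 : |rem2 (P * X l) x y| ≤ |x l - y l| * |rem2 P x y| +
        |y l| * |∑ i, ∑ j, y i * y j * eval x (pderiv i (pderiv j P))| := by
      rw [Rem_remX]
      refine (abs_sub _ _).trans ?_
      rw [abs_mul, abs_mul, abs_mul]
      have h2 : |(1 / 2 : ℝ)| = 1 / 2 := abs_of_pos (by norm_num)
      rw [h2]
      have h3 : 0 ≤ |y l| * |∑ i, ∑ j, y i * y j * eval x (pderiv i (pderiv j P))| := by positivity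
      nlinarith
    have h2 := mul_le_mul_of_nonneg_left h1 (show 0 ≤ (1 + ‖x‖) ^ 3 by positivity)
    refine h2.trans ?_
    have h3 := mul_le_mul (d1 x y) hxy (abs_nonneg _) (by positivity)
    have h4 := mul_le_mul (Rem_D2 c1 x y) hy1 (abs_nonneg _) (by positivity)
    have h5 := mul_le_mul_of_nonneg_right h4 (show 0 ≤ 1 + ‖x‖ by positivity)
    have h6 : (d : ℝ) ^ 2 * ((1 + ‖y‖) ^ 2 * (K * (1 + ‖x‖) ^ m)) * (1 + ‖y‖) * (1 + ‖x‖) ≤
        (d : ℝ) ^ 2 * (K * (1 + ‖x‖) ^ (m + 1) * (1 + ‖y‖) ^ (m + 1 + 3)) := by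
      have h7 : (1 + ‖y‖) ^ 3 ≤ (1 + ‖y‖) ^ (m + 1 + 3) := pow_le_pow_right₀ ht (by omega)
      have h8 := mul_le_mul_of_nonneg_left h7 (show 0 ≤ (d : ℝ) ^ 2 * (K * (1 + ‖x‖) ^ (m + 1)) by positivity)
      calc (d : ℝ) ^ 2 * ((1 + ‖y‖) ^ 2 * (K * (1 + ‖x‖) ^ m)) * (1 + ‖y‖) * (1 + ‖x‖)
          = (d : ℝ) ^ 2 * (K * (1 + ‖x‖) ^ (m + 1)) * (1 + ‖y‖) ^ 3 := by ring
        _ ≤ _ := h8
        _ = _ := by ring
    have e3 : K * (1 + ‖x‖) ^ m * (1 + ‖y‖) ^ (m + 3) * ((1 + ‖x‖) * (1 + ‖y‖)) =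
        K * (1 + ‖x‖) ^ (m + 1) * (1 + ‖y‖) ^ (m + 1 + 3) := by ring
    rw [e3] at h3
    have h0 : 0 ≤ K * (1 + ‖x‖) ^ (m + 1) * (1 + ‖y‖) ^ (m + 1 + 3) := by positivity
    have e4 : (1 + ‖x‖) ^ 3 * (|x l - y l| * |rem2 P x y| +
        |y l| * |∑ i, ∑ j, y i * y j * eval x (pderiv i (pderiv j P))|) =
        (1 + ‖x‖) ^ 3 * |rem2 P x y| * |x l - y l| +
        (1 + ‖x‖) ^ 2 * |∑ i, ∑ j, y i * y j * eval x (pderiv i (pderiv j P))| * |y l| * (1 + ‖x‖) := by
      ring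
    rw [e4]
    have e5 : (3 + (d : ℝ) ^ 2) * K * (1 + ‖x‖) ^ (m + 1) * (1 + ‖y‖) ^ (m + 1 + 3) =
        3 * (K * (1 + ‖x‖) ^ (m + 1) * (1 + ‖y‖) ^ (m + 1 + 3)) +
        (d : ℝ) ^ 2 * (K * (1 + ‖x‖) ^ (m + 1) * (1 + ‖y‖) ^ (m + 1 + 3)) := by ring
    rw [e5]
    linarith [h5.trans h6]

private theorem Rem_mono {d : ℕ} (n : ℕ) : ∀ α : Fin d →₀ ℕ, (α.sum fun _ e => e) = n →
    Rem_Bd (monomial α (1 : ℝ)) n := by
  induction n with
  | zero =>
    intro α hα
    have h : α = 0 := by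
      ext i
      rw [Finsupp.coe_zero, Pi.zero_apply]
      by_contra hi
      have hi' : i ∈ α.support := Finsupp.mem_support_iff.2 hi
      rw [Finsupp.sum, Finset.sum_eq_zero_iff] at hα
      exact hi (hα i hi')
    rw [h]
    exact Rem_one
  | succ n ih =>
    intro α hα
    have h : ∃ l, α l ≠ 0 := by
      by_contra hn
      push Not at hn
      have h0 : α = 0 := by
        ext i
        exact hn i
      rw [h0, Finsupp.sum_zero_index] at hα
      omega
    obtain ⟨l, hl⟩ := h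
    have e : α - Finsupp.single l 1 + Finsupp.single l 1 = α := Finsupp.sub_add_single_one_cancel hl
    have hs : ((α - Finsupp.single l 1 + Finsupp.single l 1).sum fun _ e => e) =
        ((α - Finsupp.single l 1).sum fun _ e => e) + 1 := by
      rw [Finsupp.sum_add_index' (fun _ => rfl) (fun _ _ _ => rfl), Finsupp.sum_single_index rfl]
    rw [e, hα] at hs
    have h1 := Rem_mulX (ih (α - Finsupp.single l 1) (by omega)) l
    have h2 : monomial (α - Finsupp.single l 1) (1 : ℝ) * X l = monomial α 1 := by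
      have h3 := monomial_add_single (R := ℝ) (s := α - Finsupp.single l 1) (n := l) (e := 1) (a := 1)
      rw [e, pow_one] at h3
      exact h3.symm
    rw [h2] at h1
    exact h1

private theorem Rem_all {d m : ℕ} {P : MvPolynomial (Fin d) ℝ} (hP : P.totalDegree ≤ m) : Rem_Bd P m := by
  rw [P.as_sum]
  refine Finset.sum_induction _ (fun Q => Rem_Bd Q m) (fun Q R => Rem_add) (Rem_zero m) fun α hα => ?_
  have h1 : (α.sum fun _ e => e) ≤ m := (le_totalDegree hα).trans hP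
  have h2 : monomial α (coeff α P) = C (coeff α P) * monomial α 1 := by
    rw [C_mul_monomial, mul_one]
  rw [h2]
  exact Rem_smul _ (Rem_le h1 (Rem_mono _ α rfl))

theorem eval_bound {d m : ℕ} {P : MvPolynomial (Fin d) ℝ} (hP : P.totalDegree ≤ m) :
    ∃ C : ℝ, 0 ≤ C ∧ ∀ x : Fin d → ℝ, |eval x P| ≤ C * (1 + ‖x‖) ^ m := by
  obtain ⟨K, hK, h, _⟩ := Rem_all hP
  exact ⟨K, hK, h⟩

theorem rem2_bound {d m : ℕ} {P : MvPolynomial (Fin d) ℝ} (hP : P.totalDegree ≤ m) :
    ∃ C : ℝ, 0 ≤ C ∧ ∀ x y : Fin d → ℝ,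
      (1 + ‖x‖) ^ 3 * |rem2 P x y| ≤ C * (1 + ‖x‖) ^ m * (1 + ‖y‖) ^ (m + 3) := by
  obtain ⟨K, hK, _, _, _, h⟩ := Rem_all hP
  exact ⟨K, hK, h⟩

end IPC
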