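import Pool.Agent.Lib.MP_25e40f_pr.F.Scl
import Pool.Agent.Lib.MP_25e40f_pr.F.Rem
import Pool.Agent.Lib.MP_25e40f_pr.F.Gau

/-!
# MP_25e40f_pr, stream F: constancy (job Cst, about 200 lines)

`harmonic_top`: for integer points `x` (write `x` also for the real point; `x - y` is the real point of the integer point `x - y`): subtract `eval x P = ∑' J y * eval x P` (`h1`) from `hq`:
`0 = ∑' y, J y * (eval (x - y) P - eval x P)` and insert the definition of `rem2` (all the sums converge absolutely: `|y i| ≤ ‖y‖`, moments up to `m + 3` of `J`):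
`0 = - ∑ i, (∑' J y y_i) ∂_i P(x) + (1/2) ∑ i, ∑ j (∑' J y y_i y_j) ∂_i ∂_j P(x) + ∑' J y * rem2 P x y = (σ/2) (ΔP)(x) + ∑' J y * rem2 P x y`.
So by `rem2_bound`: `(1+‖x‖)^3 |(ΔP)(x)| ≤ (2/|σ|) C M (1+‖x‖)^m`, `M = ∑' (1+‖y‖)^(m+3) |J y|`.  (`‖(x : real point)‖ = ‖x‖`: `Pi` norms of casts, `Int.norm_cast_real`.)
If `m ≤ 1`: `pderiv i (pderiv i T) = 0` for `T` homogeneous of degree `m ≤ 1`: the derivatives are homogeneous of degree `0` (`IsHomogeneous.pderiv`) so constants.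
If `m ≥ 2`, `T = homogeneousComponent m P`, `R = P - T` (`totalDegree R ≤ m - 1`, or expand `P` in its components).  `ΔT` is homogeneous of degree `m - 2` (`IsHomogeneous.pderiv`), `ΔR` has total degree `≤ m - 3`
(`totalDegree ≤ m - 1` and two derivatives; or sum of the `Δ` of the components `j < m`: homogeneous of degree `j - 2`), for an integer point `x ≠ 0`:
`(ΔT)(x) = (ΔP)(N x) / N^(m-2) - (ΔR)(N x) / N^(m-2)`; as `N → ∞` both terms tend to `0`: the first is at most `C (1 + N‖x‖)^m / ((1 + N‖x‖)^3 N^(m-2)) → 0` (use `N ≤ 1 + N‖x‖ ≤ 2 N ‖x‖` as `‖x‖ ≥ 1`),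
the second: components of lower degree.  So `ΔT` vanishes at all integer points `x ≠ 0`; at `x = 0` too (`m > 2`: homogeneous of positive degree; `m = 2`: it is a constant and there is an integer point `≠ 0` as `d ≥ 1`;
for `d = 0` everything is trivial), so `ΔT = 0` by `eq_zero_of_eval_int`.

`const_of_nonneg`: `q = eval P` on integer points, `P.totalDegree ≤ k` by `totalDegree_le_of_growth`.  Let `m = P.totalDegree`. If `m = 0`: `P = C c` (`totalDegree_eq_zero_iff_eq_C`): done.  If `m ≥ 1`: `T = homogeneousComponent m P ≠ 0`,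
`T ≥ 0` (`top_nonneg`), `ΔT = 0` (`harmonic_top` with this `m`; the moments of order `m + 3 ≤ k + 3`), `homog_harmonic_zero`: contradiction.
-/

set_option autoImplicit false

noncomputable section

open Finset MvPolynomial

namespace IPC

/-- the conditions on the kernel `J` of the limit equation: moments of order `N`, total mass one, first
moments zero, second moments `σ δ_ij` with `σ ≠ 0` -/
structure JKer (d N : ℕ) (J : (Fin d → ℤ) → ℝ) (σ : ℝ) : Prop where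
  mom : Summable fun y : Fin d → ℤ => (1 + ‖y‖) ^ N * |J y|
  one : ∑' y, J y = 1
  first : ∀ i, ∑' y : Fin d → ℤ, (y i : ℝ) * J y = 0
  second : ∀ i j, ∑' y : Fin d → ℤ, (y i : ℝ) * (y j : ℝ) * J y = if i = j then σ else 0
  pos : σ ≠ 0

private theorem Cst_comp {d : ℕ} (n : ℕ) (i : Fin d) (P : MvPolynomial (Fin d) ℝ) :
    homogeneousComponent n (pderiv i P) = pderiv i (homogeneousComponent (n + 1) P) := by
  ext s
  rw [coeff_homogeneousComponent, coeff_pderiv, coeff_pderiv, coeff_homogeneousComponent]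
  have h : (s + Finsupp.single i 1).degree = s.degree + 1 := by
    rw [map_add, Finsupp.degree_single]
  rw [h]
  by_cases hs : s.degree = n
  · rw [if_pos hs, if_pos (by omega)]
  · rw [if_neg hs, if_neg (by omega), zero_mul]

private theorem Cst_lap {d : ℕ} (n : ℕ) (P : MvPolynomial (Fin d) ℝ) :
    ∑ i, pderiv i (pderiv i (homogeneousComponent (n + 2) P)) =
      homogeneousComponent n (∑ i, pderiv i (pderiv i P)) := by
  rw [map_sum]
  refine Finset.sum_congr rfl fun i _ => ?_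
  rw [Cst_comp, Cst_comp]

private theorem Cst_lap_small {d m : ℕ} (hm : m ≤ 1) (P : MvPolynomial (Fin d) ℝ) :
    ∑ i, pderiv i (pderiv i (homogeneousComponent m P)) = 0 := by
  refine Finset.sum_eq_zero fun i _ => ?_
  ext s
  rw [coeff_pderiv, coeff_pderiv, coeff_homogeneousComponent, coeff_zero]
  have h : (s + Finsupp.single i 1 + Finsupp.single i 1).degree = s.degree + 2 := by
    rw [map_add, map_add, Finsupp.degree_single]
  rw [h, if_neg (by omega)]
  ring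

private theorem Cst_norm {d : ℕ} (x : Fin d → ℤ) : ‖(fun i => (x i : ℝ))‖ = ‖x‖ := by
  refine le_antisymm ?_ ?_
  · rw [pi_norm_le_iff_of_nonneg (norm_nonneg _)]
    intro i
    rw [Int.norm_cast_real]
    exact norm_le_pi_norm x i
  · rw [pi_norm_le_iff_of_nonneg (norm_nonneg _)]
    intro i
    rw [← Int.norm_cast_real]
    exact norm_le_pi_norm (fun i => (x i : ℝ)) i

private theorem Cst_abs_le {d : ℕ} (y : Fin d → ℤ) (i : Fin d) : |(y i : ℝ)| ≤ 1 + ‖y‖ := by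
  have h := norm_le_pi_norm y i
  rw [Int.norm_eq_abs] at h
  linarith

private theorem Cst_summable {d N : ℕ} {J : (Fin d → ℤ) → ℝ}
    (hJ : Summable fun y : Fin d → ℤ => (1 + ‖y‖) ^ N * |J y|) (f : (Fin d → ℤ) → ℝ) (K : ℝ)
    (hf : ∀ y, |f y| ≤ K * (1 + ‖y‖) ^ N) : Summable fun y => f y * J y := by
  refine Summable.of_norm_bounded (hJ.mul_left K) fun y => ?_
  rw [Real.norm_eq_abs, abs_mul, ← mul_assoc]
  exact mul_le_mul_of_nonneg_right (hf y) (abs_nonneg _)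

private theorem Cst_sum0 {d N : ℕ} {J : (Fin d → ℤ) → ℝ}
    (hJ : Summable fun y : Fin d → ℤ => (1 + ‖y‖) ^ N * |J y|) : Summable J := by
  have h := Cst_summable hJ (fun _ => 1) 1 (fun y => by
    have h1 : (1 : ℝ) ≤ 1 + ‖y‖ := by linarith [norm_nonneg y]
    have := one_le_pow₀ (n := N) h1
    simpa using this)
  simpa using h

private theorem Cst_sum1 {d N : ℕ} (hN : 1 ≤ N) {J : (Fin d → ℤ) → ℝ}
    (hJ : Summable fun y : Fin d → ℤ => (1 + ‖y‖) ^ N * |J y|) (i : Fin d) :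
    Summable fun y : Fin d → ℤ => (y i : ℝ) * J y := by
  refine Cst_summable hJ (fun y => (y i : ℝ)) 1 fun y => ?_
  have h1 : (1 : ℝ) ≤ 1 + ‖y‖ := by linarith [norm_nonneg y]
  have h2 := Cst_abs_le y i
  have h3 : (1 + ‖y‖) ^ 1 ≤ (1 + ‖y‖) ^ N := pow_le_pow_right₀ h1 hN
  rw [pow_one] at h3
  linarith

private theorem Cst_sum2 {d N : ℕ} (hN : 2 ≤ N) {J : (Fin d → ℤ) → ℝ}
    (hJ : Summable fun y : Fin d → ℤ => (1 + ‖y‖) ^ N * |J y|) (i j : Fin d) :
    Summable fun y : Fin d → ℤ => (y i : ℝ) * (y j : ℝ) * J y := by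
  refine Cst_summable hJ (fun y => (y i : ℝ) * (y j : ℝ)) 1 fun y => ?_
  have h1 : (1 : ℝ) ≤ 1 + ‖y‖ := by linarith [norm_nonneg y]
  have h3 : (1 + ‖y‖) ^ 2 ≤ (1 + ‖y‖) ^ N := pow_le_pow_right₀ h1 hN
  rw [abs_mul, one_mul]
  refine le_trans ?_ h3
  rw [sq]
  exact mul_le_mul (Cst_abs_le y i) (Cst_abs_le y j) (abs_nonneg _) (by linarith)

private theorem Cst_id {d m : ℕ} {J : (Fin d → ℤ) → ℝ} {σ : ℝ} (hJ : JKer d (m + 3) J σ)
    {P : MvPolynomial (Fin d) ℝ}
    (hq : ∀ x : Fin d → ℤ, eval (fun i => (x i : ℝ)) P =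
      ∑' y : Fin d → ℤ, J y * eval (fun i => ((x - y) i : ℝ)) P) (x : Fin d → ℤ)
    (hS : Summable fun y : Fin d → ℤ =>
      J y * rem2 P (fun i => (x i : ℝ)) (fun i => (y i : ℝ))) :
    eval (fun i => (x i : ℝ)) (∑ i, pderiv i (pderiv i P)) * (σ / 2) =
      - ∑' y : Fin d → ℤ, J y * rem2 P (fun i => (x i : ℝ)) (fun i => (y i : ℝ)) := by
  set xr : Fin d → ℝ := fun i => (x i : ℝ) with hxr
  have h1 : HasSum J 1 := by
    rw [← hJ.one]
    exact (Cst_sum0 hJ.mom).hasSum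
  have h2 : ∀ i, HasSum (fun y : Fin d → ℤ => (y i : ℝ) * J y) 0 := by
    intro i
    rw [← hJ.first i]
    exact (Cst_sum1 (by omega) hJ.mom i).hasSum
  have h3 : ∀ i j, HasSum (fun y : Fin d → ℤ => (y i : ℝ) * (y j : ℝ) * J y)
      (if i = j then σ else 0) := by
    intro i j
    rw [← hJ.second i j]
    exact (Cst_sum2 (by omega) hJ.mom i j).hasSum
  have h4 := ((hS.hasSum.add (h1.mul_right (eval xr P))).sub
    (hasSum_sum (s := (Finset.univ : Finset (Fin d)))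
      fun i _ => (h2 i).mul_right (eval xr (pderiv i P)))).add
    ((hasSum_sum (s := (Finset.univ : Finset (Fin d))) fun i _ =>
      hasSum_sum (s := (Finset.univ : Finset (Fin d))) fun j _ =>
        (h3 i j).mul_right (eval xr (pderiv i (pderiv j P)))).mul_left (1 / 2))
  have h5 : (fun y : Fin d → ℤ => J y * eval (fun i => ((x - y) i : ℝ)) P) =
      fun y : Fin d → ℤ => J y * rem2 P xr (fun i => (y i : ℝ)) + J y * eval xr P -
        ∑ i, (y i : ℝ) * J y * eval xr (pderiv i P) +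
        1 / 2 * ∑ i, ∑ j, (y i : ℝ) * (y j : ℝ) * J y * eval xr (pderiv i (pderiv j P)) := by
    funext y
    have e1 : (fun i => ((x - y) i : ℝ)) = xr - fun i => (y i : ℝ) := by
      funext i
      simp [hxr]
    have e2 : ∑ i, (y i : ℝ) * J y * eval xr (pderiv i P) =
        J y * ∑ i, (y i : ℝ) * eval xr (pderiv i P) := by
      rw [Finset.mul_sum]
      refine Finset.sum_congr rfl fun i _ => ?_
      ring
    have e3 : ∑ i, ∑ j, (y i : ℝ) * (y j : ℝ) * J y * eval xr (pderiv i (pderiv j P)) =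
        J y * ∑ i, ∑ j, (y i : ℝ) * (y j : ℝ) * eval xr (pderiv i (pderiv j P)) := by
      rw [Finset.mul_sum]
      refine Finset.sum_congr rfl fun i _ => ?_
      rw [Finset.mul_sum]
      refine Finset.sum_congr rfl fun j _ => ?_
      ring
    rw [e1, e2, e3]
    unfold rem2
    ring
  have h6 := hq x
  rw [h5] at h6
  rw [h4.tsum_eq] at h6
  have h7 : ∑ i : Fin d, ∑ j : Fin d, (if i = j then σ else 0) * eval xr (pderiv i (pderiv j P)) =
      σ * eval xr (∑ i, pderiv i (pderiv i P)) := by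
    rw [map_sum, Finset.mul_sum]
    refine Finset.sum_congr rfl fun i _ => ?_
    simp only [ite_mul, zero_mul, Finset.sum_ite_eq, Finset.mem_univ, if_true]
  rw [h7] at h6
  simp only [zero_mul, Finset.sum_const_zero, one_mul, sub_zero] at h6
  linarith

private theorem Cst_bound {d m : ℕ} {J : (Fin d → ℤ) → ℝ} {σ : ℝ} (hJ : JKer d (m + 3) J σ)
    {P : MvPolynomial (Fin d) ℝ} (hP : P.totalDegree ≤ m)
    (hq : ∀ x : Fin d → ℤ, eval (fun i => (x i : ℝ)) P =
      ∑' y : Fin d → ℤ, J y * eval (fun i => ((x - y) i : ℝ)) P) :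
    ∃ K : ℝ, 0 ≤ K ∧ ∀ x : Fin d → ℤ, (1 + ‖x‖) ^ 3 *
      |eval (fun i => (x i : ℝ)) (∑ i, pderiv i (pderiv i P))| ≤ K * (1 + ‖x‖) ^ m := by
  obtain ⟨C, hC, hrem⟩ := rem2_bound hP
  set M : ℝ := ∑' y : Fin d → ℤ, (1 + ‖y‖) ^ (m + 3) * |J y| with hM
  have hM0 : 0 ≤ M := tsum_nonneg fun y => by
    have : (0 : ℝ) ≤ 1 + ‖y‖ := by linarith [norm_nonneg y]
    positivity
  have hσ : 0 < |σ| := abs_pos.2 hJ.pos
  refine ⟨2 / |σ| * (C * M), by positivity, fun x => ?_⟩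
  have hx0 : (0 : ℝ) < 1 + ‖x‖ := by linarith [norm_nonneg x]
  have hb : ∀ y : Fin d → ℤ, |J y * rem2 P (fun i => (x i : ℝ)) (fun i => (y i : ℝ))| ≤
      C * (1 + ‖x‖) ^ m / (1 + ‖x‖) ^ 3 * ((1 + ‖y‖) ^ (m + 3) * |J y|) := by
    intro y
    have h := hrem (fun i => (x i : ℝ)) (fun i => (y i : ℝ))
    rw [Cst_norm, Cst_norm] at h
    have h' : |rem2 P (fun i => (x i : ℝ)) (fun i => (y i : ℝ))| ≤
        C * (1 + ‖x‖) ^ m / (1 + ‖x‖) ^ 3 * (1 + ‖y‖) ^ (m + 3) := by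
      rw [div_mul_eq_mul_div, le_div_iff₀ (by positivity)]
      linarith
    rw [abs_mul]
    calc |J y| * |rem2 P (fun i => (x i : ℝ)) (fun i => (y i : ℝ))|
        ≤ |J y| * (C * (1 + ‖x‖) ^ m / (1 + ‖x‖) ^ 3 * (1 + ‖y‖) ^ (m + 3)) :=
          mul_le_mul_of_nonneg_left h' (abs_nonneg _)
      _ = _ := by ring
  have hS : Summable fun y : Fin d → ℤ =>
      J y * rem2 P (fun i => (x i : ℝ)) (fun i => (y i : ℝ)) :=
    Summable.of_norm_bounded (hJ.mom.mul_left _) hb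
  have hid := Cst_id hJ hq x hS
  have hle : |∑' y : Fin d → ℤ, J y * rem2 P (fun i => (x i : ℝ)) (fun i => (y i : ℝ))| ≤
      C * (1 + ‖x‖) ^ m / (1 + ‖x‖) ^ 3 * M := by
    rw [hM, ← tsum_mul_left, ← Real.norm_eq_abs]
    exact tsum_of_norm_bounded
      (f := fun y : Fin d → ℤ => J y * rem2 P (fun i => (x i : ℝ)) (fun i => (y i : ℝ)))
      (hJ.mom.mul_left (C * (1 + ‖x‖) ^ m / (1 + ‖x‖) ^ 3)).hasSum
      (fun y => by rw [Real.norm_eq_abs]; exact hb y)
  have habs : |eval (fun i => (x i : ℝ)) (∑ i, pderiv i (pderiv i P))| * (|σ| / 2) ≤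
      C * (1 + ‖x‖) ^ m / (1 + ‖x‖) ^ 3 * M := by
    have h := congrArg abs hid
    rw [abs_neg, abs_mul, abs_div, abs_two] at h
    rw [h]
    exact hle
  have h3 : (0 : ℝ) < (1 + ‖x‖) ^ 3 := by positivity
  rw [div_mul_eq_mul_div, le_div_iff₀ h3] at habs
  have e : 2 / |σ| * (C * M) * (1 + ‖x‖) ^ m = (2 / |σ|) * (C * (1 + ‖x‖) ^ m * M) := by ring
  rw [e]
  have e2 : (1 + ‖x‖) ^ 3 * |eval (fun i => (x i : ℝ)) (∑ i, pderiv i (pderiv i P))| =
      (2 / |σ|) * (|eval (fun i => (x i : ℝ)) (∑ i, pderiv i (pderiv i P))| * (|σ| / 2) *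
        (1 + ‖x‖) ^ 3) := by
    field_simp
  rw [e2]
  exact mul_le_mul_of_nonneg_left habs (by positivity)

private theorem Cst_two {d : ℕ} {Q : MvPolynomial (Fin d) ℝ} {K : ℝ}
    (h : ∀ x : Fin d → ℤ, (1 + ‖x‖) ^ 3 * |eval (fun i => (x i : ℝ)) Q| ≤ K * (1 + ‖x‖) ^ 2)
    (i₀ : Fin d) : Q = 0 := by
  have hb : ∀ x : Fin d → ℤ, (1 + ‖x‖) * |eval (fun i => (x i : ℝ)) Q| ≤ K := by
    intro x
    have hx0 : (0 : ℝ) < 1 + ‖x‖ := by linarith [norm_nonneg x]
    have h1 := h x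
    have h2 : (0 : ℝ) < (1 + ‖x‖) ^ 2 := by positivity
    refine le_of_mul_le_mul_right ?_ h2
    calc (1 + ‖x‖) * |eval (fun i => (x i : ℝ)) Q| * (1 + ‖x‖) ^ 2
        = (1 + ‖x‖) ^ 3 * |eval (fun i => (x i : ℝ)) Q| := by ring
      _ ≤ K * (1 + ‖x‖) ^ 2 := h1
  have hdeg : Q.totalDegree ≤ 0 := by
    refine totalDegree_le_of_growth (C := K) fun x => ?_
    rw [pow_zero, mul_one]
    have h1 := hb x
    have h2 : (0 : ℝ) ≤ ‖x‖ := norm_nonneg x
    nlinarith [abs_nonneg (eval (fun i => (x i : ℝ)) Q)]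
  have hC := totalDegree_eq_zero_iff_eq_C.1 (Nat.le_zero.1 hdeg)
  set c := coeff 0 Q with hc
  have hc0 : c = 0 := by
    by_contra hne
    have hpos : 0 < |c| := abs_pos.2 hne
    obtain ⟨N, hN⟩ := exists_nat_gt (K / |c|)
    have h1 := hb (fun i => if i = i₀ then (N : ℤ) else 0)
    have h2 : (N : ℝ) ≤ ‖(fun i => if i = i₀ then (N : ℤ) else 0 : Fin d → ℤ)‖ := by
      have h3 := norm_le_pi_norm (fun i => if i = i₀ then (N : ℤ) else 0 : Fin d → ℤ) i₀
      simp only [if_true, Int.norm_eq_abs, Int.cast_natCast] at h3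
      rwa [abs_of_nonneg (Nat.cast_nonneg N)] at h3
    rw [hC, eval_C] at h1
    rw [div_lt_iff₀ hpos] at hN
    nlinarith
  rw [hC, hc0, C_0]

theorem harmonic_top {d m : ℕ} {J : (Fin d → ℤ) → ℝ} {σ : ℝ} (hJ : JKer d (m + 3) J σ)
    {P : MvPolynomial (Fin d) ℝ} (hP : P.totalDegree ≤ m)
    (hq : ∀ x : Fin d → ℤ, eval (fun i => (x i : ℝ)) P =
      ∑' y : Fin d → ℤ, J y * eval (fun i => ((x - y) i : ℝ)) P) :
    ∑ i, pderiv i (pderiv i (homogeneousComponent m P)) = 0 := by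
  rcases Nat.lt_or_ge 1 m with hm | hm
  swap
  · exact Cst_lap_small hm P
  obtain ⟨n, rfl⟩ : ∃ n, m = n + 2 := ⟨m - 2, by omega⟩
  rw [Cst_lap]
  obtain ⟨K, hK, hb⟩ := Cst_bound hJ hP hq
  rcases Nat.eq_zero_or_pos n with hn | hn
  · subst hn
    rcases Nat.eq_zero_or_pos d with hd | hd
    · subst hd
      simp
    · rw [Cst_two hb ⟨0, hd⟩, map_zero]
  · obtain ⟨l, rfl⟩ : ∃ l, n = l + 1 := ⟨n - 1, by omega⟩
    refine homogeneousComponent_eq_zero _ _ ?_
    refine Nat.lt_succ_of_le (totalDegree_le_of_growth (C := K) fun x => ?_)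
    have hx0 : (0 : ℝ) < 1 + ‖x‖ := by linarith [norm_nonneg x]
    have h3 : (0 : ℝ) < (1 + ‖x‖) ^ 3 := by positivity
    refine le_of_mul_le_mul_left ?_ h3
    calc (1 + ‖x‖) ^ 3 * |eval (fun i => (x i : ℝ)) (∑ i, pderiv i (pderiv i P))|
        ≤ K * (1 + ‖x‖) ^ (l + 1 + 2) := hb x
      _ = (1 + ‖x‖) ^ 3 * (K * (1 + ‖x‖) ^ l) := by ring

theorem const_of_nonneg {d k : ℕ} {J : (Fin d → ℤ) → ℝ} {σ : ℝ} (hJ : JKer d (k + 3) J σ)
    {q : (Fin d → ℤ) → ℝ} {C : ℝ} (h0 : ∀ x, 0 ≤ q x) (hg : ∀ x, |q x| ≤ C * (1 + ‖x‖) ^ k)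
    (hp : ∃ P : MvPolynomial (Fin d) ℝ, ∀ x : Fin d → ℤ, q x = eval (fun i => (x i : ℝ)) P)
    (hq : ∀ x : Fin d → ℤ, q x = ∑' y : Fin d → ℤ, J y * q (x - y)) : ∀ x, q x = q 0 := by
  obtain ⟨P, hP⟩ := hp
  have hk : P.totalDegree ≤ k := by
    refine totalDegree_le_of_growth (C := C) fun x => ?_
    rw [← hP x]
    exact hg x
  have hconst : P.totalDegree = 0 := by
    by_contra hne
    have hm : 1 ≤ P.totalDegree := Nat.one_le_iff_ne_zero.2 hne
    have hJ' : JKer d (P.totalDegree + 3) J σ := by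
      refine ⟨?_, hJ.one, hJ.first, hJ.second, hJ.pos⟩
      refine Summable.of_nonneg_of_le (fun y => ?_) (fun y => ?_) hJ.mom
      · have : (0 : ℝ) ≤ 1 + ‖y‖ := by linarith [norm_nonneg y]
        positivity
      · have h1 : (1 : ℝ) ≤ 1 + ‖y‖ := by linarith [norm_nonneg y]
        exact mul_le_mul_of_nonneg_right (pow_le_pow_right₀ h1 (by omega)) (abs_nonneg _)
    have hPne : P ≠ 0 := by
      rintro rfl
      exact hne totalDegree_zero
    have hT := homogeneousComponent_totalDegree_ne_zero hPne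
    refine hT (homog_harmonic_zero hm (homogeneousComponent_isHomogeneous _ _) ?_ ?_)
    · refine top_nonneg le_rfl fun x => ?_
      rw [← hP x]
      exact h0 x
    · refine harmonic_top hJ' le_rfl fun x => ?_
      rw [← hP x, hq x]
      refine tsum_congr fun y => ?_
      rw [hP (x - y)]
  have hC := totalDegree_eq_zero_iff_eq_C.1 hconst
  intro x
  rw [hP x, hP 0, hC, eval_C, eval_C]

end IPC
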