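import Pool.Agent.Lib.MP_25e40f_pr.F.Mom

/-!
# MP_25e40f_pr, stream F: decoupling of the size of the local cluster and of the connection to `v` (job Dec, about 150 lines)

`B' ⊆ D`, `x ∈ B'`, `B ⊆ B'`.  Event `A ω := lam ≤ szD B (ω ∩ ein B') x` (increasing).
`decouple`: for `ω ⊆ ein D` with `A ω` and `Conn ω x v`: let `X = B'.filter (fun a => Conn (ω ∩ ein B') x a)` (contains `x`; all the vertices connected to `x` in `ω ∩ ein B'` are in `B'`: `T.Conn_mem_ein'`).  `Conn_last_exit X`: `t ∈ X`,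
`Conn R t v`, `R = ω.filter (fun e => ¬ ∀ a ∈ e, a ∈ X)`.  Let `ω₁ = (ω ∩ ein B').filter (fun e => ∀ a ∈ e, a ∈ X)`: disjoint from `R`; connections from `x` in `ω ∩ ein B'` stay in `X` and use only edges of `ω₁` (`Conn_closed` type induction), so
`szD B (ω₁ ∩ ein B') x = szD B (ω ∩ ein B') x` and `A ω₁`.  So the event is contained in `∃ t ∈ B', Box A (fun ω => Conn ω t v)`; `Pr_exists_le`, `bk` (`p ≤ 1/2`), and
`Pr p (ein D) A = Pr p (ein B') (fun ω => lam ≤ szD B ω x)` (`Pr_restrict`, `T.ein_mono`; `(ω ∩ ein B') ∩ ein B' = ω ∩ ein B'`).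
`sz_mom`: with `X = szD B (ω ∩ ein B') x ≤ #B`: pointwise `X^m * ind (Conn x v) ≤ lam^m * ind (Conn x v) + (#B)^m * ind (lam ≤ X ∧ Conn x v)` (`lam ≥ 0`), take expectations, `decouple`.
`sz_tail`: Markov: `lam^N * ind (lam ≤ Y) ≤ Y^N` for `lam ≥ 0`, `Y = szD B ω x ≤ szD B' ω x`; so `lam^N * Pr (lam ≤ Y) ≤ EE (szD B' ω x)^N`.
-/

set_option autoImplicit false

noncomputable section

open Finset
open scoped Classical

namespace IPC

variable {V : Type} [DecidableEq V]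

private theorem Dec_mono {B B' : Finset V} (hB : B ⊆ B') {ω ω' : Finset (Sym2 V)} {x : V}
    (h : ∀ y, Conn ω x y → Conn ω' x y) : szD B ω x ≤ szD B' ω' x := by
  unfold szD
  have h1 : (B.filter fun y => Conn ω x y) ⊆ B'.filter fun y => Conn ω' x y := by
    intro y hy
    rw [Finset.mem_filter] at hy ⊢
    exact ⟨hB hy.1, h y hy.2⟩
  exact_mod_cast Finset.card_le_card h1

private theorem Dec_nonneg (B : Finset V) (ω : Finset (Sym2 V)) (x : V) : 0 ≤ szD B ω x := Nat.cast_nonneg _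

private theorem Dec_card (B : Finset V) (ω : Finset (Sym2 V)) (x : V) : szD B ω x ≤ B.card := by
  unfold szD
  exact_mod_cast Finset.card_le_card (Finset.filter_subset _ _)

theorem decouple (G : PG V) {p : ℝ} (h0 : 0 ≤ p) (h1 : p ≤ 1 / 2) {B B' D : Finset V} (hB : B' ⊆ D)
    {x v : V} (hx : x ∈ B') (lam : ℝ) :
    Pr p (G.ein D) (fun ω => lam ≤ szD B (ω ∩ G.ein B') x ∧ Conn ω x v) ≤
      Pr p (G.ein B') (fun ω => lam ≤ szD B ω x) * ∑ t ∈ B', G.tauD p D t v := by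
  have hp1 : p ≤ 1 := by linarith
  have hA : Inc (fun ω : Finset (Sym2 V) => lam ≤ szD B (ω ∩ G.ein B') x) := by
    intro ω ω' h h2
    exact h2.trans (Dec_mono (Finset.Subset.refl B) fun y hy =>
      Conn_mono (Finset.inter_subset_inter_right h) hy)
  have hAB : Pr p (G.ein D) (fun ω => lam ≤ szD B (ω ∩ G.ein B') x) =
      Pr p (G.ein B') (fun ω => lam ≤ szD B ω x) := by
    rw [Pr_restrict p (T.ein_mono G hB) (fun ω => lam ≤ szD B (ω ∩ G.ein B') x) (fun ω _ => by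
      rw [Finset.inter_assoc, Finset.inter_self])]
    refine Pr_congr p _ fun ω hω => ?_
    rw [Finset.inter_eq_left.2 hω]
  have hstep : ∀ ω, ω ⊆ G.ein D → (lam ≤ szD B (ω ∩ G.ein B') x ∧ Conn ω x v) →
      ∃ t ∈ B', Box (fun ω => lam ≤ szD B (ω ∩ G.ein B') x) (fun ω => Conn ω t v) ω := by
    rintro ω hω ⟨hl, hc⟩
    obtain ⟨X, hX⟩ : ∃ X : Finset V, ∀ a, a ∈ X ↔ a ∈ B' ∧ Conn (ω ∩ G.ein B') x a :=
      ⟨B'.filter fun a => Conn (ω ∩ G.ein B') x a, fun a => Finset.mem_filter⟩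
    have hxX : x ∈ X := (hX x).2 ⟨hx, Conn_refl _ _⟩
    obtain ⟨t, ht, hR⟩ := Conn_last_exit X hxX hc
    refine ⟨t, ((hX t).1 ht).1, (ω ∩ G.ein B').filter (fun e => ∀ a ∈ e, a ∈ X), _, ?_, ?_, ?_, ?_, hR⟩
    · exact (Finset.filter_subset _ _).trans Finset.inter_subset_left
    · exact Finset.filter_subset _ _
    · rw [Finset.disjoint_left]
      intro e he he'
      exact (Finset.mem_filter.1 he').2 (Finset.mem_filter.1 he).2
    · refine hl.trans (Dec_mono (Finset.Subset.refl B) fun y hy => ?_)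
      unfold Conn at hy
      induction hy with
      | refl => exact Conn_refl _ _
      | @tail b c hb hbc ih =>
        refine Relation.ReflTransGen.tail ih ?_
        have hE : s(b, c) ∈ G.ein B' := (Finset.mem_inter.1 hbc).2
        obtain ⟨_, hbB, hcB⟩ := (T.mem_ein G).1 hE
        have hbX : b ∈ X := (hX b).2 ⟨hbB, hb⟩
        have hcX : c ∈ X := (hX c).2 ⟨hcB, Relation.ReflTransGen.tail hb hbc⟩
        refine Finset.mem_inter.2 ⟨Finset.mem_filter.2 ⟨hbc, fun a ha => ?_⟩, hE⟩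
        rcases Sym2.mem_iff.1 ha with rfl | rfl
        · exact hbX
        · exact hcX
  calc Pr p (G.ein D) (fun ω => lam ≤ szD B (ω ∩ G.ein B') x ∧ Conn ω x v)
      ≤ Pr p (G.ein D) (fun ω => ∃ t ∈ B',
          Box (fun ω => lam ≤ szD B (ω ∩ G.ein B') x) (fun ω => Conn ω t v) ω) :=
        Pr_mono h0 hp1 _ hstep
    _ ≤ ∑ t ∈ B', Pr p (G.ein D)
          (Box (fun ω => lam ≤ szD B (ω ∩ G.ein B') x) (fun ω => Conn ω t v)) :=
        Pr_exists_le h0 hp1 _ _ fun t => Box (fun ω => lam ≤ szD B (ω ∩ G.ein B') x) (fun ω => Conn ω t v)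
    _ ≤ ∑ t ∈ B', Pr p (G.ein D) (fun ω => lam ≤ szD B (ω ∩ G.ein B') x) * G.tauD p D t v :=
        Finset.sum_le_sum fun t _ => bk h0 h1 _ _ _ hA (Conn_inc t v)
    _ = Pr p (G.ein B') (fun ω => lam ≤ szD B ω x) * ∑ t ∈ B', G.tauD p D t v := by
        rw [Finset.mul_sum, hAB]

theorem sz_tail (G : PG V) {p : ℝ} (h0 : 0 ≤ p) (h1 : p ≤ 1) {B B' : Finset V} (hB : B ⊆ B') (x : V)
    {lam : ℝ} (hl : 0 ≤ lam) (N : ℕ) :
    lam ^ N * Pr p (G.ein B') (fun ω => lam ≤ szD B ω x) ≤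
      EE p (G.ein B') (fun ω => szD B' ω x ^ N) := by
  unfold Pr
  rw [← EE_const_mul]
  refine EE_mono h0 h1 _ fun ω _ => ?_
  by_cases h : lam ≤ szD B ω x
  · rw [ind_of h, mul_one]
    exact pow_le_pow_left₀ hl (h.trans (Dec_mono hB fun y hy => hy)) N
  · rw [ind_not h, mul_zero]
    exact pow_nonneg (Dec_nonneg _ _ _) N

theorem sz_mom (G : PG V) {p : ℝ} (h0 : 0 ≤ p) (h1 : p ≤ 1 / 2) {B B' D : Finset V} (hB : B' ⊆ D)
    {x v : V} (hx : x ∈ B') {lam : ℝ} (hl : 0 ≤ lam) (m : ℕ) :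
    EE p (G.ein D) (fun ω => szD B (ω ∩ G.ein B') x ^ m * ind (Conn ω x v)) ≤
      lam ^ m * G.tauD p D x v + (B.card : ℝ) ^ m *
        (Pr p (G.ein B') (fun ω => lam ≤ szD B ω x) * ∑ t ∈ B', G.tauD p D t v) := by
  have hp1 : p ≤ 1 := by linarith
  have hc : (0 : ℝ) ≤ (B.card : ℝ) ^ m := by positivity
  calc EE p (G.ein D) (fun ω => szD B (ω ∩ G.ein B') x ^ m * ind (Conn ω x v))
      ≤ EE p (G.ein D) (fun ω => lam ^ m * ind (Conn ω x v) +
          (B.card : ℝ) ^ m * ind (lam ≤ szD B (ω ∩ G.ein B') x ∧ Conn ω x v)) := by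
        refine EE_mono h0 hp1 _ fun ω _ => ?_
        by_cases hC : Conn ω x v
        · rw [ind_of hC, mul_one, mul_one]
          by_cases h : lam ≤ szD B (ω ∩ G.ein B') x
          · rw [ind_of (And.intro h hC), mul_one]
            have h2 := pow_le_pow_left₀ (Dec_nonneg B (ω ∩ G.ein B') x) (Dec_card B (ω ∩ G.ein B') x) m
            have h3 : 0 ≤ lam ^ m := pow_nonneg hl m
            linarith
          · rw [ind_not (fun h2 : lam ≤ szD B (ω ∩ G.ein B') x ∧ Conn ω x v => h h2.1), mul_zero, add_zero]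
            exact pow_le_pow_left₀ (Dec_nonneg _ _ _) (not_le.1 h).le m
        · rw [ind_not hC, ind_not (fun h2 : lam ≤ szD B (ω ∩ G.ein B') x ∧ Conn ω x v => hC h2.2)]
          simp
    _ = lam ^ m * G.tauD p D x v + (B.card : ℝ) ^ m *
          Pr p (G.ein D) (fun ω => lam ≤ szD B (ω ∩ G.ein B') x ∧ Conn ω x v) := by
        rw [EE_add, EE_const_mul, EE_const_mul]
        rfl
    _ ≤ _ := by
        have h2 := mul_le_mul_of_nonneg_left (decouple G h0 h1 (B := B) hB (v := v) hx lam) hc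
        linarith

end IPC
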