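import Pool.Agent.Lib.MP_25e40f_pr.F.Dp
import Pool.Agent.Lib.MP_25e40f_pr.B.Idn
import Pool.Agent.Lib.MP_25e40f_pr.C.EHit
import Pool.Agent.Lib.MP_25e40f_pr.C.ESta

/-!
# MP_25e40f_pr, stream F: deterministic localisation of the expansion (job Det, about 190 lines)

`conn_in`: restrict the edges: `Conn_of_closed` for `ω₁` and `E₁ = ω₁.filter (fun e => ∀ a ∈ e, a ∈ S)` (`ω₁ ∩ E₁ = E₁`; by induction everything connected to `s` in `ω₁` is in `S`: `Conn_closed`).
`OL_two` / `OL_four`: from `Occ_witness` for the list (`OL L = Occ (L.map ..)`), lists of length 2, 4: the witnesses `W = [w₁, w₂]`, resp. `[w₀, w₁, w₂, w₃]`, are pairwise disjoint subsets of `ω` with `Conn (wᵢ ∩ E) ..` (`Ln`), hence `Conn wᵢ ..`.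
`ep_two`: `Adm` gives two cases.  `A = univ`: `CE.EP_start` with `E = ω` (`hE := Subset.refl`), `F ⊆ Λ_r`.  `F = {w}`, `A ⊆ Λ_r`: `CE.EP_lines` with `E = ω`: disjoint `w₀ : w → z`, `w₁ : z → a`, `w₂ : a → u`, `w₃ : z → u`, `a ∈ A`:
take `s = w`, `ω₁ = w₀ ∪ w₃`, `s' = a`, `ω₂ = w₂`.
`det_EP`: `ep_two` for `u = v`: `BadE` with `y = v ∉ Λ_{r1}`.
`det_GD`: `b = s(u, u')`, `u = q.1`, `u' = q.2`, `ω_b = ω.erase b`, `S = Cl ω_b F`; `hG : b ∈ ω`, `EP ω_b A F u`, `ConnOff ω_b S u' v`.  `S` is closed under the edges of `ω_b`; `F ⊆ S`; `u ∈ S` (`EP.1.1 f`, `f ∈ F`, `AllConn`).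
  `lam = insert b (off ω_b S)`: `Conn lam u v`.  `lam ⊆ ω`.  If `ω' ⊆ ω_b` and all the edges of `ω'` have both endpoints in `S`, then `Disjoint ω' lam` (`b ∉ ω_b`; an edge in `off ω_b S` has no endpoint in `S`; induct with `Sym2.ind` to get an endpoint).
  (i) `u ∉ Λ_{r1}`: `ep_two` in `ω_b`: `s, s', ω₁, ω₂`; `s, s' ∈ S` (connected to `u ∈ S` in `ω_b`).  `ω₁' , ω₂'` = restrictions to the edges inside `S` (`conn_in`).  `BadE r0 r1`: `ω₁' ∪ lam : s → u → v`, `ω₂' : s' → u`.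
  (ii) `u ∈ Λ_{r1}`.  `f ∈ F`, `exists_trail` for `Conn ω_b f u`: `γ ⊆ ω_b`, `Trail γ f u`; all the edges of `γ` are inside `S` (`Trail_touched`: `t ∈ VV γ → Conn γ f t`).  Suppose some `t ∈ VV γ` is not in `Λ_{r2}`: `Trail_split`: `γ₁ : f → t`.  `BadE r1 r2`: `s = u`, `lam : u → v`,
    `s' = f ∈ Λ_{r0} ⊆ Λ_{r1}`, `γ₁`, `y = t`.
  (iii) `u ∈ Λ_{r1}`, `VV γ ⊆ Λ_{r2}`: let `X = insert f (insert u (VV γ)) ⊆ Λ_{r2}`.  `y ∈ S`, `y ∉ Λ_{r3}`; `Conn ω_b f y` (`f → u → f' → y`).  `Conn_last_exit X`: `t ∈ X`, `R = ω_b.filter (¬ ∀ a ∈ e, a ∈ X)`, `Conn R t y`; `R' = R.filter (inside S)`, `Conn R' t y` (`conn_in`, `t ∈ S`),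
    `Disjoint R' γ` (the edges of `γ` are inside `VV γ ⊆ X`), `Disjoint R' lam`.  `BadE r2 r3`: `s = f`, `γ ∪ lam : f → u → v`, `s' = t`, `R' : t → y`.
-/

set_option autoImplicit false

noncomputable section

open Finset
open scoped Classical

namespace IPC

variable {d : ℕ}

/-- admissible start sets and through sets -/
def Adm (d r : ℕ) (F : Finset (Fin d → ℤ)) (A : Set (Fin d → ℤ)) : Prop :=
  F.Nonempty ∧ F ⊆ (Zg d).Lam r ∧
    (A = Set.univ ∨ ((∃ w, F = {w}) ∧ A ⊆ ((Zg d).Lam r : Set (Fin d → ℤ))))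

theorem conn_in {V : Type} [DecidableEq V] {ω ω₁ : Finset (Sym2 V)} {S : Set V} {s t : V}
    (h1 : ω₁ ⊆ ω) (hS : ∀ a b, s(a, b) ∈ ω → a ∈ S → b ∈ S) (hs : s ∈ S) (h : Conn ω₁ s t) :
    Conn (ω₁.filter fun e => ∀ a ∈ e, a ∈ S) s t := by
  have key : ∀ a b, s(a, b) ∈ ω₁ → a ∈ S → b ∈ S ∧ s(a, b) ∈ ω₁.filter fun e => ∀ a ∈ e, a ∈ S := by
    intro a b hab ha
    have hb := hS a b (h1 hab) ha
    refine ⟨hb, Finset.mem_filter.mpr ⟨hab, fun c hc => ?_⟩⟩
    rcases Sym2.mem_iff.mp hc with rfl | rfl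
    · exact ha
    · exact hb
  exact (Conn_transfer S key hs h).1

theorem ep_two {r : ℕ} {F : Finset (Fin d → ℤ)} {A : Set (Fin d → ℤ)} (hA : Adm d r F A)
    {ω : Finset (Sym2 (Fin d → ℤ))} {u : Fin d → ℤ} (h : EP ω A F u) :
    ∃ s ∈ (Zg d).Lam r, ∃ s' ∈ (Zg d).Lam r, ∃ ω₁ ω₂, ω₁ ⊆ ω ∧ ω₂ ⊆ ω ∧ Disjoint ω₁ ω₂ ∧
      Conn ω₁ s u ∧ Conn ω₂ s' u := by
  obtain ⟨hF, hFr, hA | ⟨⟨w, rfl⟩, hAr⟩⟩ := hA
  · subst hA
    obtain ⟨f₁, hf₁, f₂, hf₂, hO⟩ := CE.EP_start (Finset.Subset.refl ω) hF h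
    obtain ⟨w₁, h1, p1, w₂, h2, p2, _⟩ := hO
    refine ⟨f₁, hFr hf₁, f₂, hFr hf₂, w₁, w₂, h1, h2.trans Finset.sdiff_subset, ?_,
      Conn_mono Finset.inter_subset_left p1, Conn_mono Finset.inter_subset_left p2⟩
    exact Finset.disjoint_of_subset_right h2 Finset.disjoint_sdiff
  · obtain ⟨z, a, ha, hO⟩ := CE.EP_lines (Finset.Subset.refl ω) h
    obtain ⟨w₀, h0, p0, w₁, h1, p1, w₂, h2, p2, w₃, h3, p3, _⟩ := hO
    have q0 : Conn w₀ w z := Conn_mono Finset.inter_subset_left p0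
    have q2 : Conn w₂ a u := Conn_mono Finset.inter_subset_left p2
    have q3 : Conn w₃ z u := Conn_mono Finset.inter_subset_left p3
    have s1 : (ω \ w₀) \ w₁ ⊆ ω := Finset.sdiff_subset.trans Finset.sdiff_subset
    have s2 : w₂ ⊆ ω := h2.trans s1
    have s3 : w₃ ⊆ ω := h3.trans (Finset.sdiff_subset.trans s1)
    refine ⟨w, hFr (Finset.mem_singleton_self w), a, hAr ha, w₀ ∪ w₃, w₂, Finset.union_subset h0 s3,
      s2, ?_, ?_, q2⟩
    · rw [Finset.disjoint_union_left]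
      constructor
      · exact Finset.disjoint_of_subset_right (h2.trans Finset.sdiff_subset) Finset.disjoint_sdiff
      · exact Finset.disjoint_of_subset_left h3 Finset.sdiff_disjoint
    · exact Conn_trans (Conn_mono Finset.subset_union_left q0) (Conn_mono Finset.subset_union_right q3)

theorem det_EP {r0 r1 : ℕ} {F : Finset (Fin d → ℤ)} {A : Set (Fin d → ℤ)} (hA : Adm d r0 F A)
    {v : Fin d → ℤ} (hv : v ∉ (Zg d).Lam r1) {ω : Finset (Sym2 (Fin d → ℤ))} (h : EP ω A F v) :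
    BadE d r0 r1 v ω := by
  obtain ⟨s, hs, s', hs', ω₁, ω₂, h1, h2, hd, c1, c2⟩ := ep_two hA h
  exact ⟨s, hs, s', hs', ω₁, ω₂, h1, h2, hd, c1, v, hv, c2⟩

theorem det_GD {r0 r1 r2 r3 : ℕ} (h01 : r0 ≤ r1) (h12 : r1 ≤ r2) {F : Finset (Fin d → ℤ)}
    {A : Set (Fin d → ℤ)} (hA : Adm d r0 F A) {v : Fin d → ℤ} {ω : Finset (Sym2 (Fin d → ℤ))}
    {q : (Fin d → ℤ) × (Fin d → ℤ)} (hG : GD ω A F v q)
    (hS : ¬ Cl (ω.erase s(q.1, q.2)) F ⊆ ((Zg d).Lam r3 : Set (Fin d → ℤ))) :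
    BadE d r0 r1 v ω ∨ BadE d r1 r2 v ω ∨ BadE d r2 r3 v ω := by
  obtain ⟨u, u'⟩ := q
  obtain ⟨hb, hEP, hoff⟩ := hG
  have hb : s(u, u') ∈ ω := hb
  have hEP : EP (ω.erase s(u, u')) A F u := hEP
  have hoff : ConnOff (ω.erase s(u, u')) (Cl (ω.erase s(u, u')) F) u' v := hoff
  have hS : ¬ Cl (ω.erase s(u, u')) F ⊆ ((Zg d).Lam r3 : Set (Fin d → ℤ)) := hS
  generalize hωb : ω.erase s(u, u') = ωb at hEP hoff hS
  have hbω : ωb ⊆ ω := by
    rw [← hωb]
    exact Finset.erase_subset _ _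
  have hbn : s(u, u') ∉ ωb := by
    rw [← hωb]
    exact Finset.notMem_erase _ _
  generalize hSdef : Cl ωb F = S at hoff hS
  have hScl : ∀ a b, s(a, b) ∈ ωb → a ∈ S → b ∈ S := by
    intro a b hab ha
    rw [← hSdef] at ha ⊢
    exact Cl_conn ha (Conn_edge hab)
  have hScn : ∀ a b, Conn ωb a b → a ∈ S → b ∈ S := by
    intro a b hab ha
    rw [← hSdef] at ha ⊢
    exact Cl_conn ha hab
  obtain ⟨hFne, hFr, _⟩ := id hA
  obtain ⟨f, hf⟩ := hFne
  have hfS : f ∈ S := by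
    rw [← hSdef]
    exact ⟨f, hf, Conn_refl _ _⟩
  have hfu : Conn ωb f u := hEP.1.1 f hf
  have huS : u ∈ S := hScn f u hfu hfS
  obtain ⟨lam, hlam⟩ : ∃ lam, lam = insert s(u, u') (off ωb S) := ⟨_, rfl⟩
  have hlamω : lam ⊆ ω := by
    rw [hlam]
    exact Finset.insert_subset hb ((Finset.filter_subset _ _).trans hbω)
  have hlamC : Conn lam u v := by
    rw [hlam]
    exact Conn_trans (Conn_edge (Finset.mem_insert_self _ _))
      (Conn_mono (Finset.subset_insert _ _) hoff.2)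
  have hdis : ∀ ω' : Finset (Sym2 (Fin d → ℤ)), ω' ⊆ ωb → (∀ e ∈ ω', ∀ a ∈ e, a ∈ S) →
      Disjoint ω' lam := by
    intro ω' h1 h2
    rw [Finset.disjoint_left]
    intro e he he'
    rw [hlam] at he'
    rcases Finset.mem_insert.mp he' with h3 | h3
    · exact hbn (h3 ▸ h1 he)
    · induction e using Sym2.ind with
      | _ a b => exact (mem_off'.mp h3).2.1 (h2 _ he a (Sym2.mem_mk_left a b))
  by_cases hu1 : u ∈ (Zg d).Lam r1
  · obtain ⟨γ, hγ, hγt⟩ := exists_trail hfu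
    have hγV : ∀ e ∈ γ, ∀ a ∈ e, a ∈ VV γ := by
      intro e he a ha
      obtain ⟨b, rfl⟩ := ha
      exact (mem_VV _ _).mpr ⟨b, he⟩
    have hγS : ∀ e ∈ γ, ∀ a ∈ e, a ∈ S := by
      intro e he a ha
      exact hScn f a (Conn_mono hγ (Trail_touched hγt (hγV e he a ha))) hfS
    have hγlam : Disjoint γ lam := hdis γ hγ hγS
    by_cases hV : ∀ t ∈ VV γ, t ∈ (Zg d).Lam r2
    · right
      right
      have hfX : f ∈ insert f (insert u (VV γ)) := Finset.mem_insert_self _ _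
      have hX : ∀ x ∈ insert f (insert u (VV γ)), x ∈ (Zg d).Lam r2 := by
        intro x hx
        rcases Finset.mem_insert.mp hx with hx | hx
        · rw [hx]
          exact Lam_le h12 (Lam_le h01 (hFr hf))
        · rcases Finset.mem_insert.mp hx with hx | hx
          · rw [hx]
            exact Lam_le h12 hu1
          · exact hV x hx
      have hVX : ∀ x ∈ VV γ, x ∈ insert f (insert u (VV γ)) := fun x hx =>
        Finset.mem_insert_of_mem (Finset.mem_insert_of_mem hx)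
      generalize insert f (insert u (VV γ)) = X at hfX hX hVX
      obtain ⟨y, hyS, hy3⟩ := Set.not_subset.mp hS
      have hfy : Conn ωb f y := by
        rw [← hSdef] at hyS
        obtain ⟨f', hf', hc⟩ := hyS
        exact Conn_trans hfu (Conn_trans (Conn_symm (hEP.1.1 f' hf')) hc)
      obtain ⟨t, ht, hR⟩ := Conn_last_exit X hfX hfy
      have hRb : (ωb.filter fun e => ¬ ∀ a ∈ e, a ∈ X) ⊆ ωb := Finset.filter_subset _ _
      have htS : t ∈ S := hScn y t (Conn_symm (Conn_mono (Finset.filter_subset _ _) hR)) hyS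
      have hR' := conn_in (Finset.filter_subset _ _) hScl htS hR
      refine ⟨f, hX f hfX, t, hX t ht, γ ∪ lam, _, ?_, ?_, ?_, ?_, y,
        fun h => hy3 (Finset.mem_coe.mpr h), hR'⟩
      · exact Finset.union_subset (hγ.trans hbω) hlamω
      · exact (Finset.filter_subset _ _).trans ((Finset.filter_subset _ _).trans hbω)
      · rw [Finset.disjoint_union_left]
        constructor
        · rw [Finset.disjoint_left]
          intro e he he'
          have h5 := (Finset.mem_filter.mp (Finset.mem_filter.mp he').1).2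
          exact h5 fun a ha => hVX a (hγV e he a ha)
        · refine (hdis _ ?_ ?_).symm
          · exact (Finset.filter_subset _ _).trans (Finset.filter_subset _ _)
          · intro e he
            exact (Finset.mem_filter.mp he).2
      · exact Conn_trans (Conn_mono Finset.subset_union_left (Trail_conn hγt))
          (Conn_mono Finset.subset_union_right hlamC)
    · right
      left
      push Not at hV
      obtain ⟨t, ht, ht2⟩ := hV
      obtain ⟨γ₁, γ₂, hd, hun, t1, t2⟩ := Trail_split hγt (Or.inr (Or.inr ht))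
      have hsub : γ₁ ⊆ γ := hun ▸ Finset.subset_union_left
      refine ⟨u, hu1, f, Lam_le h01 (hFr hf), lam, γ₁, hlamω, hsub.trans (hγ.trans hbω), ?_, hlamC, t,
        ht2, Trail_conn t1⟩
      exact (Finset.disjoint_of_subset_left hsub hγlam).symm
  · left
    obtain ⟨s, hs, s', hs', ω₁, ω₂, h1, h2, hd, c1, c2⟩ := ep_two hA hEP
    have hsS : s ∈ S := hScn u s (Conn_mono h1 (Conn_symm c1)) huS
    have hs'S : s' ∈ S := hScn u s' (Conn_mono h2 (Conn_symm c2)) huS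
    have d1 := conn_in h1 hScl hsS c1
    have d2 := conn_in h2 hScl hs'S c2
    refine ⟨s, hs, s', hs', _ ∪ lam, _, ?_, ?_, ?_,
      Conn_trans (Conn_mono Finset.subset_union_left d1) (Conn_mono Finset.subset_union_right hlamC),
      u, hu1, d2⟩
    · exact Finset.union_subset ((Finset.filter_subset _ _).trans (h1.trans hbω)) hlamω
    · exact (Finset.filter_subset _ _).trans (h2.trans hbω)
    · rw [Finset.disjoint_union_left]
      constructor
      · exact Finset.disjoint_of_subset_left (Finset.filter_subset _ _)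
          (Finset.disjoint_of_subset_right (Finset.filter_subset _ _) hd)
      · refine (hdis _ ((Finset.filter_subset _ _).trans h2) ?_).symm
        intro e he
        exact (Finset.mem_filter.mp he).2

end IPC
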