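import Pool.Agent.Lib.MP_25e40f_pr.B.Ela

/-!
# MP_25e40f_pr, stream F: from limits of finite sums to the one step identity in `ENNReal` (job Lse, about 120 lines)

Index set `κ = (V × V) × Finset V`, `a k = if k.1.2 ∈ G.nb k.1.1 then ofReal (cc p F A k.1 k.2) * ofReal (qq k.1.2 - et {k.1.2} k.2) else 0`, `fin r = (Λ_r ×ˢ Λ_{r+1}) ×ˢ Λ_r.powerset` (`G.nb x ⊆ Λ_{r+1}` for `x ∈ Λ_r` by `G.step`; monotone in `r`
(`Lam_mono'` of B/Loc), and every finite subset of `κ` is contained in some `fin r`: `tendsto_atTop_finset_of_monotone`, `G.cover`, `exists_Lam`).  `∑ k ∈ fin r, a k = ofReal (the finite real sum)` (all terms are `≥ 0`: `cc_nonneg`, `he`; `ENNReal.ofReal_sum_of_nonneg`,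
`ENNReal.ofReal_mul`, and the sum over `x2 ∈ Λ_{r+1}` of a term with `if x2 ∈ G.nb x` is the sum over `G.nb x`), which tends to `ofReal (et F A)` (`ENNReal.continuous_ofReal`).  Also `∑ k ∈ fin r, a k → ∑' k, a k` (`ENNReal.summable.hasSum.comp`).
So `ofReal (et F A) = ∑' k, a k = ∑' x, ∑' x2, if x2 ∈ G.nb x then ∑' S, ofReal (cc ..) * ofReal (qq x2 - et {x2} S) else 0` (`ENNReal.tsum_prod`).  Add `stepE` (`ENNReal.tsum_add`): `ofReal (qq - et) + ofReal et = ofReal qq` (`ENNReal.ofReal_add`, `he0`, `he`), so the left hand side is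
`∑' x, ∑' x2, if x2 ∈ G.nb x then (∑' S, ofReal (cc ..)) * ofReal (qq x2) else 0` (`ENNReal.tsum_mul_right`), `sum_cc` (B/Ela): `∑' S = ofReal p * ZZ 0 F A x`; the sum over `x2` is a finite sum over `G.nb x` (`tsum_eq_sum`), `= ZZ 0 F A x * ofReal (p * ∑ qq)`.
-/

set_option autoImplicit false

noncomputable section

open Finset Filter
open scoped Classical

namespace IPC

variable {V : Type} [DecidableEq V]

theorem lim_step (G : PG V) {p : ℝ} (h0 : 0 ≤ p) (h1 : p ≤ 1) (hN : G.NoPerc p) {F : Finset V}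
    (hF : F.Nonempty) (A : Set V) (et : Finset V → Set V → ℝ) (qq : V → ℝ)
    (he0 : ∀ (x : V) (S : Finset V), 0 ≤ et {x} (S : Set V))
    (he : ∀ (x : V) (S : Finset V), et {x} (S : Set V) ≤ qq x)
    (hlim : Tendsto (fun r => ∑ x ∈ G.Lam r, ∑ x2 ∈ G.nb x, ∑ S ∈ (G.Lam r).powerset,
      G.cc p F A (x, x2) S * (qq x2 - et {x2} (S : Set V))) atTop (nhds (et F A))) :
    ENNReal.ofReal (et F A) + stepE G p (fun F A => ENNReal.ofReal (et F A)) F A =
      ∑' u, ZZ G p 0 F A u * ENNReal.ofReal (p * ∑ v ∈ G.nb u, qq v) := by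
  obtain ⟨a, ha⟩ : ∃ a : (V × V) × Finset V → ENNReal, ∀ x x2 S, a ((x, x2), S) =
      if x2 ∈ G.nb x then ENNReal.ofReal (G.cc p F A (x, x2) S) *
        ENNReal.ofReal (qq x2 - et {x2} (S : Set V)) else 0 :=
    ⟨fun k => if k.1.2 ∈ G.nb k.1.1 then ENNReal.ofReal (G.cc p F A (k.1.1, k.1.2) k.2) *
        ENNReal.ofReal (qq k.1.2 - et {k.1.2} (k.2 : Set V)) else 0, fun _ _ _ => rfl⟩
  have hcc : ∀ q S, 0 ≤ G.cc p F A q S := fun q S => cc_nonneg G h0 h1 F A q S
  have hd : ∀ (x : V) (S : Finset V), 0 ≤ qq x - et {x} (S : Set V) := fun x S => sub_nonneg.2 (he x S)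
  have hq : ∀ x, 0 ≤ qq x := fun x => (he0 x ∅).trans (he x ∅)
  obtain ⟨fin, hfin⟩ : ∃ fin : ℕ → Finset ((V × V) × Finset V), ∀ r, fin r =
      (G.Lam r ×ˢ G.Lam (r + 1)) ×ˢ (G.Lam r).powerset := ⟨_, fun _ => rfl⟩
  have hmono : Monotone fin := by
    intro r s hrs
    rw [hfin, hfin]
    exact Finset.product_subset_product
      (Finset.product_subset_product (Lam_mono' G hrs) (Lam_mono' G (by omega)))
      (Finset.powerset_mono.2 (Lam_mono' G hrs))
  have hcov : ∀ k : (V × V) × Finset V, ∃ r, k ∈ fin r := by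
    rintro ⟨⟨x, x2⟩, S⟩
    obtain ⟨r, hr⟩ := exists_Lam G (insert x (insert x2 S))
    refine ⟨r, ?_⟩
    rw [hfin, Finset.mem_product, Finset.mem_product, Finset.mem_powerset]
    refine ⟨⟨hr (Finset.mem_insert_self _ _), ?_⟩, ?_⟩
    · exact Lam_mono' G (Nat.le_succ r)
        (hr (Finset.mem_insert_of_mem (Finset.mem_insert_self _ _)))
    · exact fun y hy => hr (Finset.mem_insert_of_mem (Finset.mem_insert_of_mem hy))
  have hT := tendsto_atTop_finset_of_monotone hmono hcov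
  have hL1 : Tendsto (fun r => ∑ k ∈ fin r, a k) atTop (nhds (∑' k, a k)) :=
    (ENNReal.summable (f := a)).hasSum.comp hT
  have hsum : ∀ r, ∑ k ∈ fin r, a k = ENNReal.ofReal (∑ x ∈ G.Lam r, ∑ x2 ∈ G.nb x,
      ∑ S ∈ (G.Lam r).powerset, G.cc p F A (x, x2) S * (qq x2 - et {x2} (S : Set V))) := by
    intro r
    rw [hfin, Finset.sum_product, Finset.sum_product,
      ENNReal.ofReal_sum_of_nonneg (fun x _ => Finset.sum_nonneg fun x2 _ =>
        Finset.sum_nonneg fun S _ => mul_nonneg (hcc _ _) (hd _ _))]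
    refine Finset.sum_congr rfl fun x hx => ?_
    rw [ENNReal.ofReal_sum_of_nonneg (fun x2 _ =>
        Finset.sum_nonneg fun S _ => mul_nonneg (hcc _ _) (hd _ _))]
    rw [← Finset.sum_subset (G.step r x hx) (fun x2 _ hx2 => Finset.sum_eq_zero fun S _ => by
      rw [ha, if_neg hx2])]
    refine Finset.sum_congr rfl fun x2 hx2 => ?_
    rw [ENNReal.ofReal_sum_of_nonneg (fun S _ => mul_nonneg (hcc _ _) (hd _ _))]
    refine Finset.sum_congr rfl fun S _ => ?_
    rw [ha, if_pos hx2, ENNReal.ofReal_mul (hcc _ _)]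
  have hL2 : Tendsto (fun r => ∑ k ∈ fin r, a k) atTop (nhds (ENNReal.ofReal (et F A))) := by
    simp only [hsum]
    exact (ENNReal.continuous_ofReal.tendsto _).comp hlim
  have hE : ENNReal.ofReal (et F A) = ∑' x, ∑' x2, ∑' S : Finset V, a ((x, x2), S) := by
    rw [tendsto_nhds_unique hL2 hL1, ENNReal.tsum_prod', ENNReal.tsum_prod']
  rw [hE]
  unfold stepE
  rw [← ENNReal.tsum_add]
  refine tsum_congr fun x => ?_
  rw [← ENNReal.tsum_add]
  have hterm : ∀ x2, ((∑' S : Finset V, a ((x, x2), S)) + if x2 ∈ G.nb x then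
      ∑' S : Finset V, ENNReal.ofReal (G.cc p F A (x, x2) S) *
        ENNReal.ofReal (et {x2} (S : Set V)) else 0) =
      if x2 ∈ G.nb x then ENNReal.ofReal p * ZZ G p 0 F A x * ENNReal.ofReal (qq x2) else 0 := by
    intro x2
    by_cases hx2 : x2 ∈ G.nb x
    · rw [if_pos hx2, if_pos hx2, ← ENNReal.tsum_add, ← sum_cc G h0 h1 hN hF A x x2,
        ← ENNReal.tsum_mul_right]
      refine tsum_congr fun S => ?_
      rw [ha, if_pos hx2, ← mul_add, ← ENNReal.ofReal_add (hd x2 S) (he0 x2 S), sub_add_cancel]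
    · rw [if_neg hx2, if_neg hx2, add_zero]
      have h2 : ∀ S : Finset V, a ((x, x2), S) = 0 := fun S => by rw [ha, if_neg hx2]
      simp only [h2, tsum_zero]
  rw [tsum_congr hterm, tsum_eq_sum (s := G.nb x) (fun x2 hx2 => if_neg hx2),
    ENNReal.ofReal_mul h0, ENNReal.ofReal_sum_of_nonneg (fun v _ => hq v), Finset.mul_sum,
    Finset.mul_sum]
  refine Finset.sum_congr rfl fun x2 hx2 => ?_
  rw [if_pos hx2]
  ring

end IPC
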