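import Pool.Agent.Lib.MP_25e40f_pr.F.Lim
import Pool.Agent.Lib.MP_25e40f_pr.F.Lse
import Pool.Agent.Lib.MP_25e40f_pr.B.Abr

/-!
# MP_25e40f_pr, stream F: the expansion of the limits of the ratios (job Eqa, about 110 lines)

`one_id`: `lim_step` (F/Lse) for `G = Zg d`, `et = et d p D v`, `qq = qq d p D v`, with `et_nonneg`, `et_le`, `et_step`.
`nb_norm`: `v ∈ (Zg d).nb u → ‖v‖ ≤ ‖u‖ + 1` (`mem_nbZ`, `pi_norm_le_iff_of_nonneg`, `norm_le_pi_norm`, `Function.update`), `((Zg d).nb u).card ≤ 2 d` (`Finset.card_image_le`, `Fintype.card_prod`, `Fintype.card_bool`).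
`wt_fin`: `ofReal (p ∑_{v ∈ nb u} qq v) ≤ ofReal (2 d C 2^k) * ofReal ((1+‖u‖)^k)` as `(1+‖v‖)^k ≤ (2 (1+‖u‖))^k`, `p ≤ 1`; `ENNReal.tsum_mul_left`.
`et_exp`: `iter_g` (B/Abr) with `T F A = ofReal (et F A)`, `h u = ofReal (p ∑_{v ∈ nb u} qq v)`, `𝒞 F A = ∃ r0, Adm d r0 F A`; `h𝒞`: `{x}`, `S` finite: `exists_Lam` (B/Arm) for `insert x S`; `hT` from `one_id`; for `(F, univ)`: `exists_Lam` for `F`.
`(ofReal a).toReal = a` for `a ≥ 0`; `∑' n, (-1)^n * (ZZ n F univ u).toReal = gF (Zg d) p F u` by `rfl`.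
-/

set_option autoImplicit false

noncomputable section

open Finset Filter
open scoped Classical

namespace IPC

variable {d : ℕ} {p C : ℝ} {k : ℕ} {D : ℕ → Finset (Fin d → ℤ)} {v : ℕ → Fin d → ℤ}

theorem nb_norm {u w : Fin d → ℤ} (h : w ∈ (Zg d).nb u) : ‖w‖ ≤ ‖u‖ + 1 := by
  change w ∈ nbZ d u at h
  rw [mem_nbZ] at h
  obtain ⟨i, s, hs, rfl⟩ := h
  rw [pi_norm_le_iff_of_nonneg (by positivity)]
  intro j
  by_cases hj : j = i
  · subst hj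
    rw [Function.update_self]
    have h1 : ‖s‖ = 1 := by
      rcases hs with rfl | rfl
      · exact norm_one
      · rw [norm_neg, norm_one]
    calc ‖u j + s‖ ≤ ‖u j‖ + ‖s‖ := norm_add_le _ _
      _ ≤ ‖u‖ + 1 := by rw [h1]; exact add_le_add_left (norm_le_pi_norm u j) 1
  · rw [Function.update_of_ne hj]
    exact (norm_le_pi_norm u j).trans (le_add_of_nonneg_right zero_le_one)

theorem nb_card (u : Fin d → ℤ) : ((Zg d).nb u).card ≤ 2 * d := by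
  change (nbZ d u).card ≤ 2 * d
  unfold nbZ
  refine Finset.card_image_le.trans ?_
  rw [Finset.card_univ, Fintype.card_prod, Fintype.card_fin, Fintype.card_bool, mul_comm]

theorem one_id (h0 : 0 < p) (h1 : p ≤ 1 / 2) (hN : (Zg d).NoPerc p) (hC : 0 ≤ C)
    (hG : Gro d p k C) (hS : Sq d p D v) {r0 : ℕ} {F : Finset (Fin d → ℤ)} {A : Set (Fin d → ℤ)}
    (hA : Adm d r0 F A) :
    ENNReal.ofReal (et d p D v F A) +
      stepE (Zg d) p (fun F A => ENNReal.ofReal (et d p D v F A)) F A =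
      ∑' u, ZZ (Zg d) p 0 F A u * ENNReal.ofReal (p * ∑ w ∈ (Zg d).nb u, qq d p D v w) :=
  lim_step (Zg d) h0.le (h1.trans (by norm_num)) hN hA.1 A (et d p D v) (qq d p D v)
    (fun x S => et_nonneg h0 h1 hC hG hS (Finset.singleton_nonempty x) (S : Set (Fin d → ℤ)))
    (fun x S => et_le h0 h1 hC hG hS (Finset.mem_singleton_self x) (S : Set (Fin d → ℤ)))
    (et_step h0 h1 hN hC hG hS hA)

/-- weighted summability of the coefficients of the expansion -/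
def Wsum (d : ℕ) (p : ℝ) (k : ℕ) : Prop := ∀ F : Finset (Fin d → ℤ), F.Nonempty →
  ∑' n, ∑' u, ENNReal.ofReal ((1 + ‖u‖) ^ k) * ZZ (Zg d) p n F Set.univ u ≠ ⊤

private theorem Eqa_bd (h0 : 0 < p) (h1 : p ≤ 1 / 2) (hC : 0 ≤ C) (hG : Gro d p k C)
    (hS : Sq d p D v) (u : Fin d → ℤ) :
    p * ∑ w ∈ (Zg d).nb u, qq d p D v w ≤ (2 * d * C * 2 ^ k) * (1 + ‖u‖) ^ k := by
  have h2 : ∑ w ∈ (Zg d).nb u, qq d p D v w ≤
      ∑ _w ∈ (Zg d).nb u, C * (2 * (1 + ‖u‖)) ^ k := by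
    refine Finset.sum_le_sum fun w hw => ?_
    refine (qq_bound h0 h1 hC hG hS w).trans ?_
    refine mul_le_mul_of_nonneg_left (pow_le_pow_left₀ (by positivity) ?_ k) hC
    have h3 := nb_norm hw
    have h4 : 0 ≤ ‖u‖ := norm_nonneg u
    linarith
  have h5 : 0 ≤ ∑ w ∈ (Zg d).nb u, qq d p D v w :=
    Finset.sum_nonneg fun w _ => qq_nonneg h0 h1 hC hG hS w
  have h6 : (((Zg d).nb u).card : ℝ) ≤ 2 * d := by
    exact_mod_cast nb_card u
  have h7 : 0 ≤ C * (2 * (1 + ‖u‖)) ^ k := mul_nonneg hC (by positivity)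
  rw [Finset.sum_const, nsmul_eq_mul] at h2
  calc p * ∑ w ∈ (Zg d).nb u, qq d p D v w ≤ 1 * ∑ w ∈ (Zg d).nb u, qq d p D v w :=
        mul_le_mul_of_nonneg_right (h1.trans (by norm_num)) h5
    _ = ∑ w ∈ (Zg d).nb u, qq d p D v w := one_mul _
    _ ≤ (((Zg d).nb u).card : ℝ) * (C * (2 * (1 + ‖u‖)) ^ k) := h2
    _ ≤ (2 * d) * (C * (2 * (1 + ‖u‖)) ^ k) := mul_le_mul_of_nonneg_right h6 h7
    _ = _ := by rw [mul_pow]; ring

theorem wt_fin (h0 : 0 < p) (h1 : p ≤ 1 / 2) (hC : 0 ≤ C) (hG : Gro d p k C) (hS : Sq d p D v)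
    (hW : Wsum d p k) {F : Finset (Fin d → ℤ)} (hF : F.Nonempty) :
    ∑' n, ∑' u, ZZ (Zg d) p n F Set.univ u *
      ENNReal.ofReal (p * ∑ w ∈ (Zg d).nb u, qq d p D v w) ≠ ⊤ := by
  have h2 : ∑' n, ∑' u, ZZ (Zg d) p n F Set.univ u *
      ENNReal.ofReal (p * ∑ w ∈ (Zg d).nb u, qq d p D v w) ≤
      ∑' n, ∑' u, ENNReal.ofReal (2 * d * C * 2 ^ k) *
        (ENNReal.ofReal ((1 + ‖u‖) ^ k) * ZZ (Zg d) p n F Set.univ u) := by
    refine ENNReal.tsum_le_tsum fun n => ENNReal.tsum_le_tsum fun u => ?_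
    have h3 : ENNReal.ofReal (p * ∑ w ∈ (Zg d).nb u, qq d p D v w) ≤
        ENNReal.ofReal (2 * d * C * 2 ^ k) * ENNReal.ofReal ((1 + ‖u‖) ^ k) := by
      rw [← ENNReal.ofReal_mul (by positivity)]
      exact ENNReal.ofReal_le_ofReal (Eqa_bd h0 h1 hC hG hS u)
    calc ZZ (Zg d) p n F Set.univ u * ENNReal.ofReal (p * ∑ w ∈ (Zg d).nb u, qq d p D v w)
        ≤ ZZ (Zg d) p n F Set.univ u *
          (ENNReal.ofReal (2 * d * C * 2 ^ k) * ENNReal.ofReal ((1 + ‖u‖) ^ k)) :=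
          mul_le_mul_right h3 _
      _ = _ := by ring
  have h4 : ∑' n, ∑' u, ENNReal.ofReal (2 * d * C * 2 ^ k) *
      (ENNReal.ofReal ((1 + ‖u‖) ^ k) * ZZ (Zg d) p n F Set.univ u) =
      ENNReal.ofReal (2 * d * C * 2 ^ k) *
        ∑' n, ∑' u, ENNReal.ofReal ((1 + ‖u‖) ^ k) * ZZ (Zg d) p n F Set.univ u := by
    rw [← ENNReal.tsum_mul_left]
    refine tsum_congr fun n => ?_
    rw [ENNReal.tsum_mul_left]
  rw [h4] at h2
  exact ne_top_of_le_ne_top (ENNReal.mul_ne_top ENNReal.ofReal_ne_top (hW F hF)) h2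

theorem et_exp (h0 : 0 < p) (h1 : p ≤ 1 / 2) (hN : (Zg d).NoPerc p) (hC : 0 ≤ C)
    (hG : Gro d p k C) (hS : Sq d p D v) (hW : Wsum d p k) {F : Finset (Fin d → ℤ)}
    (hF : F.Nonempty) :
    Summable (fun u => gF (Zg d) p F u * (p * ∑ w ∈ (Zg d).nb u, qq d p D v w)) ∧
      et d p D v F Set.univ = ∑' u, gF (Zg d) p F u * (p * ∑ w ∈ (Zg d).nb u, qq d p D v w) := by
  have h𝒞 : ∀ (x : Fin d → ℤ) (S : Finset (Fin d → ℤ)),
      ∃ r0, Adm d r0 {x} (S : Set (Fin d → ℤ)) := by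
    intro x S
    obtain ⟨r, hr⟩ := exists_Lam (Zg d) (insert x S)
    refine ⟨r, Finset.singleton_nonempty x, ?_, Or.inr ⟨⟨x, rfl⟩, ?_⟩⟩
    · rw [Finset.singleton_subset_iff]
      exact hr (Finset.mem_insert_self x S)
    · exact Finset.coe_subset.2 ((Finset.subset_insert x S).trans hr)
  have hT : ∀ (F : Finset (Fin d → ℤ)) (A : Set (Fin d → ℤ)), (∃ r0, Adm d r0 F A) →
      ENNReal.ofReal (et d p D v F A) +
        stepE (Zg d) p (fun F A => ENNReal.ofReal (et d p D v F A)) F A =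
        ∑' u, ZZ (Zg d) p 0 F A u *
          ENNReal.ofReal (p * ∑ w ∈ (Zg d).nb u, qq d p D v w) := by
    rintro F A ⟨r0, hA⟩
    exact one_id h0 h1 hN hC hG hS hA
  have hFA : ∃ r0, Adm d r0 F Set.univ := by
    obtain ⟨r, hr⟩ := exists_Lam (Zg d) F
    exact ⟨r, hF, hr, Or.inl rfl⟩
  have hq : ∀ u : Fin d → ℤ,
      (ENNReal.ofReal (p * ∑ w ∈ (Zg d).nb u, qq d p D v w)).toReal =
        p * ∑ w ∈ (Zg d).nb u, qq d p D v w := fun u =>
    ENNReal.toReal_ofReal (mul_nonneg h0.le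
      (Finset.sum_nonneg fun w _ => qq_nonneg h0 h1 hC hG hS w))
  obtain ⟨h2, h3⟩ := iter_g (Zg d) p (fun F A => ENNReal.ofReal (et d p D v F A))
    (fun u => ENNReal.ofReal (p * ∑ w ∈ (Zg d).nb u, qq d p D v w))
    (fun F A => ∃ r0, Adm d r0 F A) h𝒞 hT F Set.univ hFA (wt_fin h0 h1 hC hG hS hW hF)
  simp only [hq] at h2 h3
  rw [ENNReal.toReal_ofReal (et_nonneg h0 h1 hC hG hS hF Set.univ)] at h3
  exact ⟨h2, h3⟩

end IPC
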