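import Pool.Agent.Lib.MP_25e40f_pr.F.Eqa
import Pool.Agent.Lib.MP_25e40f_pr.B.Tau
import Pool.Agent.Lib.MP_25e40f_pr.B.Syb

/-!
# MP_25e40f_pr, stream F: the convolution equation for the limit of the ratios (job Eqb, about 190 lines)

`gz_trans`: `gg (Zg d) p x u = gg (Zg d) p 0 (u - x)`: `gg_auto` (B/Syb) for `φ = Equiv.addRight x` (or `Equiv.addLeft x`): `φ 0 = x`, `φ (u - x) = u`; `hφ`: `(Zg d).nb (y + x) = ((Zg d).nb y).image (· + x)` (`(Zg d).nb = nbZ d` by `rfl`, `mem_nbZ`; `ext`).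
`gz_neg`: `gg (Zg d) p 0 (-u) = gg (Zg d) p 0 u`: `gg_auto` for `φ = Equiv.neg _`, `(Zg d).nb (-y) = ((Zg d).nb y).image Neg.neg`.
`gz_sum`: `Summable (fun u => (1 + ‖u‖)^k * |gg (Zg d) p 0 u|)`: `gF_weight` (B/Tau) with `F = {0}`, `w u = ofReal ((1+‖u‖)^k)`, `Wsum`; from `∑' ofReal (..) ≠ ⊤` (`ENNReal.ofReal_mul`; `ENNReal.summable_toReal` or `summable_of_...`).
`nb_sub`: `w ∈ (Zg d).nb u ↔ w - u ∈ (Zg d).nb 0`; so `∑_{w ∈ nb u} f w = ∑_{e ∈ nb 0} f (u + e)` (`Finset.sum_nbij'`), and `e ∈ nb 0 ↔ -e ∈ nb 0`.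
`qq_eq`: `et_exp` for `F = {x}` (`et_univ`, `gF {x} = gg x` by `rfl`), `gz_trans`: `qq x = ∑' u, g (u - x) * (p * ∑_{e ∈ nb 0} qq (u + e)) = ∑_{e ∈ nb 0} ∑' u, p * g (u - x) * qq (u + e)` (each summable: `|g (u-x)| qq (u+e) ≤ |g (u-x)| C (1 + ‖u+e‖)^k` and
`1 + ‖u + e‖ ≤ (2 + ‖x‖) (1 + ‖u - x‖)`..., `gz_sum` composed with the shift `u = w + x`; `tsum_finsetSum`/`Summable.tsum_finsetSum`).  Substituting `u = x - y - e` (`Equiv.subLeft`, bijection `y ↦ x - y - e`):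
`= ∑_{e ∈ nb 0} ∑' y, p * g (-(y + e)) * qq (x - y) = ∑' y, (∑_{e ∈ nb 0} p * g (y + e)) * qq (x - y)` by `gz_neg`, and `∑_{e ∈ nb 0} p * g (y + e) = ∑_{u ∈ nb y} p * g u = Jf d p y`.
-/

set_option autoImplicit false

noncomputable section

open Finset Filter
open scoped Classical

namespace IPC

variable {d : ℕ} {p C : ℝ} {k : ℕ} {D : ℕ → Finset (Fin d → ℤ)} {v : ℕ → Fin d → ℤ}

/-- the kernel `P * g` -/
def Jf (d : ℕ) (p : ℝ) (y : Fin d → ℤ) : ℝ := ∑ u ∈ (Zg d).nb y, p * gg (Zg d) p 0 u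

private theorem Eqb_nb {u w : Fin d → ℤ} : w ∈ (Zg d).nb u ↔
    ∃ i : Fin d, ∃ s : ℤ, (s = 1 ∨ s = -1) ∧ w = u + Pi.single i s := by
  have h0 : ∀ (i : Fin d) (s : ℤ), Function.update u i (u i + s) = u + Pi.single i s := by
    intro i s
    funext j
    by_cases hj : j = i
    · subst hj
      rw [Function.update_self, Pi.add_apply, Pi.single_eq_same]
    · rw [Function.update_of_ne hj, Pi.add_apply, Pi.single_eq_of_ne hj, add_zero]
  have h1 : w ∈ (Zg d).nb u ↔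
      ∃ i : Fin d, ∃ s : ℤ, (s = 1 ∨ s = -1) ∧ w = Function.update u i (u i + s) := mem_nbZ d u w
  rw [h1]
  simp only [h0]

private theorem Eqb_sub {u w : Fin d → ℤ} : w ∈ (Zg d).nb u ↔ w - u ∈ (Zg d).nb 0 := by
  rw [Eqb_nb, Eqb_nb]
  constructor
  · rintro ⟨i, s, hs, rfl⟩
    exact ⟨i, s, hs, by abel⟩
  · rintro ⟨i, s, hs, h⟩
    refine ⟨i, s, hs, ?_⟩
    rw [zero_add] at h
    rw [← h]
    abel

private theorem Eqb_neg {e : Fin d → ℤ} : e ∈ (Zg d).nb 0 ↔ -e ∈ (Zg d).nb 0 := by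
  have h : ∀ e : Fin d → ℤ, e ∈ (Zg d).nb 0 → -e ∈ (Zg d).nb 0 := by
    intro e he
    rw [Eqb_nb] at he ⊢
    obtain ⟨i, s, hs, rfl⟩ := he
    refine ⟨i, -s, ?_, ?_⟩
    · rcases hs with rfl | rfl
      · exact Or.inr rfl
      · exact Or.inl (neg_neg 1)
    · rw [zero_add, zero_add, Pi.single_neg]
  refine ⟨h e, fun he => ?_⟩
  have h1 := h _ he
  rwa [neg_neg] at h1

theorem gz_trans (p : ℝ) (x u : Fin d → ℤ) : gg (Zg d) p x u = gg (Zg d) p 0 (u - x) := by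
  have hφ : ∀ y, (Zg d).nb (Equiv.addRight x y) = ((Zg d).nb y).image (Equiv.addRight x) := by
    intro y
    ext w
    rw [Finset.mem_image, Eqb_sub]
    constructor
    · intro h
      refine ⟨w - x, ?_, ?_⟩
      · rw [Eqb_sub]
        have e : w - x - y = w - (Equiv.addRight x) y := by
          show w - x - y = w - (y + x)
          abel
        rw [e]
        exact h
      · show w - x + x = w
        exact sub_add_cancel w x
    · rintro ⟨a, ha, rfl⟩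
      rw [Eqb_sub] at ha
      have e : (Equiv.addRight x) a - (Equiv.addRight x) y = a - y := by
        show (a + x) - (y + x) = a - y
        abel
      rw [e]
      exact ha
  have h1 : gg (Zg d) p (0 + x) (u - x + x) = gg (Zg d) p 0 (u - x) :=
    gg_auto (Zg d) p (Equiv.addRight x) hφ 0 (u - x)
  rw [zero_add, sub_add_cancel] at h1
  exact h1

theorem gz_neg (p : ℝ) (u : Fin d → ℤ) : gg (Zg d) p 0 (-u) = gg (Zg d) p 0 u := by
  have hφ : ∀ y, (Zg d).nb (Equiv.neg (Fin d → ℤ) y) =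
      ((Zg d).nb y).image (Equiv.neg (Fin d → ℤ)) := by
    intro y
    ext w
    rw [Finset.mem_image, Eqb_sub]
    constructor
    · intro h
      refine ⟨-w, ?_, ?_⟩
      · rw [Eqb_sub, Eqb_neg]
        have e : -(-w - y) = w - (Equiv.neg (Fin d → ℤ)) y := by
          show -(-w - y) = w - -y
          abel
        rw [e]
        exact h
      · exact neg_neg w
    · rintro ⟨a, ha, rfl⟩
      rw [Eqb_sub, Eqb_neg] at ha
      have e : (Equiv.neg (Fin d → ℤ)) a - (Equiv.neg (Fin d → ℤ)) y = -(a - y) := by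
        show -a - -y = -(a - y)
        abel
      rw [e]
      exact ha
  have h1 : gg (Zg d) p (-0) (-u) = gg (Zg d) p 0 u :=
    gg_auto (Zg d) p (Equiv.neg (Fin d → ℤ)) hφ 0 u
  rw [neg_zero] at h1
  exact h1

theorem nb_sub {u w : Fin d → ℤ} : w ∈ (Zg d).nb u ↔ w - u ∈ (Zg d).nb 0 := Eqb_sub

private theorem Eqb_sum (u : Fin d → ℤ) (f : (Fin d → ℤ) → ℝ) :
    ∑ w ∈ (Zg d).nb u, f w = ∑ e ∈ (Zg d).nb 0, f (u + e) := by
  refine Finset.sum_nbij' (fun w => w - u) (fun e => u + e) ?_ ?_ ?_ ?_ ?_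
  · intro w hw
    exact Eqb_sub.1 hw
  · intro e he
    rw [Eqb_sub, add_sub_cancel_left]
    exact he
  · intro w _
    exact add_sub_cancel u w
  · intro e _
    exact add_sub_cancel_left u e
  · intro w _
    rw [add_sub_cancel]

theorem gz_sum (hW : Wsum d p k) : Summable fun u : Fin d → ℤ => (1 + ‖u‖) ^ k * |gg (Zg d) p 0 u| := by
  have h1 := gF_weight (Zg d) p {0} (fun u => ENNReal.ofReal ((1 + ‖u‖) ^ k))
  have h2 := ne_top_of_le_ne_top (hW {0} (Finset.singleton_nonempty 0)) h1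
  have h3 := ENNReal.summable_toReal h2
  refine h3.congr fun u => ?_
  have h4 : (0 : ℝ) ≤ (1 + ‖u‖) ^ k := by positivity
  rw [← ENNReal.ofReal_mul h4, ENNReal.toReal_ofReal (mul_nonneg h4 (abs_nonneg _))]
  rfl

theorem qq_eq (h0 : 0 < p) (h1 : p ≤ 1 / 2) (hN : (Zg d).NoPerc p) (hC : 0 ≤ C)
    (hG : Gro d p k C) (hS : Sq d p D v) (hW : Wsum d p k) (x : Fin d → ℤ) :
    qq d p D v x = ∑' y, Jf d p y * qq d p D v (x - y) := by
  obtain ⟨q, hq⟩ : ∃ q : (Fin d → ℤ) → ℝ, q = qq d p D v := ⟨_, rfl⟩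
  obtain ⟨g, hg⟩ : ∃ g : (Fin d → ℤ) → ℝ, g = fun u => gg (Zg d) p 0 u := ⟨_, rfl⟩
  have hq0 : ∀ u, 0 ≤ q u := fun u => by
    rw [hq]
    exact qq_nonneg h0 h1 hC hG hS u
  have hqb : ∀ u, q u ≤ C * (1 + ‖u‖) ^ k := fun u => by
    rw [hq]
    exact qq_bound h0 h1 hC hG hS u
  have hgs : Summable fun u : Fin d → ℤ => (1 + ‖u‖) ^ k * |g u| := by
    rw [hg]
    exact gz_sum hW
  have hgn : ∀ u, g (-u) = g u := fun u => by
    rw [hg]
    exact gz_neg p u
  have hsum : ∀ e : Fin d → ℤ, Summable fun u => p * g (u - x) * q (u + e) := by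
    intro e
    have hs1 : Summable fun u : Fin d → ℤ => (1 + ‖u - x‖) ^ k * |g (u - x)| :=
      (Equiv.subRight x).summable_iff.2 hgs
    have hs2 := (hs1.mul_left (p * (C * (1 + ‖x + e‖) ^ k)))
    refine Summable.of_norm_bounded hs2 fun u => ?_
    have h2 : ‖u + e‖ ≤ ‖u - x‖ + ‖x + e‖ := by
      have e1 : u + e = (u - x) + (x + e) := by abel
      rw [e1]
      exact norm_add_le _ _
    have h3 : 1 + ‖u + e‖ ≤ (1 + ‖x + e‖) * (1 + ‖u - x‖) := by
      have h4 : 0 ≤ ‖x + e‖ * ‖u - x‖ := mul_nonneg (norm_nonneg _) (norm_nonneg _)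
      linarith
    have h5 : (1 + ‖u + e‖) ^ k ≤ (1 + ‖x + e‖) ^ k * (1 + ‖u - x‖) ^ k := by
      rw [← mul_pow]
      exact pow_le_pow_left₀ (by positivity) h3 k
    have h6 : q (u + e) ≤ C * ((1 + ‖x + e‖) ^ k * (1 + ‖u - x‖) ^ k) :=
      (hqb _).trans (mul_le_mul_of_nonneg_left h5 hC)
    rw [Real.norm_eq_abs, abs_mul, abs_mul, abs_of_pos h0, abs_of_nonneg (hq0 _)]
    calc p * |g (u - x)| * q (u + e)
        ≤ p * |g (u - x)| * (C * ((1 + ‖x + e‖) ^ k * (1 + ‖u - x‖) ^ k)) :=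
          mul_le_mul_of_nonneg_left h6 (mul_nonneg h0.le (abs_nonneg _))
      _ = p * (C * (1 + ‖x + e‖) ^ k) * ((1 + ‖u - x‖) ^ k * |g (u - x)|) := by ring
  have hre : ∀ e y : Fin d → ℤ,
      p * g ((Equiv.subLeft (x - e)) y - x) * q ((Equiv.subLeft (x - e)) y + e) =
        p * g (y + e) * q (x - y) := by
    intro e y
    have e1 : (Equiv.subLeft (x - e)) y - x = -(y + e) := by
      rw [Equiv.subLeft_apply]
      abel
    have e2 : (Equiv.subLeft (x - e)) y + e = x - y := by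
      rw [Equiv.subLeft_apply]
      abel
    rw [e1, e2, hgn]
  have hsum2 : ∀ e : Fin d → ℤ, Summable fun y => p * g (y + e) * q (x - y) := by
    intro e
    have h2 := (Equiv.subLeft (x - e)).summable_iff.2 (hsum e)
    exact h2.congr fun y => hre e y
  have hE := (et_exp h0 h1 hN hC hG hS hW (Finset.singleton_nonempty x)).2
  rw [et_univ] at hE
  calc qq d p D v x = ∑' u, gF (Zg d) p {x} u * (p * ∑ w ∈ (Zg d).nb u, qq d p D v w) := hE
    _ = ∑' u, ∑ e ∈ (Zg d).nb 0, p * g (u - x) * q (u + e) := by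
        refine tsum_congr fun u => ?_
        have h2 : gF (Zg d) p {x} u = g (u - x) := by
          rw [hg]
          exact gz_trans p x u
        rw [h2, Eqb_sum u, ← hq, Finset.mul_sum, Finset.mul_sum]
        refine Finset.sum_congr rfl fun e _ => ?_
        ring
    _ = ∑ e ∈ (Zg d).nb 0, ∑' u, p * g (u - x) * q (u + e) :=
        Summable.tsum_finsetSum fun e _ => hsum e
    _ = ∑ e ∈ (Zg d).nb 0, ∑' y, p * g (y + e) * q (x - y) := by
        refine Finset.sum_congr rfl fun e _ => ?_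
        rw [← (Equiv.subLeft (x - e)).tsum_eq]
        exact tsum_congr fun y => hre e y
    _ = ∑' y, ∑ e ∈ (Zg d).nb 0, p * g (y + e) * q (x - y) :=
        (Summable.tsum_finsetSum fun e _ => hsum2 e).symm
    _ = ∑' y, Jf d p y * qq d p D v (x - y) := by
        refine tsum_congr fun y => ?_
        rw [Jf, Eqb_sum y, Finset.sum_mul, hq, hg]

end IPC
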