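import Pool.Agent.Lib.MP_25e40f_pr.F.GrwA
import Pool.Agent.Lib.MP_25e40f_pr.F.Chn
import Pool.Agent.Lib.MP_25e40f_pr.T.Cross

/-!
# MP_25e40f_pr, stream F: the growth lemma, second part (job GrwB, about 180 lines)

`Q(y) = τ_D(y, v)`, `B = Λ_{n^21}`, `B' = Λ_{2 n^21}`.
`sum_le`: `n ≥ max(n₀, 2)`: `Λ_{2 n^20} ⊆ B` (`2 n^20 ≤ n^21`).  `six`: `c Q(y) ≤ (n^20)^(d-12) itau 5 0 y Q(y)` for `y ∈ Λ_{2 n^20}`; sum over `y`, extend the sum to `B` (nonnegative terms: `itau ≥ 0` by induction), `chain_harris` (`j = 5`, `x = 0`),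
`mom_six`: `∑_{y ∈ Λ_{2 n^20}} Q(y) ≤ c⁻¹ (n^20)^(d-12) C n^2898 Q(0)`.
`growth_box`: `u ∈ Λ_{n^20}`, `v ∉ Λ_{8 n^21}`: `T.crossing_vertex` with `S = {z | ‖z - u‖ < n^20}` and `Y = (Λ_{2 n^20}).filter (fun z => (n:ℝ)^20 ≤ ‖z - u‖)`: a neighbour `z ∉ S` of `y ∈ S` has `‖z‖ ≤ ‖y - u‖ + 1 + ‖u‖`, so `≤ 2 n^20`
(`‖y - u‖` is an integer `< n^20`; or work with the coordinates: `|z i| ≤ |z i - u i| + |u i|`).  `v ∉ S` since `‖v‖ > 8 n^21`.  For `z ∈ Y`: `τ_D(u,z) ≤ τ(u,z) ≤ C (1+n^20)^(-(d-10)) ≤ C (n^20)^(-(d-10))`.  So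
`Q(u) ≤ C (n^20)^(-(d-10)) ∑_{Λ_{2 n^20}} Q ≤ C' (n^20)^(-2) n^2898 Q(0) = C' n^2858 Q(0)`.
`growth`: let `n₁` be the threshold of `growth_box`, `n₁ ≥ 1`.  Given `u`: if `‖u‖ ≤ n₁^20` take `n = n₁`: bound `C' n₁^2858 Q(0)`.  Otherwise let `n` be the least natural number with `‖u‖ ≤ n^20` (`Nat.find`), `n > n₁ ≥ 1`, so `n ≥ 2`,
`(n-1)^20 < ‖u‖`, `n ≤ 2 (n-1)`: `n^2858 ≤ (n^20)^143 ≤ (2^20 (n-1)^20)^143 ≤ (2^20)^143 ‖u‖^143`.  `ρ = 8 n^21`.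
-/

set_option autoImplicit false

noncomputable section

open Finset
open scoped Classical

namespace IPC

variable {d : ℕ}

theorem itau_nonneg {p : ℝ} (h0 : 0 ≤ p) (h1 : p ≤ 1) (B B' : Finset (Fin d → ℤ)) (j : ℕ)
    (x y : Fin d → ℤ) : 0 ≤ itau d p B B' j x y := by
  induction j generalizing x with
  | zero => exact T.tauD_nonneg (Zg d) h0 h1 B' x y
  | succ j ih =>
    show 0 ≤ ∑ z ∈ B, (Zg d).tauD p B' x z * itau d p B B' j z y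
    exact Finset.sum_nonneg fun z _ => mul_nonneg (T.tauD_nonneg (Zg d) h0 h1 B' x z) (ih z)

private theorem GrwB_sum {p : ℝ} (H : GIn d p) : ∃ (C : ℝ) (n₁ : ℕ), 0 ≤ C ∧ 1 ≤ n₁ ∧ ∀ n ≥ n₁,
    ∀ (D : Finset (Fin d → ℤ)) (v : Fin d → ℤ), (Zg d).Lam (8 * n ^ 21) ⊆ D →
      ∑ y ∈ (Zg d).Lam (2 * n ^ 20), (Zg d).tauD p D y v ≤
        C * (((n : ℝ) ^ 20) ^ (d - 12) * (n : ℝ) ^ 2898 * (Zg d).tauD p D 0 v) := by
  obtain ⟨c, n₀, hc, h6⟩ := H.six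
  obtain ⟨C0, hC0, hm⟩ := mom_six H
  have hp0 : 0 ≤ p := H.p0.le
  have hp1 : p ≤ 1 := H.p1.trans (by norm_num)
  refine ⟨c⁻¹ * C0, max n₀ 2, by positivity, le_trans (by norm_num) (le_max_right _ _), ?_⟩
  intro n hn D v hD
  have hn0 : n₀ ≤ n := (le_max_left _ _).trans hn
  have hn2 : 2 ≤ n := (le_max_right _ _).trans hn
  have hsub : (Zg d).Lam (2 * n ^ 20) ⊆ (Zg d).Lam (n ^ 21) := by
    refine Lam_le ?_
    rw [pow_succ n 20, mul_comm]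
    exact Nat.mul_le_mul_left _ hn2
  have hB' : (Zg d).Lam (2 * n ^ 21) ⊆ D :=
    (Lam_le (Nat.mul_le_mul_right _ (by norm_num))).trans hD
  have hch := chain_harris hp0 hp1 (B := (Zg d).Lam (n ^ 21)) hB' v 5 0
  have hmo := hm n (by omega) D v hD
  have hQ : ∀ y, 0 ≤ (Zg d).tauD p D y v := fun y => T.tauD_nonneg (Zg d) hp0 hp1 D y v
  have h1 : c * ∑ y ∈ (Zg d).Lam (2 * n ^ 20), (Zg d).tauD p D y v ≤
      ((n : ℝ) ^ 20) ^ (d - 12) * ∑ y ∈ (Zg d).Lam (n ^ 21),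
        itau d p ((Zg d).Lam (n ^ 21)) ((Zg d).Lam (2 * n ^ 21)) 5 0 y * (Zg d).tauD p D y v := by
    rw [Finset.mul_sum, Finset.mul_sum]
    calc ∑ y ∈ (Zg d).Lam (2 * n ^ 20), c * (Zg d).tauD p D y v
        ≤ ∑ y ∈ (Zg d).Lam (2 * n ^ 20), ((n : ℝ) ^ 20) ^ (d - 12) *
          (itau d p ((Zg d).Lam (n ^ 21)) ((Zg d).Lam (2 * n ^ 21)) 5 0 y *
            (Zg d).tauD p D y v) := by
          refine Finset.sum_le_sum fun y hy => ?_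
          rw [← mul_assoc]
          exact mul_le_mul_of_nonneg_right (h6 n hn0 y hy) (hQ y)
      _ ≤ _ := Finset.sum_le_sum_of_subset_of_nonneg hsub fun y _ _ =>
          mul_nonneg (by positivity) (mul_nonneg (itau_nonneg hp0 hp1 _ _ 5 0 y) (hQ y))
  have h2 : c * ∑ y ∈ (Zg d).Lam (2 * n ^ 20), (Zg d).tauD p D y v ≤
      ((n : ℝ) ^ 20) ^ (d - 12) * (C0 * (n : ℝ) ^ 2898 * (Zg d).tauD p D 0 v) :=
    h1.trans (mul_le_mul_of_nonneg_left (hch.trans hmo) (by positivity))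
  refine le_of_mul_le_mul_left (a := c) (h2.trans (le_of_eq ?_)) hc
  have : c * (c⁻¹ * C0 * (((n : ℝ) ^ 20) ^ (d - 12) * (n : ℝ) ^ 2898 * (Zg d).tauD p D 0 v)) =
      (c * c⁻¹) * (C0 * (((n : ℝ) ^ 20) ^ (d - 12) * (n : ℝ) ^ 2898 * (Zg d).tauD p D 0 v)) := by
    ring
  rw [this, mul_inv_cancel₀ hc.ne']
  ring

theorem growth_box {p : ℝ} (H : GIn d p) : ∃ (C : ℝ) (n₁ : ℕ), 0 ≤ C ∧ 1 ≤ n₁ ∧ ∀ n ≥ n₁,
    ∀ (D : Finset (Fin d → ℤ)) (v : Fin d → ℤ), Deep d (8 * n ^ 21) D v →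
      ∀ u ∈ (Zg d).Lam (n ^ 20),
        (Zg d).tauD p D u v ≤ C * (n : ℝ) ^ 2858 * (Zg d).tauD p D 0 v := by
  obtain ⟨C1, n₁, hC1, hn₁, h1⟩ := GrwB_sum H
  obtain ⟨C2, hC2, h2⟩ := H.up
  have hp0 : 0 ≤ p := H.p0.le
  have hp1 : p ≤ 1 := H.p1.trans (by norm_num)
  refine ⟨C2 * C1, n₁, mul_nonneg hC2 hC1, hn₁, ?_⟩
  intro n hn D v hD u hu
  have hn1 : 1 ≤ n := hn₁.trans hn
  have hnR : (1 : ℝ) ≤ (n : ℝ) := by exact_mod_cast hn1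
  have hn20 : (1 : ℝ) ≤ (n : ℝ) ^ 20 := one_le_pow₀ hnR
  have hS := h1 n hn D v hD.sub
  have hu' : ‖u‖ ≤ (n : ℝ) ^ 20 := by
    have := mem_Lam_norm.1 hu
    exact_mod_cast this
  have hv' : 8 * (n : ℝ) ^ 21 < ‖v‖ := by
    have h := hD.out
    rw [mem_Lam_norm, not_le] at h
    exact_mod_cast h
  have h21 : (n : ℝ) ^ 20 ≤ (n : ℝ) ^ 21 := pow_le_pow_right₀ hnR (by norm_num)
  have hcr := T.crossing_vertex (Zg d) hp0 H.p1 (D := D)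
    (S := {z : Fin d → ℤ | ‖z - u‖ < (n : ℝ) ^ 20})
    (Y := ((Zg d).Lam (2 * n ^ 20)).filter (fun z => (n : ℝ) ^ 20 ≤ ‖z - u‖)) (u := u) (v := v)
    (by
      intro y hy _ z hz hzS _
      have hy' : ‖y - u‖ < (n : ℝ) ^ 20 := hy
      have hzS' : (n : ℝ) ^ 20 ≤ ‖z - u‖ := not_lt.1 hzS
      refine Finset.mem_filter.2 ⟨?_, hzS'⟩
      rw [mem_Lam]
      intro k
      have hyk : |y k - u k| < (n : ℤ) ^ 20 := by
        have h := (norm_le_pi_norm (y - u) k).trans_lt hy'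
        rw [Pi.sub_apply, Int.norm_eq_abs] at h
        exact_mod_cast h
      have huk := mem_Lam.1 hu k
      have hzk : |z k - y k| ≤ 1 := by
        obtain ⟨i, s, hs, rfl⟩ := (mem_nbZ d y z).1 hz
        by_cases hik : k = i
        · subst hik
          rw [Function.update_self]
          rcases hs with rfl | rfl <;> simp
        · rw [Function.update_of_ne hik]
          simp
      push_cast at huk ⊢
      rw [abs_le] at huk hzk ⊢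
      rw [abs_lt] at hyk
      constructor <;> linarith [huk.1, huk.2, hzk.1, hzk.2, hyk.1, hyk.2])
    (by
      show ‖u - u‖ < (n : ℝ) ^ 20
      rw [sub_self, norm_zero]
      linarith)
    (by
      intro h
      have h' : ‖v - u‖ < (n : ℝ) ^ 20 := h
      have := norm_sub_norm_le v u
      linarith)
  have hpw : ((n : ℝ) ^ 20) ^ (d - 10) = (((n : ℝ) ^ 20) ^ (d - 12) * (n : ℝ) ^ 40) := by
    have hd := H.dim
    obtain ⟨e, rfl⟩ := Nat.exists_eq_add_of_le hd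
    have e1 : 12 + e - 10 = e + 2 := by omega
    have e2 : 12 + e - 12 = e := by omega
    rw [e1, e2, pow_add]
    congr 1
    rw [← pow_mul]
  have hpos : 0 < ((n : ℝ) ^ 20) ^ (d - 12) * (n : ℝ) ^ 40 := by positivity
  have hkey : ((n : ℝ) ^ 20) ^ (d - 10) * (Zg d).tauD p D u v ≤
      C2 * ∑ z ∈ (Zg d).Lam (2 * n ^ 20), (Zg d).tauD p D z v := by
    calc ((n : ℝ) ^ 20) ^ (d - 10) * (Zg d).tauD p D u v
        ≤ ((n : ℝ) ^ 20) ^ (d - 10) *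
          ∑ z ∈ ((Zg d).Lam (2 * n ^ 20)).filter (fun z => (n : ℝ) ^ 20 ≤ ‖z - u‖),
            (Zg d).tauD p D u z * (Zg d).tauD p D z v :=
          mul_le_mul_of_nonneg_left hcr (by positivity)
      _ = ∑ z ∈ ((Zg d).Lam (2 * n ^ 20)).filter (fun z => (n : ℝ) ^ 20 ≤ ‖z - u‖),
            (((n : ℝ) ^ 20) ^ (d - 10) * (Zg d).tauD p D u z) * (Zg d).tauD p D z v := by
          rw [Finset.mul_sum]
          exact Finset.sum_congr rfl fun z _ => by ring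
      _ ≤ ∑ z ∈ ((Zg d).Lam (2 * n ^ 20)).filter (fun z => (n : ℝ) ^ 20 ≤ ‖z - u‖),
            C2 * (Zg d).tauD p D z v := by
          refine Finset.sum_le_sum fun z hz => ?_
          refine mul_le_mul_of_nonneg_right ?_ (T.tauD_nonneg (Zg d) hp0 hp1 D z v)
          have hz2 := (Finset.mem_filter.1 hz).2
          refine le_trans (mul_le_mul ?_ (T.tauD_le_tau (Zg d) hp0 hp1 D u z)
            (T.tauD_nonneg (Zg d) hp0 hp1 D u z) (by positivity)) (h2 u z)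
          exact pow_le_pow_left₀ (by positivity) (by linarith) _
      _ ≤ ∑ z ∈ (Zg d).Lam (2 * n ^ 20), C2 * (Zg d).tauD p D z v :=
          Finset.sum_le_sum_of_subset_of_nonneg (Finset.filter_subset _ _) fun z _ _ =>
            mul_nonneg hC2 (T.tauD_nonneg (Zg d) hp0 hp1 D z v)
      _ = C2 * ∑ z ∈ (Zg d).Lam (2 * n ^ 20), (Zg d).tauD p D z v := by rw [Finset.mul_sum]
  refine le_of_mul_le_mul_left (a := ((n : ℝ) ^ 20) ^ (d - 12) * (n : ℝ) ^ 40) ?_ hpos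
  rw [← hpw]
  refine hkey.trans ((mul_le_mul_of_nonneg_left hS hC2).trans (le_of_eq ?_))
  rw [hpw]
  have h40 : (n : ℝ) ^ 2898 = (n : ℝ) ^ 40 * (n : ℝ) ^ 2858 := by rw [← pow_add]
  rw [h40]
  ring

/-- the growth lemma -/
theorem growth {p : ℝ} (H : GIn d p) : ∃ C : ℝ, 0 ≤ C ∧ ∀ u : Fin d → ℤ, ∃ ρ : ℕ,
    ∀ (D : Finset (Fin d → ℤ)) (v : Fin d → ℤ), Deep d ρ D v →
      (Zg d).tauD p D u v ≤ C * (1 + ‖u‖) ^ 143 * (Zg d).tauD p D 0 v := by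
  obtain ⟨C, n₁, hC, hn₁, hb⟩ := growth_box H
  have hp0 : 0 ≤ p := H.p0.le
  have hp1 : p ≤ 1 := H.p1.trans (by norm_num)
  have hnR : (1 : ℝ) ≤ (n₁ : ℝ) := by exact_mod_cast hn₁
  refine ⟨C * ((n₁ : ℝ) ^ 2858 + ((2 : ℝ) ^ 20) ^ 143), by positivity, ?_⟩
  intro u
  have hN : ∃ n ≥ n₁, ‖u‖ ≤ (n : ℝ) ^ 20 ∧
      (n : ℝ) ^ 2858 ≤ ((n₁ : ℝ) ^ 2858 + ((2 : ℝ) ^ 20) ^ 143) * (1 + ‖u‖) ^ 143 := by
    have h1u : (1 : ℝ) ≤ (1 + ‖u‖) ^ 143 := one_le_pow₀ (by linarith [norm_nonneg u])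
    by_cases hu : ‖u‖ ≤ (n₁ : ℝ) ^ 20
    · refine ⟨n₁, le_refl _, hu, ?_⟩
      have h2 : (n₁ : ℝ) ^ 2858 ≤ (n₁ : ℝ) ^ 2858 + ((2 : ℝ) ^ 20) ^ 143 :=
        le_add_of_nonneg_right (by positivity)
      calc (n₁ : ℝ) ^ 2858 ≤ (n₁ : ℝ) ^ 2858 + ((2 : ℝ) ^ 20) ^ 143 := h2
        _ = ((n₁ : ℝ) ^ 2858 + ((2 : ℝ) ^ 20) ^ 143) * 1 := (mul_one _).symm
        _ ≤ _ := mul_le_mul_of_nonneg_left h1u (by positivity)
    · have hex : ∃ n : ℕ, ‖u‖ ≤ (n : ℝ) ^ 20 := by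
        obtain ⟨n, hn⟩ := exists_nat_ge ‖u‖
        refine ⟨n + 1, hn.trans ?_⟩
        have h1 : (1 : ℝ) ≤ ((n + 1 : ℕ) : ℝ) := by
          have : 1 ≤ n + 1 := by omega
          exact_mod_cast this
        calc (n : ℝ) ≤ ((n + 1 : ℕ) : ℝ) := by push_cast; linarith
          _ = ((n + 1 : ℕ) : ℝ) ^ 1 := (pow_one _).symm
          _ ≤ ((n + 1 : ℕ) : ℝ) ^ 20 := pow_le_pow_right₀ h1 (by norm_num)
      classical
      have hf := Nat.find_spec hex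
      have hmin : ∀ m, m < Nat.find hex → ¬ ‖u‖ ≤ (m : ℝ) ^ 20 := fun m hm => Nat.find_min hex hm
      generalize Nat.find hex = n at hf hmin
      have hlt : n₁ < n := by
        by_contra hle
        refine hu (hf.trans ?_)
        exact pow_le_pow_left₀ (Nat.cast_nonneg _) (by exact_mod_cast not_lt.1 hle) _
      refine ⟨n, hlt.le, hf, ?_⟩
      obtain ⟨m, rfl⟩ : ∃ m, n = m + 1 := ⟨n - 1, by omega⟩
      have hm1 : 1 ≤ m := by omega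
      have hmR : (1 : ℝ) ≤ (m : ℝ) := by exact_mod_cast hm1
      have hm := not_le.1 (hmin m (by omega))
      have hle : ((m + 1 : ℕ) : ℝ) ≤ 2 * (m : ℝ) := by push_cast; linarith
      have h1 : (1 : ℝ) ≤ ((m + 1 : ℕ) : ℝ) := by push_cast; linarith
      have e1 : ((m + 1 : ℕ) : ℝ) ^ 20 ≤ (2 : ℝ) ^ 20 * (1 + ‖u‖) := by
        calc ((m + 1 : ℕ) : ℝ) ^ 20 ≤ (2 * (m : ℝ)) ^ 20 := pow_le_pow_left₀ (by positivity) hle _
          _ = (2 : ℝ) ^ 20 * (m : ℝ) ^ 20 := mul_pow _ _ _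
          _ ≤ (2 : ℝ) ^ 20 * (1 + ‖u‖) :=
            mul_le_mul_of_nonneg_left (by linarith) (by positivity)
      calc ((m + 1 : ℕ) : ℝ) ^ 2858 ≤ ((m + 1 : ℕ) : ℝ) ^ (20 * 143) :=
            pow_le_pow_right₀ h1 (by norm_num)
        _ = (((m + 1 : ℕ) : ℝ) ^ 20) ^ 143 := pow_mul _ _ _
        _ ≤ ((2 : ℝ) ^ 20 * (1 + ‖u‖)) ^ 143 := pow_le_pow_left₀ (by positivity) e1 _
        _ = ((2 : ℝ) ^ 20) ^ 143 * (1 + ‖u‖) ^ 143 := mul_pow _ _ _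
        _ ≤ ((n₁ : ℝ) ^ 2858 + ((2 : ℝ) ^ 20) ^ 143) * (1 + ‖u‖) ^ 143 :=
            mul_le_mul_of_nonneg_right (le_add_of_nonneg_left (by positivity)) (by positivity)
  obtain ⟨n, hn, hun, hpow⟩ := hN
  refine ⟨8 * n ^ 21, ?_⟩
  intro D v hD
  have hul : u ∈ (Zg d).Lam (n ^ 20) := by
    rw [mem_Lam_norm]
    exact_mod_cast hun
  refine (hb n hn D v hD u hul).trans ?_
  refine mul_le_mul_of_nonneg_right ?_ (T.tauD_nonneg (Zg d) hp0 hp1 D 0 v)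
  rw [mul_assoc]
  exact mul_le_mul_of_nonneg_left hpow hC

end IPC
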