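import Pool.Agent.Lib.MP_25e40f_pr.F.Eqb
import Pool.Agent.Lib.MP_25e40f_pr.F.GrwB
import Pool.Agent.Lib.MP_25e40f_pr.Defs2
import Pool.Agent.Lib.MP_25e40f_pr.T.Inv

/-!
# MP_25e40f_pr, stream F: the robust IIC (T1) from the inputs (job Rob, about 160 lines)

`rob0`: `ι = ∑' u, gF (Zg d) p F u * (p * ((Zg d).nb u).card)`.  By contradiction (`by_contra`, `push_neg`): `ε > 0` such that for all `ρ` there are `D`, `v` with `Deep d ρ D v` and `ε τ_D(0,v) < |Pr(AllConn F v) - ι τ_D(0,v)|`; `choose D v hD hv`.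
`Sq d p D v`: `deep r`: for `n ≥ r` (`eventually_ge_atTop`, `Deep.mono`); `pos n`: `τ ≥ 0` (`T.tauD_nonneg`); if `τ = 0`, then `0 ≤ Pr(AllConn) ≤ τ = 0` (`0 ∈ F`, `T.allConn_le`), so `|0 - ι 0| = 0` and `ε 0 < 0` false.
`growth H.gin` gives `C` and `Gro d p 143 C`.  `q = qq d p D v` is `≥ 0`, `≤ C (1+‖x‖)^143`, solves the equation (`qq_eq`), so `q x = q 0 = 1` (`H.lio`, `qq_zero`).  `et_exp` for `F`: `et F univ = ι` (`simp` with `q w = 1`: `∑_{w ∈ nb u} 1 = card`).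
`et_all` and `et_lim`: `Pr(AllConn F (v n)) / t n → ι` along the hyperfilter, but `ε < |Pr / t n - ι|` for all `n` (divide by `t n > 0`): contradiction (`Metric.tendsto_nhds`, `Eventually.exists`, the hyperfilter is `NeBot`).
`box_zero`: `box 0 ρ = (Zg d).Lam ρ` (both are `piFinset` of `Icc (-ρ) ρ`).
`rob`: let `φ = Equiv.addLeft (-x)` (`y ↦ -x + y`), apply `rob0` to the domain `D.image φ` and the target `φ v`: `Deep d ρ (D.image φ) (φ v)` from `box x ρ ⊆ D` etc. (`box x ρ` is the translate of `Λ_ρ`);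
`T.tauD_iso`, `T.Pr_iso` (with `hnb : b ∈ nb a ↔ φ b ∈ nb (φ a)`): `τ_{φ D}(0, φ v) = τ_D(x, v)` (`φ x = 0`), `Pr (ein (φ D)) (AllConn ω F (φ v)) = Pr (ein D) (AllConn (ω.image (Sym2.map φ)) F (φ v))` and `F = (F.image (fun f => x + f)).image φ`, `T.AllConn_image` (T/Inv).
-/

set_option autoImplicit false

noncomputable section

open Finset Filter
open scoped Classical

namespace IPC

variable {d : ℕ}

/-- the inputs -/
structure FIn (d : ℕ) (p : ℝ) : Prop where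
  gin : GIn d p
  np : (Zg d).NoPerc p
  ws : Wsum d p 143
  lio : ∀ q : (Fin d → ℤ) → ℝ, (∀ x, 0 ≤ q x) → (∃ C : ℝ, 0 ≤ C ∧ ∀ x, q x ≤ C * (1 + ‖x‖) ^ 143) →
    (∀ x, q x = ∑' y, Jf d p y * q (x - y)) → ∀ x, q x = q 0

theorem rob0 {p : ℝ} (H : FIn d p) {F : Finset (Fin d → ℤ)} (hF : (0 : Fin d → ℤ) ∈ F) :
    ∃ ι : ℝ, ∀ ε : ℝ, 0 < ε → ∃ ρ : ℕ, ∀ (D : Finset (Fin d → ℤ)) (v : Fin d → ℤ),
      Deep d ρ D v → |Pr p ((Zg d).ein D) (fun ω => AllConn ω F v) - ι * (Zg d).tauD p D 0 v| ≤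
        ε * (Zg d).tauD p D 0 v := by
  obtain ⟨ι, hι⟩ : ∃ ι : ℝ, ι = ∑' u, gF (Zg d) p F u * (p * (((Zg d).nb u).card : ℝ)) := ⟨_, rfl⟩
  refine ⟨ι, ?_⟩
  by_contra hcon
  push Not at hcon
  obtain ⟨ε, hε, h⟩ := hcon
  choose D v hD hv using h
  have h0 := H.gin.p0
  have h1 := H.gin.p1
  have hp0 : 0 ≤ p := h0.le
  have hp1 : p ≤ 1 := h1.trans (by norm_num)
  have hpos : ∀ n, 0 < (Zg d).tauD p (D n) 0 (v n) := by
    intro n
    rcases (T.tauD_nonneg (Zg d) hp0 hp1 (D n) 0 (v n)).lt_or_eq with h2 | h2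
    · exact h2
    · exfalso
      have h3 := hv n
      have h4 := T.allConn_le (Zg d) hp0 hp1 (D n) hF (v n)
      have h5 : 0 ≤ Pr p ((Zg d).ein (D n)) (fun ω => AllConn ω F (v n)) :=
        Pr_nonneg hp0 hp1 _ _
      rw [← h2] at h3 h4
      have h6 : Pr p ((Zg d).ein (D n)) (fun ω => AllConn ω F (v n)) = 0 := le_antisymm h4 h5
      rw [h6] at h3
      simp at h3
  have hS : Sq d p D v :=
    ⟨fun r => (eventually_ge_atTop r).mono fun n hn => (hD n).mono hn, hpos⟩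
  obtain ⟨C, hC, hG⟩ := growth H.gin
  have hG' : Gro d p 143 C := hG
  have hq : ∀ x, qq d p D v x = 1 := by
    intro x
    rw [H.lio (qq d p D v) (fun x => qq_nonneg h0 h1 hC hG' hS x)
      ⟨C, hC, fun x => qq_bound h0 h1 hC hG' hS x⟩
      (fun x => qq_eq h0 h1 H.np hC hG' hS H.ws x) x, qq_zero hS]
  have hne : F.Nonempty := ⟨0, hF⟩
  have h2 := (et_exp h0 h1 H.np hC hG' hS H.ws hne).2
  have h3 : et d p D v F Set.univ = ι := by
    rw [h2, hι]
    refine tsum_congr fun u => ?_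
    rw [Finset.sum_congr rfl fun w _ => hq w, Finset.sum_const, nsmul_eq_mul, mul_one]
  have h4 := et_lim h0 h1 hC hG' hS hne Set.univ
  rw [h3] at h4
  obtain ⟨n, hn⟩ := (Metric.tendsto_nhds.1 h4 ε hε).exists
  have h5 : Pr p ((Zg d).ein (D n)) (fun ω => Thru ω Set.univ F (v n)) =
      Pr p ((Zg d).ein (D n)) (fun ω => AllConn ω F (v n)) :=
    Pr_congr p _ fun ω _ => T.thru_univ_iff
  rw [Real.dist_eq, h5] at hn
  have h7 := hv n
  have h8 := hpos n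
  have h9 : Pr p ((Zg d).ein (D n)) (fun ω => AllConn ω F (v n)) -
      ι * (Zg d).tauD p (D n) 0 (v n) =
      (Pr p ((Zg d).ein (D n)) (fun ω => AllConn ω F (v n)) / (Zg d).tauD p (D n) 0 (v n) - ι) *
        (Zg d).tauD p (D n) 0 (v n) := by
    rw [sub_mul, div_mul_cancel₀ _ h8.ne']
  rw [h9, abs_mul, abs_of_pos h8] at h7
  have h10 := lt_of_mul_lt_mul_right h7 h8.le
  exact lt_irrefl _ (h10.trans hn)

/-- membership in a box -/
private theorem rob_mem {x y : Fin d → ℤ} {r : ℕ} : y ∈ box x r ↔ -x + y ∈ (Zg d).Lam r := by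
  unfold box
  rw [mem_Lam, Fintype.mem_piFinset]
  refine forall_congr' fun i => ?_
  rw [Finset.mem_Icc, abs_le, Pi.add_apply, Pi.neg_apply]
  constructor
  · rintro ⟨h1, h2⟩
    constructor <;> linarith
  · rintro ⟨h1, h2⟩
    constructor <;> linarith

theorem box_zero (d ρ : ℕ) : box (0 : Fin d → ℤ) ρ = (Zg d).Lam ρ := by
  ext y
  rw [rob_mem, neg_zero, zero_add]

theorem rob {p : ℝ} (H : FIn d p) {F : Finset (Fin d → ℤ)} (hF : (0 : Fin d → ℤ) ∈ F) :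
    ∃ ι : ℝ, ∀ ε : ℝ, 0 < ε → ∃ ρ : ℕ,
  ∀ (D : Finset (Fin d → ℤ)) (v x : Fin d → ℤ), v ∈ D → box x ρ ⊆ D → v ∉ box x ρ →
    |Pr p ((Zg d).ein D) (fun ω => AllConn ω (F.image (fun f => x + f)) v) -
      ι * (Zg d).tauD p D x v| ≤ ε * (Zg d).tauD p D x v := by
  obtain ⟨ι, hι⟩ := rob0 H hF
  refine ⟨ι, fun ε hε => ?_⟩
  obtain ⟨ρ, hρ⟩ := hι ε hε
  refine ⟨ρ, fun D v x hv hx hvx => ?_⟩
  have hnb : ∀ a b : Fin d → ℤ, b ∈ (Zg d).nb a ↔
      Equiv.addLeft (-x) b ∈ (Zg d).nb (Equiv.addLeft (-x) a) := by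
    intro a b
    rw [nb_sub, nb_sub (u := Equiv.addLeft (-x) a), Equiv.coe_addLeft, add_sub_add_left_eq_sub]
  have hφx : Equiv.addLeft (-x) x = 0 := by
    rw [Equiv.coe_addLeft]
    exact neg_add_cancel x
  have hdeep : Deep d ρ (D.image (Equiv.addLeft (-x))) (Equiv.addLeft (-x) v) := by
    refine ⟨fun z hz => ?_, Finset.mem_image_of_mem _ hv, fun h => hvx (rob_mem.2 h)⟩
    rw [Finset.mem_image]
    refine ⟨x + z, hx (rob_mem.2 ?_), ?_⟩
    · rw [neg_add_cancel_left]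
      exact hz
    · rw [Equiv.coe_addLeft]
      exact neg_add_cancel_left x z
  have h := hρ _ _ hdeep
  have h2 : (Zg d).tauD p (D.image (Equiv.addLeft (-x))) 0 (Equiv.addLeft (-x) v) =
      (Zg d).tauD p D x v := by
    have h3 := T.tauD_iso (Zg d) (Zg d) p (Equiv.addLeft (-x)) hnb D x v
    rw [hφx] at h3
    exact h3
  have hFi : (F.image (fun f => x + f)).image (Equiv.addLeft (-x)) = F := by
    rw [Finset.image_image]
    have h4 : (Equiv.addLeft (-x) : (Fin d → ℤ) → (Fin d → ℤ)) ∘ (fun f => x + f) = id := by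
      funext f
      exact neg_add_cancel_left x f
    rw [h4, Finset.image_id]
  have h5 : Pr p ((Zg d).ein (D.image (Equiv.addLeft (-x))))
      (fun ω => AllConn ω F (Equiv.addLeft (-x) v)) =
      Pr p ((Zg d).ein D) (fun ω => AllConn ω (F.image (fun f => x + f)) v) := by
    rw [T.Pr_iso (Zg d) (Zg d) p (Equiv.addLeft (-x)) hnb D]
    refine Pr_congr p _ fun ω _ => ?_
    have h6 := T.AllConn_image (ω := ω) (Equiv.addLeft (-x)).injective
      (F := F.image (fun f => x + f)) (y := v)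
    rw [hFi] at h6
    exact h6
  rw [h2, h5] at h
  exact h

end IPC
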