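import Pool.Agent.Lib.MP_25e40f_pr.F.GrwA
import Pool.Agent.Lib.MP_25e40f_pr.F.Rob
import Pool.Agent.Lib.MP_25e40f_pr.E.ZFinC

/-!
# MP_25e40f_pr, stream F: the inputs of the growth lemma (job Gli)
-/

set_option autoImplicit false

noncomputable section

open Finset Filter
open scoped Classical

namespace IPC

open Fo

theorem nrm_norm {d : ℕ} (x : Fin d → ℤ) : ‖x‖ = (nrm x : ℝ) := by
  apply le_antisymm
  · rw [pi_norm_le_iff_of_nonneg (Nat.cast_nonneg _)]
    intro i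
    rw [Int.norm_eq_abs, ← Int.cast_abs, ← Nat.cast_natAbs]
    have h : (x i).natAbs ≤ nrm x :=
      Finset.le_sup (f := fun i => (x i).natAbs) (Finset.mem_univ i)
    exact_mod_cast h
  · by_cases hd : (Finset.univ : Finset (Fin d)).Nonempty
    · obtain ⟨i, _, hi⟩ := Finset.exists_mem_eq_sup _ hd (fun i => (x i).natAbs)
      have h1 : nrm x = (x i).natAbs := hi
      rw [h1]
      have h2 := norm_le_pi_norm x i
      rw [Int.norm_eq_abs, ← Int.cast_abs, ← Nat.cast_natAbs] at h2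
      exact_mod_cast h2
    · have h1 : nrm x = 0 := by
        unfold nrm
        rw [Finset.not_nonempty_iff_eq_empty.1 hd]
        rfl
      rw [h1]
      simpa using norm_nonneg x

theorem itau_chn (d : ℕ) (p : ℝ) (B B' : Finset (Fin d → ℤ)) (j : ℕ) (x y : Fin d → ℤ) :
    itau d p B B' j x y = chn ((Zg d).tauD p B') B j x y := by
  induction j generalizing x with
  | zero => rfl
  | succ j ih =>
    rw [chn_succ]
    show ∑ z ∈ B, (Zg d).tauD p B' x z * itau d p B B' j z y = _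
    exact Finset.sum_congr rfl fun z _ => by rw [ih]

theorem gin_of {d : ℕ} {q : ENNReal} {D : ℝ} (hE : DZ d q D)
    (hL : ∃ c : ℝ, 0 < c ∧ ∃ β : ℕ, ∀ (R : ℕ) (x y : Fin d → ℤ), 1 ≤ R → nrm (x - y) ≤ R →
      c * ((R : ℝ) ^ β)⁻¹ ≤ (Zg d).tauD (Zg d).pc (box x (4 * R)) x y) : GIn d (Zg d).pc := by
  have hd : 450 ≤ d := hE.dim
  have hp0 : 0 < (Zg d).pc := by
    refine lt_of_le_of_lt ?_ hE.lt
    positivity
  have hp1 : (Zg d).pc ≤ 1 / 2 := by
    have := hE.le
    linarith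
  refine ⟨hp0, hp1, by omega, ?_, ?_, ?_⟩
  · obtain ⟨c, hc, β, h⟩ := hL
    refine ⟨c, β, hc, fun R hR s hs => ?_⟩
    have h1 : nrm ((0 : Fin d → ℤ) - s) ≤ R := by
      rw [mem_Lam_norm] at hs
      have h2 : ((nrm ((0 : Fin d → ℤ) - s) : ℕ) : ℝ) ≤ R := by
        rw [← nrm_norm, zero_sub, norm_neg]
        exact hs
      exact_mod_cast h2
    have h2 := h R 0 s hR h1
    rw [box_zero] at h2
    have hR0 : (0 : ℝ) < (R : ℝ) ^ β := by
      have : (0 : ℝ) < R := by exact_mod_cast (by omega : 0 < R)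
      exact pow_pos this _
    calc c = (R : ℝ) ^ β * (c * ((R : ℝ) ^ β)⁻¹) := by
          field_simp
      _ ≤ _ := mul_le_mul_of_nonneg_left h2 hR0.le
  · obtain ⟨C, hC, h⟩ := decay_pc hE
    refine ⟨C, hC, fun x y => ?_⟩
    rw [tau_tr hp0.le (hp1.trans (by norm_num)) x y]
    exact h (y - x)
  · obtain ⟨c, hc, m₀, h⟩ := box_final hE
    refine ⟨c, m₀, hc, fun n hn y hy => ?_⟩
    rw [itau_chn]
    exact h n hn y hy

end IPC
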