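import Pool.Agent.Lib.MP_25e40f_pr.F.Dp
import Pool.Agent.Lib.MP_25e40f_pr.T.TauD

/-!
# MP_25e40f_pr, stream F: local Harnack inequality (job Hk, about 120 lines)

`tauD_box_ge`: claim, by induction on `n`: for all `s ∈ Λ_r` with `∑ i, (s i).natAbs = n`: `p ^ n ≤ τ_{Λ_r}(0, s)`.  `n = 0`: `s = 0`, `T.tauD_self`.  `n > 0`: some `s i ≠ 0`; `s' = Function.update s i (s i - sign (s i))` is in `Λ_r`
(`mem_Lam`), its sum is `n - 1`, `s ∈ (Zg d).nb s'` (`mem_nbZ`; `(Zg d).nb = nbZ d` by `rfl`); `T.tauD_trans`, `T.tauD_nb`.  And `n ≤ d * r`, `pow_le_pow_of_le_one`.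
`harnack_gen`: `c ≤ τ_B(0, s)`, `B ⊆ D`: `c τ_D(s, v) ≤ τ_D(0, s) τ_D(s, v) ≤ τ_D(0, v)` (`T.tauD_mono_D`, `T.tauD_trans`).
`harnack`: both.   `harnack'` the other direction (`T.tauD_symm`): `p^(d r) τ_D(0, v) ≤ τ_D(s, v)`.
-/

set_option autoImplicit false

noncomputable section

open Finset
open scoped Classical

namespace IPC

variable {d : ℕ}

private theorem Hk_aux {p : ℝ} (h0 : 0 ≤ p) (h1 : p ≤ 1) {r : ℕ} : ∀ (n : ℕ) (s : Fin d → ℤ),
    s ∈ (Zg d).Lam r → ∑ i, (s i).natAbs = n → p ^ n ≤ (Zg d).tauD p ((Zg d).Lam r) 0 s := by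
  intro n
  induction n with
  | zero =>
    intro s _ hsum
    have hs0 : s = 0 := by
      funext i
      have h := (Finset.sum_eq_zero_iff.1 hsum) i (Finset.mem_univ i)
      exact Int.natAbs_eq_zero.1 h
    rw [hs0, pow_zero, T.tauD_self]
  | succ n ih =>
    intro s hs hsum
    have hex : ∃ i, s i ≠ 0 := by
      by_contra hcon
      push Not at hcon
      have : ∑ i, (s i).natAbs = 0 := Finset.sum_eq_zero fun i _ => by rw [hcon i]; rfl
      omega
    obtain ⟨i, hi⟩ := hex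
    obtain ⟨σ, hσ, hnat⟩ : ∃ σ : ℤ, (σ = 1 ∨ σ = -1) ∧ (s i - σ).natAbs + 1 = (s i).natAbs := by
      rcases lt_or_gt_of_ne hi with h | h
      · exact ⟨-1, Or.inr rfl, by omega⟩
      · exact ⟨1, Or.inl rfl, by omega⟩
    have hs' : Function.update s i (s i - σ) ∈ (Zg d).Lam r := by
      rw [mem_Lam]
      intro j
      by_cases hj : j = i
      · subst hj
        rw [Function.update_self]
        have h2 := mem_Lam.1 hs j
        rw [Int.abs_eq_natAbs] at h2 ⊢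
        omega
      · rw [Function.update_of_ne hj]
        exact mem_Lam.1 hs j
    have hsum' : ∑ j, (Function.update s i (s i - σ) j).natAbs = n := by
      have e1 := Finset.add_sum_erase Finset.univ (fun j => (s j).natAbs) (Finset.mem_univ i)
      have e2 := Finset.add_sum_erase Finset.univ
        (fun j => (Function.update s i (s i - σ) j).natAbs) (Finset.mem_univ i)
      have e3 : ∑ j ∈ Finset.univ.erase i, (Function.update s i (s i - σ) j).natAbs =
          ∑ j ∈ Finset.univ.erase i, (s j).natAbs :=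
        Finset.sum_congr rfl fun j hj => by
          rw [Function.update_of_ne (Finset.ne_of_mem_erase hj)]
      simp only [Function.update_self] at e2
      rw [e3] at e2
      omega
    have hnb : s ∈ (Zg d).nb (Function.update s i (s i - σ)) := by
      change s ∈ nbZ d (Function.update s i (s i - σ))
      rw [mem_nbZ]
      refine ⟨i, σ, hσ, ?_⟩
      rw [Function.update_self, Function.update_idem, sub_add_cancel, Function.update_eq_self]
    have h3 := T.tauD_nb (Zg d) h0 h1 hs' hs hnb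
    calc p ^ (n + 1) = p ^ n * p := pow_succ p n
      _ ≤ (Zg d).tauD p ((Zg d).Lam r) 0 (Function.update s i (s i - σ)) *
          (Zg d).tauD p ((Zg d).Lam r) (Function.update s i (s i - σ)) s :=
        mul_le_mul (ih _ hs' hsum') h3 h0 (T.tauD_nonneg (Zg d) h0 h1 _ _ _)
      _ ≤ _ := T.tauD_trans (Zg d) h0 h1 _ _ _ _

theorem tauD_box_ge {p : ℝ} (h0 : 0 ≤ p) (h1 : p ≤ 1) {r : ℕ} {s : Fin d → ℤ}
    (hs : s ∈ (Zg d).Lam r) : p ^ (d * r) ≤ (Zg d).tauD p ((Zg d).Lam r) 0 s := by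
  have hn : ∑ i, (s i).natAbs ≤ d * r := by
    have h := Finset.sum_le_card_nsmul (Finset.univ : Finset (Fin d)) (fun i => (s i).natAbs) r
      (fun i _ => by
        have h2 := mem_Lam.1 hs i
        rw [Int.abs_eq_natAbs] at h2
        exact_mod_cast h2)
    rw [Finset.card_univ, Fintype.card_fin, smul_eq_mul] at h
    exact h
  exact (pow_le_pow_of_le_one h0 h1 hn).trans (Hk_aux h0 h1 _ s hs rfl)

theorem harnack_gen {p : ℝ} (h0 : 0 ≤ p) (h1 : p ≤ 1) {B D : Finset (Fin d → ℤ)} (hBD : B ⊆ D)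
    {c : ℝ} {s : Fin d → ℤ} (hc : c ≤ (Zg d).tauD p B 0 s) (v : Fin d → ℤ) :
    c * (Zg d).tauD p D s v ≤ (Zg d).tauD p D 0 v := by
  calc c * (Zg d).tauD p D s v
      ≤ (Zg d).tauD p D 0 s * (Zg d).tauD p D s v :=
        mul_le_mul_of_nonneg_right (hc.trans (T.tauD_mono_D (Zg d) h0 h1 hBD 0 s))
          (T.tauD_nonneg (Zg d) h0 h1 D s v)
    _ ≤ (Zg d).tauD p D 0 v := T.tauD_trans (Zg d) h0 h1 D 0 s v

theorem harnack {p : ℝ} (h0 : 0 ≤ p) (h1 : p ≤ 1) {r : ℕ} {D : Finset (Fin d → ℤ)}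
    (hD : (Zg d).Lam r ⊆ D) {s : Fin d → ℤ} (hs : s ∈ (Zg d).Lam r) (v : Fin d → ℤ) :
    p ^ (d * r) * (Zg d).tauD p D s v ≤ (Zg d).tauD p D 0 v := by
  exact harnack_gen h0 h1 hD (tauD_box_ge h0 h1 hs) v

theorem harnack' {p : ℝ} (h0 : 0 ≤ p) (h1 : p ≤ 1) {r : ℕ} {D : Finset (Fin d → ℤ)}
    (hD : (Zg d).Lam r ⊆ D) {s : Fin d → ℤ} (hs : s ∈ (Zg d).Lam r) (v : Fin d → ℤ) :
    p ^ (d * r) * (Zg d).tauD p D 0 v ≤ (Zg d).tauD p D s v := by
  calc p ^ (d * r) * (Zg d).tauD p D 0 v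
      ≤ (Zg d).tauD p D s 0 * (Zg d).tauD p D 0 v := by
        refine mul_le_mul_of_nonneg_right ?_ (T.tauD_nonneg (Zg d) h0 h1 D 0 v)
        rw [T.tauD_symm]
        exact (tauD_box_ge h0 h1 hs).trans (T.tauD_mono_D (Zg d) h0 h1 hD 0 s)
    _ ≤ (Zg d).tauD p D s v := T.tauD_trans (Zg d) h0 h1 D s 0 v

end IPC
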