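import Mathlib

/-!
# MP_25e40f_pr, stream F: sums over the lattice (job Sm, about 150 lines)

The norm of `x : Fin d → ℤ` is the sup norm (instance of Mathlib): `norm_le_pi_norm`, `pi_norm_le_iff_of_nonneg`, `Int.norm_eq_abs`.

`summable_inv_pow`: `∑ (1 + ‖x‖)^(-r) < ∞` for `r > d`.  One way: `summable_of_sum_le` (nonnegative terms): every finite `T` is contained in a box `{‖x‖ ≤ N}`, and the number of `x` with `‖x‖ = n` is at most
`2 d (2 n + 1)^(d - 1)` (some coordinate is `n` or `-n`) or, more simply: the box `{‖x‖ < n + 1}` has at most `(2 n + 2)^d ≤ (2 (n+1))^d` points; dyadic shells `2^j ≤ 1 + ‖x‖ < 2^(j+1)`: at most `(2 * 2^(j+1))^d` points,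
each term at most `2^(-j r)`: the shell contributes at most `4^d * 2^(j (d - r)) ≤ 4^d * 2^(-j)` and the sum is at most `2 * 4^d`.  (`Finset.sum_fiberwise_of_maps_to` with `x ↦ Nat.log 2 (1 + ∑ or sup of natAbs)`; the
sup norm of an integer vector is the natural number `Finset.univ.sup (fun i => (x i).natAbs)`.)  Other ways: `ZLattice.summable_norm_rpow`, or induction on `d` with
`(1 + ‖x‖)^(-r) ≤ ∏ i (1 + |x i|)^(-r/d)`.

`norm_pow_le`: `(1 + ‖y‖)^(2 s) ≤ (2 max(1, ‖y‖))^(2 s)` and `max(1, ‖y‖)^(2 s)` is `1` or (`d > 0`) `‖y‖^(2 s) = |y j|^(2 s)` for some `j` (`Finite.exists_max` or `Finset.exists_mem_eq_sup'`); it is at most the sum.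

`weighted_cs` (weighted Cauchy-Schwarz): `∑ (1+‖y‖)^k |f y| = ∑ (1+‖y‖)^(-(s-k)) (1+‖y‖)^s |f y| ≤ (∑ (1+‖y‖)^(-2(s-k)))^(1/2) (∑ (1+‖y‖)^(2s) f(y)^2)^(1/2)` (`Finset.inner_mul_le_norm_mul_norm` or
`Finset.sum_mul_sq_le_sq_mul_sq`), `k ≤ s` and `d < 2 (s - k)`: `summable_inv_pow`; the second factor by `norm_pow_le`: `∑ (1+‖y‖)^(2s) f(y)^2 ≤ 4^s (M + d M)`.

`summable_of_bdd`: `summable_of_sum_le`.
-/

set_option autoImplicit false

noncomputable section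

open Finset

namespace IPC

private theorem Sm_int {a : ℝ} (ha : 1 < a) : Summable (fun n : ℤ => (1 + |(n : ℝ)|) ^ (-a)) := by
  have h1 : Summable (fun n : ℤ => |(n : ℝ)| ^ (-a)) := Real.summable_abs_int_rpow ha
  have h2 : Summable (fun n : ℤ => if n = 0 then (1 : ℝ) else 0) :=
    (hasSum_ite_eq (0 : ℤ) (1 : ℝ)).summable
  refine Summable.of_nonneg_of_le (fun n => by positivity) (fun n => ?_) (h1.add h2)
  by_cases hn : n = 0
  · rw [hn, if_pos rfl, Int.cast_zero, abs_zero, add_zero, Real.one_rpow]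
    have : (0 : ℝ) ≤ (0 : ℝ) ^ (-a) := Real.rpow_nonneg le_rfl _
    linarith
  · rw [if_neg hn, add_zero]
    have h3 : 0 < |(n : ℝ)| := by
      rw [abs_pos]
      exact_mod_cast hn
    exact Real.rpow_le_rpow_of_nonpos h3 (by linarith) (by linarith)

private theorem Sm_prod {d : ℕ} (hd : 0 < d) (r : ℕ) (x : Fin d → ℤ) :
    ((1 + ‖x‖) ^ r)⁻¹ ≤ ∏ i, (1 + |(x i : ℝ)|) ^ (-((r : ℝ) / d)) := by
  have hd0 : (0 : ℝ) < d := by exact_mod_cast hd
  have hx0 : (0 : ℝ) < 1 + ‖x‖ := by positivity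
  have h1 : ((1 + ‖x‖) ^ r)⁻¹ = ∏ _i : Fin d, (1 + ‖x‖) ^ (-((r : ℝ) / d)) := by
    rw [Finset.prod_const, Finset.card_univ, Fintype.card_fin,
      ← Real.rpow_natCast ((1 + ‖x‖) ^ (-((r : ℝ) / d))) d, ← Real.rpow_mul hx0.le,
      ← Real.rpow_natCast (1 + ‖x‖) r, ← Real.rpow_neg hx0.le]
    congr 1
    field_simp
  rw [h1]
  refine Finset.prod_le_prod (fun i _ => by positivity) fun i _ => ?_
  have h2 : |(x i : ℝ)| ≤ ‖x‖ := by
    have := norm_le_pi_norm x i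
    rwa [Int.norm_eq_abs] at this
  refine Real.rpow_le_rpow_of_nonpos (by positivity) (by linarith) ?_
  have : 0 ≤ (r : ℝ) / d := by positivity
  linarith

theorem summable_inv_pow (d r : ℕ) (hr : d < r) :
    Summable (fun x : Fin d → ℤ => ((1 + ‖x‖) ^ r)⁻¹) := by
  rcases Nat.eq_zero_or_pos d with h0 | hd
  · subst h0
    exact Summable.of_finite
  have hd0 : (0 : ℝ) < d := by exact_mod_cast hd
  have ha : 1 < (r : ℝ) / d := by
    rw [one_lt_div hd0]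
    exact_mod_cast hr
  have hS := Sm_int ha
  refine Summable.of_nonneg_of_le (fun x => by positivity) (fun x => Sm_prod hd r x) ?_
  refine summable_of_sum_le (c := (∑' n : ℤ, (1 + |(n : ℝ)|) ^ (-((r : ℝ) / d))) ^ d)
    (fun x => Finset.prod_nonneg fun i _ => by positivity) fun T => ?_
  obtain ⟨N, hN⟩ : ∃ N : Finset ℤ, T ⊆ Fintype.piFinset (fun _ : Fin d => N) := by
    classical
    refine ⟨T.biUnion fun x => Finset.univ.image x, fun x hx => ?_⟩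
    rw [Fintype.mem_piFinset]
    intro i
    exact Finset.mem_biUnion.2 ⟨x, hx, Finset.mem_image_of_mem x (Finset.mem_univ i)⟩
  refine (Finset.sum_le_sum_of_subset_of_nonneg hN
    (fun x _ _ => Finset.prod_nonneg fun i _ => by positivity)).trans ?_
  rw [← Finset.prod_univ_sum (fun _ : Fin d => N) (fun _ n => (1 + |(n : ℝ)|) ^ (-((r : ℝ) / d))),
    Finset.prod_const, Finset.card_univ, Fintype.card_fin]
  refine pow_le_pow_left₀ (Finset.sum_nonneg fun n _ => by positivity) ?_ d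
  exact hS.sum_le_tsum N (fun n _ => by positivity)

theorem norm_pow_le {d : ℕ} (s : ℕ) (y : Fin d → ℤ) :
    (1 + ‖y‖) ^ (2 * s) ≤ 4 ^ s * (1 + ∑ j, |(y j : ℝ)| ^ (2 * s)) := by
  have h4 : (4 : ℝ) ^ s = 2 ^ (2 * s) := by
    rw [pow_mul]
    norm_num
  have hsum : 0 ≤ ∑ j, |(y j : ℝ)| ^ (2 * s) := Finset.sum_nonneg fun j _ => by positivity
  have hy0 := norm_nonneg y
  rw [h4]
  by_cases h1 : ‖y‖ ≤ 1
  · have h2 : (1 + ‖y‖) ^ (2 * s) ≤ 2 ^ (2 * s) := pow_le_pow_left₀ (by linarith) (by linarith) _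
    refine h2.trans (le_mul_of_one_le_right (by positivity) (by linarith))
  · push Not at h1
    have h2 : (1 + ‖y‖) ^ (2 * s) ≤ (2 * ‖y‖) ^ (2 * s) := pow_le_pow_left₀ (by linarith) (by linarith) _
    refine h2.trans ?_
    rw [mul_pow]
    refine mul_le_mul_of_nonneg_left ?_ (by positivity)
    rcases isEmpty_or_nonempty (Fin d) with he | hne
    · exfalso
      have h3 : ‖y‖ ≤ 0 := (pi_norm_le_iff_of_nonneg le_rfl).2 fun i => he.elim i
      linarith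
    · obtain ⟨j, hj⟩ := Finite.exists_max (fun i => ‖y i‖)
      have h3 : ‖y‖ ≤ |(y j : ℝ)| := by
        rw [← Int.norm_eq_abs]
        exact (pi_norm_le_iff_of_nonneg (norm_nonneg _)).2 hj
      have h5 : ‖y‖ ^ (2 * s) ≤ |(y j : ℝ)| ^ (2 * s) := pow_le_pow_left₀ hy0 h3 _
      have h6 : |(y j : ℝ)| ^ (2 * s) ≤ ∑ j, |(y j : ℝ)| ^ (2 * s) :=
        Finset.single_le_sum (f := fun j => |(y j : ℝ)| ^ (2 * s)) (fun i _ => by positivity) (Finset.mem_univ j)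
      linarith

/-- weighted Cauchy-Schwarz inequality -/
theorem weighted_cs (d k s : ℕ) (hs : d + 2 * k < 2 * s) : ∃ C : ℝ, 0 ≤ C ∧
    ∀ (f : (Fin d → ℤ) → ℝ) (M : ℝ), 0 ≤ M → (∀ T : Finset (Fin d → ℤ), ∑ y ∈ T, f y ^ 2 ≤ M) →
      (∀ j : Fin d, ∀ T : Finset (Fin d → ℤ), ∑ y ∈ T, |(y j : ℝ)| ^ (2 * s) * f y ^ 2 ≤ M) →
      ∀ T : Finset (Fin d → ℤ), ∑ y ∈ T, (1 + ‖y‖) ^ k * |f y| ≤ C * Real.sqrt M := by
  have hsum := summable_inv_pow d (2 * (s - k)) (by omega)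
  obtain ⟨Z, hZ⟩ : ∃ Z : ℝ, Z = ∑' x : Fin d → ℤ, ((1 + ‖x‖) ^ (2 * (s - k)))⁻¹ := ⟨_, rfl⟩
  have hZ0 : 0 ≤ Z := by
    rw [hZ]
    exact tsum_nonneg fun x => by positivity
  refine ⟨Real.sqrt (Z * (4 ^ s * (1 + d))), Real.sqrt_nonneg _, ?_⟩
  intro f M hM h1 h2 T
  rw [← Real.sqrt_mul (by positivity)]
  refine (le_abs_self _).trans (Real.abs_le_sqrt ?_)
  have e1 : ∑ y ∈ T, (1 + ‖y‖) ^ k * |f y| =
      ∑ y ∈ T, ((1 + ‖y‖) ^ (s - k))⁻¹ * ((1 + ‖y‖) ^ s * |f y|) := by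
    refine Finset.sum_congr rfl fun y _ => ?_
    have hy : (0 : ℝ) < 1 + ‖y‖ := by positivity
    have e2 : (1 + ‖y‖) ^ s = (1 + ‖y‖) ^ (s - k) * (1 + ‖y‖) ^ k := by
      rw [← pow_add]
      congr 1
      omega
    rw [e2]
    field_simp
  rw [e1]
  refine (Finset.sum_mul_sq_le_sq_mul_sq T _ _).trans ?_
  have h3 : ∑ y ∈ T, (((1 + ‖y‖) ^ (s - k))⁻¹) ^ 2 ≤ Z := by
    have e3 : ∑ y ∈ T, (((1 + ‖y‖) ^ (s - k))⁻¹) ^ 2 = ∑ y ∈ T, ((1 + ‖y‖) ^ (2 * (s - k)))⁻¹ := by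
      refine Finset.sum_congr rfl fun y _ => ?_
      rw [inv_pow, ← pow_mul, mul_comm (s - k) 2]
    rw [e3, hZ]
    exact hsum.sum_le_tsum T (fun n _ => by positivity)
  have h4 : ∑ y ∈ T, ((1 + ‖y‖) ^ s * |f y|) ^ 2 ≤ 4 ^ s * (1 + d) * M := by
    have h5 : ∀ y ∈ T, ((1 + ‖y‖) ^ s * |f y|) ^ 2 ≤
        4 ^ s * (f y ^ 2 + ∑ j, |(y j : ℝ)| ^ (2 * s) * f y ^ 2) := by
      intro y _
      rw [mul_pow, sq_abs, ← pow_mul, mul_comm s 2]
      have h6 := mul_le_mul_of_nonneg_right (norm_pow_le s y) (sq_nonneg (f y))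
      refine h6.trans (le_of_eq ?_)
      rw [← Finset.sum_mul]
      ring
    refine (Finset.sum_le_sum h5).trans ?_
    rw [← Finset.mul_sum, Finset.sum_add_distrib, Finset.sum_comm, mul_assoc]
    refine mul_le_mul_of_nonneg_left ?_ (by positivity)
    have h7 : ∑ j : Fin d, ∑ y ∈ T, |(y j : ℝ)| ^ (2 * s) * f y ^ 2 ≤ d * M := by
      refine (Finset.sum_le_sum fun j _ => h2 j T).trans (le_of_eq ?_)
      rw [Finset.sum_const, Finset.card_univ, Fintype.card_fin, nsmul_eq_mul]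
    have h8 := h1 T
    linarith
  have h9 : 0 ≤ ∑ y ∈ T, ((1 + ‖y‖) ^ s * |f y|) ^ 2 := Finset.sum_nonneg fun y _ => by positivity
  calc (∑ y ∈ T, (((1 + ‖y‖) ^ (s - k))⁻¹) ^ 2) * ∑ y ∈ T, ((1 + ‖y‖) ^ s * |f y|) ^ 2 ≤
      Z * (4 ^ s * (1 + d) * M) := mul_le_mul h3 h4 h9 hZ0
    _ = Z * (4 ^ s * (1 + d)) * M := by ring

theorem one_add_norm_add_le {d : ℕ} (x y : Fin d → ℤ) : 1 + ‖x + y‖ ≤ (1 + ‖x‖) * (1 + ‖y‖) := by
  have h1 := norm_add_le x y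
  have h2 : 0 ≤ ‖x‖ * ‖y‖ := by positivity
  nlinarith

theorem one_add_norm_sub_le {d : ℕ} (x y : Fin d → ℤ) : 1 + ‖x - y‖ ≤ (1 + ‖x‖) * (1 + ‖y‖) := by
  have h1 := norm_sub_le x y
  have h2 : 0 ≤ ‖x‖ * ‖y‖ := by positivity
  nlinarith

end IPC
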