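import Pool.Agent.Lib.MP_25e40f_pr.F.Dec
import Pool.Agent.Lib.MP_25e40f_pr.F.Hk
import Pool.Agent.Lib.MP_25e40f_pr.F.Sm
import Pool.Agent.Lib.MP_25e40f_pr.T.Tau

/-!
# MP_25e40f_pr, stream F: the growth lemma, first part (job GrwA, about 200 lines)

`B = Λ_{n^21}`, `B' = Λ_{2 n^21}`, `Q(t) = τ_D(t, v)`.  `mem_Lam_norm`: `y ∈ Λ_r ↔ ‖y‖ ≤ r`; `#Λ_r = (2 r + 1)^d` (`Fintype.card_piFinset`, `Int.card_Icc`; `(Zg d).Lam r` is by definition a `piFinset`).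
`chi_le`: for `a, y ∈ B'`: `τ_{B'}(a,y) ≤ τ(a,y) ≤ C (1+‖y-a‖)^(-(d-10)) = C (1+‖y-a‖)^11 (1+‖y-a‖)^(-(d+1)) ≤ C (5 n^21)^11 ((1+‖y-a‖)^(d+1))⁻¹` as `1 + ‖y - a‖ ≤ 1 + 4 n^21 ≤ 5 n^21` (`n ≥ 1`), and
`∑_{y ∈ B'} ((1+‖y-a‖)^(d+1))⁻¹ ≤ ∑' z, ((1+‖z‖)^(d+1))⁻¹ =: S` (`summable_inv_pow`, `Summable.sum_le_tsum` for the image of `B'` under `y ↦ y - a`).  Constant `C 5^11 S`, `(n^21)^11 = n^231`.
`mom_six`: `lam = n^483`.  `sz_mom` with `m = 6`, `x = 0`: the first term is `n^2898 Q(0)`.  Second term: `(#B)^6 ≤ (3 n^21)^(6 d)`; `sz_tail` and `mom_bound` with `N = 7 d + β` (`≥ 1`; `χ = C n^231`):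
`Pr ≤ lam^(-N) C_N (C n^231)^(2N-1) ≤ C' n^(-483 N + 462 N) = C' n^(-21 N)`; `Q(t) ≤ c⁻¹ (2 n^21)^β Q(0)` for `t ∈ B'` (`low` with `R = 2 n^21`, `harnack_gen` with the box `Λ_{8 n^21} ⊆ D`), so `∑_{t ∈ B'} Q(t) ≤ (5 n^21)^d c⁻¹ (2 n^21)^β Q(0)`.
The powers of `n`: `21 (6 d - N + d + β) = 0`: the second term is at most a constant times `Q(0)`.
-/

set_option autoImplicit false

noncomputable section

open Finset
open scoped Classical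

namespace IPC

variable {d : ℕ}

/-- inputs of the growth lemma -/
structure GIn (d : ℕ) (p : ℝ) : Prop where
  p0 : 0 < p
  p1 : p ≤ 1 / 2
  dim : 12 ≤ d
  low : ∃ (c : ℝ) (β : ℕ), 0 < c ∧ ∀ R : ℕ, 1 ≤ R → ∀ s ∈ (Zg d).Lam R,
    c ≤ (R : ℝ) ^ β * (Zg d).tauD p ((Zg d).Lam (4 * R)) 0 s
  up : ∃ C : ℝ, 0 ≤ C ∧ ∀ x y : Fin d → ℤ, (1 + ‖y - x‖) ^ (d - 10) * (Zg d).tau p x y ≤ C
  six : ∃ (c : ℝ) (n₀ : ℕ), 0 < c ∧ ∀ n ≥ n₀, ∀ y ∈ (Zg d).Lam (2 * n ^ 20),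
    c ≤ ((n : ℝ) ^ 20) ^ (d - 12) *
      itau d p ((Zg d).Lam (n ^ 21)) ((Zg d).Lam (2 * n ^ 21)) 5 0 y

theorem chi_le {p : ℝ} (H : GIn d p) : ∃ C : ℝ, 0 ≤ C ∧ ∀ n : ℕ, 1 ≤ n →
    ∀ a ∈ (Zg d).Lam (2 * n ^ 21), ∑ y ∈ (Zg d).Lam (2 * n ^ 21),
      (Zg d).tauD p ((Zg d).Lam (2 * n ^ 21)) a y ≤ C * (n : ℝ) ^ 231 := by
  obtain ⟨C, hC0, hC⟩ := H.up
  have hp0 := H.p0.le
  have hp1 : p ≤ 1 := by linarith [H.p1]
  have hs := summable_inv_pow d (d + 1) (Nat.lt_succ_self d)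
  have hS0 : 0 ≤ ∑' z : Fin d → ℤ, ((1 + ‖z‖) ^ (d + 1))⁻¹ := tsum_nonneg fun z => by positivity
  refine ⟨C * 5 ^ 11 * ∑' z : Fin d → ℤ, ((1 + ‖z‖) ^ (d + 1))⁻¹, by positivity, ?_⟩
  intro n hn a ha
  have hn1 : (1 : ℝ) ≤ n := by exact_mod_cast hn
  have hn21 : (1 : ℝ) ≤ (n : ℝ) ^ 21 := one_le_pow₀ hn1
  rw [mem_Lam_norm] at ha
  push_cast at ha
  have h1 : ∀ y ∈ (Zg d).Lam (2 * n ^ 21), (Zg d).tauD p ((Zg d).Lam (2 * n ^ 21)) a y ≤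
      C * 5 ^ 11 * (n : ℝ) ^ 231 * ((1 + ‖y - a‖) ^ (d + 1))⁻¹ := by
    intro y hy
    rw [mem_Lam_norm] at hy
    push_cast at hy
    have hw1 : 1 ≤ 1 + ‖y - a‖ := by linarith [norm_nonneg (y - a)]
    have hw2 : 1 + ‖y - a‖ ≤ 5 * (n : ℝ) ^ 21 := by
      have := norm_sub_le y a
      linarith
    have hw0 : 0 < 1 + ‖y - a‖ := by linarith
    have h2 : (1 + ‖y - a‖) ^ (d + 1) = (1 + ‖y - a‖) ^ 11 * (1 + ‖y - a‖) ^ (d - 10) := by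
      rw [← pow_add]
      congr 1
      have := H.dim
      omega
    have h3 : (1 + ‖y - a‖) ^ 11 ≤ 5 ^ 11 * (n : ℝ) ^ 231 := by
      refine (pow_le_pow_left₀ hw0.le hw2 11).trans (le_of_eq ?_)
      rw [mul_pow, ← pow_mul]
    refine (T.tauD_le_tau (Zg d) hp0 hp1 _ a y).trans ?_
    rw [← div_eq_mul_inv, le_div_iff₀ (by positivity), h2]
    have h4 := hC a y
    have h5 := T.tau_nonneg (Zg d) hp0 hp1 a y
    calc (Zg d).tau p a y * ((1 + ‖y - a‖) ^ 11 * (1 + ‖y - a‖) ^ (d - 10)) =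
        (1 + ‖y - a‖) ^ 11 * ((1 + ‖y - a‖) ^ (d - 10) * (Zg d).tau p a y) := by ring
      _ ≤ (5 ^ 11 * (n : ℝ) ^ 231) * C :=
        mul_le_mul h3 h4 (by positivity) (by positivity)
      _ = C * 5 ^ 11 * (n : ℝ) ^ 231 := by ring
  refine (Finset.sum_le_sum h1).trans ?_
  rw [← Finset.mul_sum]
  have h6 : ∑ y ∈ (Zg d).Lam (2 * n ^ 21), ((1 + ‖y - a‖) ^ (d + 1))⁻¹ ≤
      ∑' z : Fin d → ℤ, ((1 + ‖z‖) ^ (d + 1))⁻¹ := by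
    have h7 : Summable ((fun z : Fin d → ℤ => ((1 + ‖z‖) ^ (d + 1))⁻¹) ∘ (Equiv.subRight a)) :=
      (Equiv.subRight a).summable_iff.2 hs
    change Summable fun y : Fin d → ℤ => ((1 + ‖y - a‖) ^ (d + 1))⁻¹ at h7
    refine (h7.sum_le_tsum _ fun y _ => by positivity).trans (le_of_eq ?_)
    exact (Equiv.subRight a).tsum_eq fun z : Fin d → ℤ => ((1 + ‖z‖) ^ (d + 1))⁻¹
  calc C * 5 ^ 11 * (n : ℝ) ^ 231 * ∑ y ∈ (Zg d).Lam (2 * n ^ 21), ((1 + ‖y - a‖) ^ (d + 1))⁻¹ ≤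
      C * 5 ^ 11 * (n : ℝ) ^ 231 * ∑' z : Fin d → ℤ, ((1 + ‖z‖) ^ (d + 1))⁻¹ :=
        mul_le_mul_of_nonneg_left h6 (by positivity)
    _ = C * 5 ^ 11 * (∑' z : Fin d → ℤ, ((1 + ‖z‖) ^ (d + 1))⁻¹) * (n : ℝ) ^ 231 := by ring

private theorem grwA_card (r : ℕ) : (((Zg d).Lam r).card : ℝ) = (2 * (r : ℝ) + 1) ^ d := by
  have h : ((Zg d).Lam r).card = (2 * r + 1) ^ d := by
    show (Fintype.piFinset fun _ : Fin d => Finset.Icc (-(r : ℤ)) r).card = _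
    rw [Fintype.card_piFinset, Finset.prod_const, Finset.card_univ, Fintype.card_fin, Int.card_Icc]
    congr 1
    omega
  rw [h]
  push_cast
  rfl

theorem mom_six {p : ℝ} (H : GIn d p) : ∃ C : ℝ, 0 ≤ C ∧ ∀ n : ℕ, 1 ≤ n →
    ∀ (D : Finset (Fin d → ℤ)) (v : Fin d → ℤ), (Zg d).Lam (8 * n ^ 21) ⊆ D →
      EE p ((Zg d).ein D) (fun ω =>
        szD ((Zg d).Lam (n ^ 21)) (ω ∩ (Zg d).ein ((Zg d).Lam (2 * n ^ 21))) 0 ^ 6 *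
          ind (Conn ω 0 v)) ≤ C * (n : ℝ) ^ 2898 * (Zg d).tauD p D 0 v := by
  have hp0 := H.p0.le
  have hp1 : p ≤ 1 := by linarith [H.p1]
  obtain ⟨Cχ, hCχ0, hχ⟩ := chi_le H
  obtain ⟨c, β, hc, hlow⟩ := H.low
  obtain ⟨CN, hCN0, hCN⟩ := mom_bound (7 * d + β) (by have := H.dim; omega)
  obtain ⟨K, hK⟩ : ∃ K : ℝ, K = CN * Cχ ^ (2 * (7 * d + β) - 1) := ⟨_, rfl⟩
  have hK0 : 0 ≤ K := by
    rw [hK]
    exact mul_nonneg hCN0 (pow_nonneg hCχ0 _)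
  obtain ⟨L, hL⟩ : ∃ L : ℝ, L = 3 ^ (6 * d) * 5 ^ d * 2 ^ β * c⁻¹ := ⟨_, rfl⟩
  have hL0 : 0 ≤ L := by
    rw [hL]
    exact mul_nonneg (mul_nonneg (mul_nonneg (pow_nonneg (by norm_num) _) (pow_nonneg (by norm_num) _))
      (pow_nonneg (by norm_num) _)) (inv_nonneg.2 hc.le)
  refine ⟨1 + L * K, by positivity, ?_⟩
  intro n hn D v hD
  have hn1 : (1 : ℝ) ≤ n := by exact_mod_cast hn
  have hn0 : (0 : ℝ) < n := by linarith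
  have hn21 : (1 : ℝ) ≤ (n : ℝ) ^ 21 := one_le_pow₀ hn1
  have hB : (Zg d).Lam (2 * n ^ 21) ⊆ D := (Lam_le (by omega)).trans hD
  have hBB : (Zg d).Lam (n ^ 21) ⊆ (Zg d).Lam (2 * n ^ 21) := Lam_le (by omega)
  have hQ0 : 0 ≤ (Zg d).tauD p D 0 v := T.tauD_nonneg (Zg d) hp0 hp1 D 0 v
  have h1 := sz_mom (Zg d) hp0 H.p1 (B := (Zg d).Lam (n ^ 21)) hB (v := v)
    (zero_mem_Lam d (2 * n ^ 21)) (lam := (n : ℝ) ^ 483) (by positivity) 6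
  refine h1.trans ?_
  have hP0 : 0 ≤ Pr p ((Zg d).ein ((Zg d).Lam (2 * n ^ 21)))
      (fun ω => (n : ℝ) ^ 483 ≤ szD ((Zg d).Lam (n ^ 21)) ω 0) := Pr_nonneg hp0 hp1 _ _
  -- the tail
  have h2 : (n : ℝ) ^ (21 * (7 * d + β)) * Pr p ((Zg d).ein ((Zg d).Lam (2 * n ^ 21)))
      (fun ω => (n : ℝ) ^ 483 ≤ szD ((Zg d).Lam (n ^ 21)) ω 0) ≤
      K := by
    have h3 := sz_tail (Zg d) hp0 hp1 hBB (0 : Fin d → ℤ) (lam := (n : ℝ) ^ 483) (by positivity)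
      (7 * d + β)
    have h4 := hCN (Fin d → ℤ) (Zg d) p hp0 H.p1 ((Zg d).Lam (2 * n ^ 21)) (Cχ * (n : ℝ) ^ 231)
      (by positivity) (hχ n hn) 0 (zero_mem_Lam d (2 * n ^ 21))
    have h5 := h3.trans h4
    have h6 : (Cχ * (n : ℝ) ^ 231) ^ (2 * (7 * d + β) - 1) ≤
        Cχ ^ (2 * (7 * d + β) - 1) * (n : ℝ) ^ (462 * (7 * d + β)) := by
      rw [mul_pow, ← pow_mul]
      have h9 : 231 * (2 * (7 * d + β) - 1) ≤ 462 * (7 * d + β) := by omega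
      exact mul_le_mul_of_nonneg_left (pow_le_pow_right₀ hn1 h9) (pow_nonneg hCχ0 _)
    have h7 : ((n : ℝ) ^ 483) ^ (7 * d + β) = (n : ℝ) ^ (462 * (7 * d + β)) *
        (n : ℝ) ^ (21 * (7 * d + β)) := by
      rw [← pow_mul, ← pow_add]
      congr 1
      ring
    rw [h7] at h5
    have h8 : (0 : ℝ) < (n : ℝ) ^ (462 * (7 * d + β)) := pow_pos hn0 _
    refine le_of_mul_le_mul_left ?_ h8
    calc (n : ℝ) ^ (462 * (7 * d + β)) * ((n : ℝ) ^ (21 * (7 * d + β)) *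
          Pr p ((Zg d).ein ((Zg d).Lam (2 * n ^ 21)))
            (fun ω => (n : ℝ) ^ 483 ≤ szD ((Zg d).Lam (n ^ 21)) ω 0)) =
        (n : ℝ) ^ (462 * (7 * d + β)) * (n : ℝ) ^ (21 * (7 * d + β)) *
          Pr p ((Zg d).ein ((Zg d).Lam (2 * n ^ 21)))
            (fun ω => (n : ℝ) ^ 483 ≤ szD ((Zg d).Lam (n ^ 21)) ω 0) := by ring
      _ ≤ CN * (Cχ * (n : ℝ) ^ 231) ^ (2 * (7 * d + β) - 1) := h5
      _ ≤ CN * (Cχ ^ (2 * (7 * d + β) - 1) * (n : ℝ) ^ (462 * (7 * d + β))) :=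
        mul_le_mul_of_nonneg_left h6 hCN0
      _ = (n : ℝ) ^ (462 * (7 * d + β)) * K := by
        rw [hK]
        ring
  -- the sum over the box
  have h3 : ∑ t ∈ (Zg d).Lam (2 * n ^ 21), (Zg d).tauD p D t v ≤
      (5 * (n : ℝ) ^ 21) ^ d * (c⁻¹ * (2 * (n : ℝ) ^ 21) ^ β * (Zg d).tauD p D 0 v) := by
    have h4 : ∀ t ∈ (Zg d).Lam (2 * n ^ 21), (Zg d).tauD p D t v ≤
        c⁻¹ * (2 * (n : ℝ) ^ 21) ^ β * (Zg d).tauD p D 0 v := by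
      intro t ht
      have h5 := hlow (2 * n ^ 21) (by have := Nat.one_le_pow 21 n hn; omega) t ht
      have h6 : (0 : ℝ) < ((2 * n ^ 21 : ℕ) : ℝ) ^ β := by
        have : 0 < 2 * n ^ 21 := by have := Nat.one_le_pow 21 n hn; omega
        positivity
      have h7 : c / ((2 * n ^ 21 : ℕ) : ℝ) ^ β ≤ (Zg d).tauD p ((Zg d).Lam (4 * (2 * n ^ 21))) 0 t := by
        rw [div_le_iff₀ h6]
        linarith
      have h8 : (Zg d).Lam (4 * (2 * n ^ 21)) ⊆ D := (Lam_le (by omega)).trans hD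
      have h9 := harnack_gen hp0 hp1 h8 h7 v
      rw [div_mul_eq_mul_div, div_le_iff₀ h6] at h9
      push_cast at h9
      have h10 : (Zg d).tauD p D t v = c⁻¹ * (c * (Zg d).tauD p D t v) := by
        field_simp
      rw [h10]
      calc c⁻¹ * (c * (Zg d).tauD p D t v) ≤
          c⁻¹ * ((Zg d).tauD p D 0 v * (2 * (n : ℝ) ^ 21) ^ β) :=
            mul_le_mul_of_nonneg_left h9 (by positivity)
        _ = c⁻¹ * (2 * (n : ℝ) ^ 21) ^ β * (Zg d).tauD p D 0 v := by ring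
    refine (Finset.sum_le_sum h4).trans ?_
    rw [Finset.sum_const, nsmul_eq_mul, grwA_card]
    refine mul_le_mul_of_nonneg_right ?_
      (mul_nonneg (mul_nonneg (inv_nonneg.2 hc.le) (pow_nonneg (by linarith) _)) hQ0)
    push_cast
    exact pow_le_pow_left₀ (by linarith) (by linarith) d
  have h4 : (((Zg d).Lam (n ^ 21)).card : ℝ) ^ 6 ≤ (3 * (n : ℝ) ^ 21) ^ (6 * d) := by
    rw [grwA_card]
    push_cast
    rw [← pow_mul, mul_comm d 6]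
    exact pow_le_pow_left₀ (by positivity) (by linarith) _
  have hn2898 : (1 : ℝ) ≤ (n : ℝ) ^ 2898 := one_le_pow₀ hn1
  have h5 : (((Zg d).Lam (n ^ 21)).card : ℝ) ^ 6 * (Pr p ((Zg d).ein ((Zg d).Lam (2 * n ^ 21)))
      (fun ω => (n : ℝ) ^ 483 ≤ szD ((Zg d).Lam (n ^ 21)) ω 0) *
        ∑ t ∈ (Zg d).Lam (2 * n ^ 21), (Zg d).tauD p D t v) ≤
      L * K * (Zg d).tauD p D 0 v := by
    have h6 : (3 * (n : ℝ) ^ 21) ^ (6 * d) * (Pr p ((Zg d).ein ((Zg d).Lam (2 * n ^ 21)))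
        (fun ω => (n : ℝ) ^ 483 ≤ szD ((Zg d).Lam (n ^ 21)) ω 0) *
          ((5 * (n : ℝ) ^ 21) ^ d * (c⁻¹ * (2 * (n : ℝ) ^ 21) ^ β * (Zg d).tauD p D 0 v))) =
        L * ((n : ℝ) ^ (21 * (7 * d + β)) *
          Pr p ((Zg d).ein ((Zg d).Lam (2 * n ^ 21)))
            (fun ω => (n : ℝ) ^ 483 ≤ szD ((Zg d).Lam (n ^ 21)) ω 0)) * (Zg d).tauD p D 0 v := by
      have h7 : (n : ℝ) ^ (21 * (7 * d + β)) = ((n : ℝ) ^ 21) ^ (6 * d) * ((n : ℝ) ^ 21) ^ d *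
          ((n : ℝ) ^ 21) ^ β := by
        rw [← pow_add, ← pow_add, ← pow_mul]
        congr 1
        ring
      rw [hL, h7, mul_pow, mul_pow, mul_pow]
      ring
    calc _ ≤ (3 * (n : ℝ) ^ 21) ^ (6 * d) * (Pr p ((Zg d).ein ((Zg d).Lam (2 * n ^ 21)))
        (fun ω => (n : ℝ) ^ 483 ≤ szD ((Zg d).Lam (n ^ 21)) ω 0) *
          ((5 * (n : ℝ) ^ 21) ^ d * (c⁻¹ * (2 * (n : ℝ) ^ 21) ^ β * (Zg d).tauD p D 0 v))) :=
          mul_le_mul h4 (mul_le_mul_of_nonneg_left h3 hP0)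
            (mul_nonneg hP0 (Finset.sum_nonneg fun t _ => T.tauD_nonneg (Zg d) hp0 hp1 D t v))
            (by positivity)
      _ = _ := h6
      _ ≤ _ := mul_le_mul_of_nonneg_right (mul_le_mul_of_nonneg_left h2 hL0) hQ0
  have h6 : ((n : ℝ) ^ 483) ^ 6 = (n : ℝ) ^ 2898 := by rw [← pow_mul]
  rw [h6]
  have h7 : 0 ≤ L * K * (Zg d).tauD p D 0 v := mul_nonneg (mul_nonneg hL0 hK0) hQ0
  have h8 := le_mul_of_one_le_left h7 hn2898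
  calc _ ≤ (n : ℝ) ^ 2898 * (Zg d).tauD p D 0 v + (n : ℝ) ^ 2898 *
      (L * K * (Zg d).tauD p D 0 v) := add_le_add le_rfl (h5.trans h8)
    _ = _ := by ring

end IPC
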