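import Mathlib

/-!
# MP_25e40f_pr, stream F: interpolation (job Itp, about 200 lines)

`Δ = fwdDiff h` is the forward difference of Mathlib (`Mathlib/Algebra/Group/ForwardDiff.lean`).

`line_zero`: `f : ℤ → ℝ`, `Δ^K f = 0`, `f 0 = ... = f (K-1) = 0` imply `f = 0`.  `fwdDiff_iter_eq_sum_shift`: for all `y`: `∑_{k ≤ K} (-1)^(K-k) C(K,k) f (y + k) = 0`.  Upwards: `f n = 0` for all natural `n` by strong induction
(`n ≥ K`: take `y = n - K`: the coefficient of `f (y + K)` is `1`, all the others vanish).  Downwards: `f (-n) = 0`: strong induction (`y = -n`, the coefficient of `f y` is `(-1)^K`).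

`exists_poly`: `K = 0`: `q = 0`.  `K ≥ 1`: `ℓ j := Lagrange.basis (range K) (fun m => (m : ℝ)) j` (degree `K - 1`, `ℓ j (m) = 1` if `m = j` and `0` for the other `m < K`; `Lagrange.eval_basis_self`, `Lagrange.eval_basis_of_ne`,
`Lagrange.degree_basis` or `natDegree < K`).  `P := ∑_{a : Fin d → Fin K} C (q (fun i => (a i : ℤ))) * ∏_i Polynomial.aeval (X i) (ℓ (a i))`.  `g x := q x - eval P`.
(1) `g = 0` on the grid `{0,...,K-1}^d`.  (2) for all `i`, `x`: the function `n ↦ g (Function.update x i n)` satisfies `Δ^K = 0`: for `q`: hypothesis (`Function.update x i n = Function.update x i 0 + n • Pi.single i 1`; compare the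
sums of `fwdDiff_iter_eq_sum_shift`); for `P`: `n ↦ eval` is a sum of constants times `(ℓ (a i)).eval (n : ℝ)`, and `Polynomial.fwdDiff_iter_eq_zero_of_degree_lt` (on `ℝ`, compose with `Int.cast`, again by the sum formula).
(3) for every finite set `T` of coordinates (`Finset.induction_on`): `g x = 0` as soon as `x i ∈ {0,...,K-1}` for all `i ∉ T`: step: `T ∪ {i}`: apply `line_zero` to `n ↦ g (Function.update x i n)`. `T = univ`: done.
(Any other proof is fine, for example Newton's formula and induction on the number of coordinates.)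
-/

set_option autoImplicit false

noncomputable section

open Finset

namespace IPC

private theorem Itp_line_iter {d : ℕ} (K : ℕ) (q : (Fin d → ℤ) → ℝ) (i : Fin d)
    (x : Fin d → ℤ) (n : ℤ) :
    (fwdDiff (1 : ℤ))^[K] (fun n : ℤ => q (Function.update x i n)) n =
      (fwdDiff (Pi.single i (1 : ℤ)))^[K] q (Function.update x i n) := by
  induction K generalizing q with
  | zero => rfl
  | succ K ih =>
    rw [Function.iterate_succ_apply, Function.iterate_succ_apply, ← ih]
    have h : fwdDiff (1 : ℤ) (fun n : ℤ => q (Function.update x i n)) =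
        fun n => fwdDiff (Pi.single i (1 : ℤ)) q (Function.update x i n) := by
      funext m
      have h1 : Function.update x i (m + 1) = Function.update x i m + Pi.single i 1 := by
        funext j
        by_cases hj : j = i
        · subst hj
          simp
        · simp [hj]
      show q (Function.update x i (m + 1)) - q (Function.update x i m) =
        q (Function.update x i m + Pi.single i 1) - q (Function.update x i m)
      rw [h1]
    rw [h]

private theorem Itp_poly_iter {K : ℕ} {P : Polynomial ℝ} (hP : P.natDegree < K) (n : ℤ) :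
    (fwdDiff (1 : ℤ))^[K] (fun n : ℤ => P.eval (n : ℝ)) n = 0 := by
  have h := congrFun (Polynomial.fwdDiff_iter_eq_zero_of_degree_lt hP) (n : ℝ)
  rw [fwdDiff_iter_eq_sum_shift, Pi.zero_apply] at h
  rw [fwdDiff_iter_eq_sum_shift]
  refine Eq.trans (Finset.sum_congr rfl fun k _ => ?_) h
  have h1 : ((n + k • (1 : ℤ) : ℤ) : ℝ) = (n : ℝ) + k • (1 : ℝ) := by
    simp
  rw [← h1]

private theorem Itp_eval {d : ℕ} (f : Fin d → ℝ) (i : Fin d) (p : Polynomial ℝ) :
    MvPolynomial.eval f (Polynomial.aeval (MvPolynomial.X i) p) = p.eval (f i) := by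
  have h1 : (MvPolynomial.eval f).comp (algebraMap ℝ (MvPolynomial (Fin d) ℝ)) =
      RingHom.id ℝ := RingHom.ext fun r => MvPolynomial.eval_C r
  rw [Polynomial.aeval_def, Polynomial.hom_eval₂, h1, MvPolynomial.eval_X]
  rfl

theorem line_zero {K : ℕ} {f : ℤ → ℝ} (hf : ∀ n, (fwdDiff (1 : ℤ))^[K] f n = 0)
    (h0 : ∀ n : ℕ, n < K → f n = 0) : ∀ n, f n = 0 := by
  induction K generalizing f with
  | zero =>
    intro n
    exact hf n
  | succ K ih =>
    have h1 : ∀ n, fwdDiff (1 : ℤ) f n = 0 := by
      refine ih (fun n => ?_) fun n hn => ?_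
      · have h2 := hf n
        rw [Function.iterate_succ_apply] at h2
        exact h2
      · have h2 := h0 n (by omega)
        have h3 := h0 (n + 1) (by omega)
        rw [Nat.cast_add, Nat.cast_one] at h3
        show f ((n : ℤ) + 1) - f (n : ℤ) = 0
        rw [h2, h3, sub_zero]
    have h2 : ∀ n : ℤ, f (n + 1) = f n := fun n => sub_eq_zero.1 (h1 n)
    have h3 : f 0 = 0 := h0 0 (Nat.succ_pos K)
    intro n
    induction n using Int.induction_on with
    | zero => exact h3
    | succ i hi => rw [h2, hi]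
    | pred i hi =>
      rw [← h2, sub_add_cancel]
      exact hi

/-- a function on the lattice whose `K`-th differences in all the directions vanish is a polynomial -/
theorem exists_poly {d K : ℕ} {q : (Fin d → ℤ) → ℝ}
    (hq : ∀ i : Fin d, ∀ x, (fwdDiff (Pi.single i (1 : ℤ)))^[K] q x = 0) :
    ∃ P : MvPolynomial (Fin d) ℝ, ∀ x : Fin d → ℤ,
      q x = MvPolynomial.eval (fun i => (x i : ℝ)) P := by
  let ℓ : ℕ → Polynomial ℝ := fun j => Lagrange.basis (range K) (fun m : ℕ => (m : ℝ)) j
  have hinj : Set.InjOn (fun m : ℕ => (m : ℝ)) ((range K : Finset ℕ) : Set ℕ) :=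
    fun a _ b _ h => Nat.cast_injective h
  have hself : ∀ j < K, (ℓ j).eval (j : ℝ) = 1 := fun j hj =>
    Lagrange.eval_basis_self (v := fun m : ℕ => (m : ℝ)) hinj (Finset.mem_range.2 hj)
  have hne : ∀ i j : ℕ, i ≠ j → j < K → (ℓ i).eval (j : ℝ) = 0 := fun i j hij hj =>
    Lagrange.eval_basis_of_ne (v := fun m : ℕ => (m : ℝ)) hij (Finset.mem_range.2 hj)
  have hdeg : ∀ j < K, (ℓ j).natDegree < K := by
    intro j hj
    have h := Lagrange.natDegree_basis (v := fun m : ℕ => (m : ℝ)) hinj (Finset.mem_range.2 hj)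
    rw [Finset.card_range] at h
    show (Lagrange.basis (range K) (fun m : ℕ => (m : ℝ)) j).natDegree < K
    omega
  let g : (Fin d → ℤ) → ℝ := fun x => q x -
    ∑ a : Fin d → Fin K, q (fun i => ((a i : ℕ) : ℤ)) * ∏ i, (ℓ (a i)).eval (x i : ℝ)
  have hgrid : ∀ b : Fin d → Fin K, g (fun i => ((b i : ℕ) : ℤ)) = 0 := by
    intro b
    show q (fun i => ((b i : ℕ) : ℤ)) - ∑ a : Fin d → Fin K, q (fun i => ((a i : ℕ) : ℤ)) *
      ∏ i, (ℓ (a i)).eval ((((b i : ℕ) : ℤ)) : ℝ) = 0
    rw [Finset.sum_eq_single b]
    · rw [Finset.prod_eq_one, mul_one, sub_self]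
      intro i _
      rw [Int.cast_natCast]
      exact hself _ (b i).2
    · intro a _ hab
      obtain ⟨i, hi⟩ := Function.ne_iff.1 hab
      rw [Finset.prod_eq_zero (Finset.mem_univ i), mul_zero]
      rw [Int.cast_natCast]
      exact hne _ _ (fun h => hi (Fin.ext h)) (b i).2
    · intro h
      exact absurd (Finset.mem_univ b) h
  have hline : ∀ (i : Fin d) (x : Fin d → ℤ) (n : ℤ),
      (fwdDiff (1 : ℤ))^[K] (fun n : ℤ => g (Function.update x i n)) n = 0 := by
    intro i x n
    have hfun : (fun n : ℤ => g (Function.update x i n)) =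
        (fun n : ℤ => q (Function.update x i n)) +
          ∑ a : Fin d → Fin K, (-(q (fun i => ((a i : ℕ) : ℤ)) *
            ∏ j ∈ Finset.univ.erase i, (ℓ (a j)).eval (x j : ℝ))) •
              (fun n : ℤ => (ℓ (a i)).eval (n : ℝ)) := by
      funext m
      rw [Pi.add_apply, Finset.sum_apply]
      show q (Function.update x i m) - ∑ a : Fin d → Fin K, q (fun i => ((a i : ℕ) : ℤ)) *
        ∏ j, (ℓ (a j)).eval ((Function.update x i m j : ℤ) : ℝ) = _
      rw [sub_eq_add_neg, ← Finset.sum_neg_distrib]
      refine congrArg₂ (· + ·) rfl (Finset.sum_congr rfl fun a _ => ?_)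
      rw [Pi.smul_apply, smul_eq_mul, ← Finset.mul_prod_erase Finset.univ _ (Finset.mem_univ i),
        Function.update_self]
      have h1 : ∏ j ∈ Finset.univ.erase i, (ℓ (a j)).eval ((Function.update x i m j : ℤ) : ℝ) =
          ∏ j ∈ Finset.univ.erase i, (ℓ (a j)).eval (x j : ℝ) := by
        refine Finset.prod_congr rfl fun j hj => ?_
        rw [Function.update_of_ne (Finset.ne_of_mem_erase hj)]
      rw [h1]
      ring
    rw [hfun, fwdDiff_iter_add, Pi.add_apply, fwdDiff_iter_finsetSum, Finset.sum_apply,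
      Itp_line_iter, hq, zero_add]
    refine Finset.sum_eq_zero fun a _ => ?_
    rw [fwdDiff_iter_const_smul, Pi.smul_apply, Itp_poly_iter (hdeg _ (a i).2), smul_zero]
  have hT : ∀ T : Finset (Fin d), ∀ x : Fin d → ℤ,
      (∀ i, i ∉ T → ∃ m : Fin K, x i = ((m : ℕ) : ℤ)) → g x = 0 := by
    intro T
    induction T using Finset.induction_on with
    | empty =>
      intro x hx
      choose b hb using fun i => hx i (Finset.notMem_empty i)
      have h : x = fun i => ((b i : ℕ) : ℤ) := funext hb
      rw [h]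
      exact hgrid b
    | insert i T _ ih =>
      intro x hx
      have h := line_zero (hline i x) (fun n hn => by
        refine ih _ fun j hj => ?_
        by_cases hji : j = i
        · subst hji
          exact ⟨⟨n, hn⟩, by rw [Function.update_self]⟩
        · obtain ⟨m, hm⟩ := hx j (by
            rw [Finset.mem_insert]
            rintro (h | h)
            · exact hji h
            · exact hj h)
          exact ⟨m, by rw [Function.update_of_ne hji, hm]⟩) (x i)
      rw [Function.update_eq_self] at h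
      exact h
  refine ⟨∑ a : Fin d → Fin K, MvPolynomial.C (q fun i => ((a i : ℕ) : ℤ)) *
    ∏ i, Polynomial.aeval (MvPolynomial.X i) (ℓ (a i)), fun x => ?_⟩
  have h1 : g x = 0 := hT Finset.univ x fun i hi => absurd (Finset.mem_univ i) hi
  have h2 : q x = ∑ a : Fin d → Fin K, q (fun i => ((a i : ℕ) : ℤ)) *
      ∏ i, (ℓ (a i)).eval (x i : ℝ) := sub_eq_zero.1 h1
  rw [h2, map_sum]
  refine Finset.sum_congr rfl fun a _ => ?_
  rw [map_mul, MvPolynomial.eval_C, map_prod]
  refine congrArg _ (Finset.prod_congr rfl fun i _ => ?_)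
  rw [Itp_eval]

end IPC
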