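import Pool.Agent.Lib.MP_25e40f_pr.F.Det
import Pool.Agent.Lib.MP_25e40f_pr.F.Bad
import Pool.Agent.Lib.MP_25e40f_pr.B.Dom

/-!
# MP_25e40f_pr, stream F: one step of the expansion in a deep domain, up to an error `ε τ_D(0, v)` (job One, about 130 lines)

`bad_small` three times: `r1` for `(r0, ε/4)`, `r2` for `(r1, ε/4)`, `r3` for `(r2, ε/4)`.  Let `r ≥ r3`, `Adm d r0 F A`, `Deep d (r + 1) D v`.  `domain_step` with `B = Λ_r` (`Λ_r ⊆ Λ_{r+1} ⊆ D`; `(Zg d).step`):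
`Pr(Thru) - ∑ = Pr(EP ω A F v) + Pr(∃ q, GD ∧ ¬ Cl ⊆ Λ_r)`, both are `≥ 0` (`Pr_nonneg`); `v ∉ Λ_{r+1}`, so `v ∉ Λ_{r1}` (`Lam_le`): `Pr(EP) ≤ Pr(BadE r0 r1) ≤ ε/4 τ` (`det_EP`, `Pr_mono`), and `¬ Cl ⊆ Λ_r` implies `¬ Cl ⊆ Λ_{r3}` (`Lam_le`), `det_GD`,
`Pr_or_le` or similar (union bound): `Pr(∃ q ..) ≤ Pr(BadE r0 r1) + Pr(BadE r1 r2) + Pr(BadE r2 r3) ≤ 3 ε/4 τ`.  (`Λ_{r0} ⊆ D` etc. by `Lam_le`, `Deep.sub`.)
-/

set_option autoImplicit false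

noncomputable section

open Finset
open scoped Classical

namespace IPC

variable {d : ℕ}

/-- the main term of one step of the expansion -/
def stepD (d : ℕ) (p : ℝ) (r : ℕ) (D : Finset (Fin d → ℤ)) (v : Fin d → ℤ) (F : Finset (Fin d → ℤ))
    (A : Set (Fin d → ℤ)) : ℝ :=
  ∑ x ∈ (Zg d).Lam r, ∑ x2 ∈ (Zg d).nb x, ∑ S ∈ ((Zg d).Lam r).powerset,
    (Zg d).cc p F A (x, x2) S * ((Zg d).tauD p D x2 v -
      Pr p ((Zg d).ein D) (fun ω => Thru ω (S : Set (Fin d → ℤ)) {x2} v))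

theorem one_step {p : ℝ} (h0 : 0 < p) (h1 : p ≤ 1 / 2) (hN : (Zg d).NoPerc p) (r0 : ℕ) {ε : ℝ}
    (hε : 0 < ε) : ∃ r3 : ℕ, r0 ≤ r3 ∧ ∀ (F : Finset (Fin d → ℤ)) (A : Set (Fin d → ℤ)),
      Adm d r0 F A → ∀ r ≥ r3, ∀ (D : Finset (Fin d → ℤ)) (v : Fin d → ℤ), Deep d (r + 1) D v →
        |Pr p ((Zg d).ein D) (fun ω => Thru ω A F v) - stepD d p r D v F A| ≤
          ε * (Zg d).tauD p D 0 v := by
  have h1' : p ≤ 1 := by linarith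
  have hε4 : 0 < ε / 4 := by linarith
  obtain ⟨r1, h01, hb1⟩ := bad_small h0 h1 hN r0 hε4
  obtain ⟨r2, h12, hb2⟩ := bad_small h0 h1 hN r1 hε4
  obtain ⟨r3, h23, hb3⟩ := bad_small h0 h1 hN r2 hε4
  refine ⟨r3, by omega, fun F A hA r hr D v hD => ?_⟩
  have s0 : (Zg d).Lam r0 ⊆ D := (Lam_le (by omega)).trans hD.sub
  have s1 : (Zg d).Lam r1 ⊆ D := (Lam_le (by omega)).trans hD.sub
  have s2 : (Zg d).Lam r2 ⊆ D := (Lam_le (by omega)).trans hD.sub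
  have sB : (Zg d).Lam r ⊆ D := (Lam_le (by omega)).trans hD.sub
  have hnb : ∀ x ∈ (Zg d).Lam r, (Zg d).nb x ⊆ D := fun x hx => ((Zg d).step r x hx).trans hD.sub
  have hv : v ∉ (Zg d).Lam r1 := fun h => hD.out (Lam_le (by omega) h)
  have e1 := domain_step (Zg d) p sB hnb hA.1 A v
  have hEP : Pr p ((Zg d).ein D) (fun ω => EP ω A F v) ≤ ε / 4 * (Zg d).tauD p D 0 v :=
    (Pr_mono h0.le h1' _ fun ω _ h => det_EP hA hv h).trans (hb1 D v s0)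
  have hGD : Pr p ((Zg d).ein D) (fun ω => ∃ q ∈ darts ((Zg d).ein D), GD ω A F v q ∧
      ¬ Cl (ω.erase s(q.1, q.2)) F ⊆ ((Zg d).Lam r : Set (Fin d → ℤ))) ≤
      3 * (ε / 4 * (Zg d).tauD p D 0 v) := by
    have h2 : Pr p ((Zg d).ein D) (fun ω => ∃ q ∈ darts ((Zg d).ein D), GD ω A F v q ∧
        ¬ Cl (ω.erase s(q.1, q.2)) F ⊆ ((Zg d).Lam r : Set (Fin d → ℤ))) ≤
        Pr p ((Zg d).ein D) (fun ω => BadE d r0 r1 v ω ∨ (BadE d r1 r2 v ω ∨ BadE d r2 r3 v ω)) := by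
      refine Pr_mono h0.le h1' _ ?_
      rintro ω _ ⟨q, _, hG, hC⟩
      refine det_GD h01.le h12.le hA hG fun h3 => hC (h3.trans ?_)
      exact Finset.coe_subset.2 (Lam_le hr)
    have h3 := Pr_or_le h0.le h1' ((Zg d).ein D) (fun ω => BadE d r0 r1 v ω)
      (fun ω => BadE d r1 r2 v ω ∨ BadE d r2 r3 v ω)
    have h4 := Pr_or_le h0.le h1' ((Zg d).ein D) (fun ω => BadE d r1 r2 v ω)
      (fun ω => BadE d r2 r3 v ω)
    have h5 := hb1 D v s0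
    have h6 := hb2 D v s1
    have h7 := hb3 D v s2
    linarith
  have hEP0 : 0 ≤ Pr p ((Zg d).ein D) (fun ω => EP ω A F v) := Pr_nonneg h0.le h1' _ _
  have hGD0 : 0 ≤ Pr p ((Zg d).ein D) (fun ω => ∃ q ∈ darts ((Zg d).ein D), GD ω A F v q ∧
      ¬ Cl (ω.erase s(q.1, q.2)) F ⊆ ((Zg d).Lam r : Set (Fin d → ℤ))) := Pr_nonneg h0.le h1' _ _
  have e2 : Pr p ((Zg d).ein D) (fun ω => Thru ω A F v) - stepD d p r D v F A =
      Pr p ((Zg d).ein D) (fun ω => EP ω A F v) +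
      Pr p ((Zg d).ein D) (fun ω => ∃ q ∈ darts ((Zg d).ein D), GD ω A F v q ∧
        ¬ Cl (ω.erase s(q.1, q.2)) F ⊆ ((Zg d).Lam r : Set (Fin d → ℤ))) := by
    rw [e1]
    unfold stepD
    ring
  rw [e2, abs_of_nonneg (add_nonneg hEP0 hGD0)]
  linarith

end IPC
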