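import Pool.Agent.Lib.MP_25e40f_pr.F.Ulm
import Pool.Agent.Lib.MP_25e40f_pr.F.One
import Pool.Agent.Lib.MP_25e40f_pr.T.Hs

/-!
# MP_25e40f_pr, stream F: the limits of the ratios along a sequence of deep domains (job Lim, about 190 lines)

Write `t n = τ_{D n}(0, v n) > 0` (`hS.pos`).
`qq_lim`: the growth hypothesis for `x` gives `ρ`; eventually `Deep d ρ (D n) (v n)`, so `0 ≤ τ_{D n}(x, v n) / t n ≤ C (1+‖x‖)^k` (`div_le_iff₀`, `T.tauD_nonneg`); `ul_tendsto`.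
`qq_nonneg`, `qq_bound`, `qq_zero`: by `ul_le` with constant sequences (`tendsto_const_nhds`), `ul_eq` (`t n / t n = 1`).
`et_lim`: for `f ∈ F`: `Thru ω A F v → Conn ω f v`, so `0 ≤ Pr(Thru) ≤ τ_{D n}(f, v n)` (`Pr_mono`, `Pr_nonneg` of A/Prb): the ratio is eventually bounded.
`et_nonneg`, `et_le`: by `ul_le`.  `et_univ`: `Thru ω univ {x} v ↔ AllConn ω {x} v ↔ Conn ω x v` (`T.thru_univ_iff`), so the two sequences are equal (`ul_congr`, `Pr_congr`).  `et_all`: the same for `F`.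
`et_step`: `Metric.tendsto_atTop` or `tendsto_order`: let `ε > 0`; `one_step` with `ε / 2` gives `r3`; let `r ≥ r3`; eventually in `n` `Deep d (r+1) (D n) (v n)`, hence `|Pr(Thru)/t n - stepD d p r (D n) (v n) F A / t n| ≤ ε/2` (divide by `t n > 0`);
`stepD .. / t n = ∑ x, ∑ x2, ∑ S, cc * (τ(x2,v)/t - Pr(Thru S {x2})/t)` (`Finset.sum_div`), which tends to `∑∑∑ cc * (qq x2 - et {x2} S)` along the ultrafilter (`tendsto_finset_sum`, `qq_lim`, `et_lim` for `{x2}`); `ul_close`.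
-/

set_option autoImplicit false

noncomputable section

open Finset Filter
open scoped Classical

namespace IPC

variable {d : ℕ}

/-- a sequence of domains and targets which become deep and far -/
structure Sq (d : ℕ) (p : ℝ) (D : ℕ → Finset (Fin d → ℤ)) (v : ℕ → Fin d → ℤ) : Prop where
  deep : ∀ r : ℕ, ∀ᶠ n in atTop, Deep d r (D n) (v n)
  pos : ∀ n, 0 < (Zg d).tauD p (D n) 0 (v n)

/-- the growth lemma as a property -/
def Gro (d : ℕ) (p : ℝ) (k : ℕ) (C : ℝ) : Prop := ∀ u : Fin d → ℤ, ∃ ρ : ℕ,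
  ∀ (D : Finset (Fin d → ℤ)) (v : Fin d → ℤ), Deep d ρ D v →
    (Zg d).tauD p D u v ≤ C * (1 + ‖u‖) ^ k * (Zg d).tauD p D 0 v

/-- limit of the ratios of the two point functions -/
def qq (d : ℕ) (p : ℝ) (D : ℕ → Finset (Fin d → ℤ)) (v : ℕ → Fin d → ℤ) (x : Fin d → ℤ) : ℝ :=
  ul fun n => (Zg d).tauD p (D n) x (v n) / (Zg d).tauD p (D n) 0 (v n)

/-- limit of the ratios for the events `Thru` -/
def et (d : ℕ) (p : ℝ) (D : ℕ → Finset (Fin d → ℤ)) (v : ℕ → Fin d → ℤ) (F : Finset (Fin d → ℤ))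
    (A : Set (Fin d → ℤ)) : ℝ :=
  ul fun n => Pr p ((Zg d).ein (D n)) (fun ω => Thru ω A F (v n)) / (Zg d).tauD p (D n) 0 (v n)

variable {p C : ℝ} {k : ℕ} {D : ℕ → Finset (Fin d → ℤ)} {v : ℕ → Fin d → ℤ}

private theorem lim_qb (h0 : 0 < p) (h1 : p ≤ 1 / 2) (hG : Gro d p k C) (hS : Sq d p D v)
    (x : Fin d → ℤ) : ∀ᶠ n in atTop,
      0 ≤ (Zg d).tauD p (D n) x (v n) / (Zg d).tauD p (D n) 0 (v n) ∧
      (Zg d).tauD p (D n) x (v n) / (Zg d).tauD p (D n) 0 (v n) ≤ C * (1 + ‖x‖) ^ k := by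
  obtain ⟨ρ, hρ⟩ := hG x
  filter_upwards [hS.deep ρ] with n hn
  exact ⟨div_nonneg (T.tauD_nonneg (Zg d) h0.le (by linarith) _ _ _) (hS.pos n).le,
    (div_le_iff₀ (hS.pos n)).2 (hρ (D n) (v n) hn)⟩

private theorem lim_eb (h0 : 0 < p) (h1 : p ≤ 1 / 2) (hS : Sq d p D v)
    {F : Finset (Fin d → ℤ)} {f : Fin d → ℤ} (hf : f ∈ F) (A : Set (Fin d → ℤ)) (n : ℕ) :
      0 ≤ Pr p ((Zg d).ein (D n)) (fun ω => Thru ω A F (v n)) / (Zg d).tauD p (D n) 0 (v n) ∧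
      Pr p ((Zg d).ein (D n)) (fun ω => Thru ω A F (v n)) / (Zg d).tauD p (D n) 0 (v n) ≤
        (Zg d).tauD p (D n) f (v n) / (Zg d).tauD p (D n) 0 (v n) := by
  have hp : p ≤ 1 := by linarith
  refine ⟨div_nonneg (Pr_nonneg h0.le hp _ _) (hS.pos n).le, ?_⟩
  refine div_le_div_of_nonneg_right ?_ (hS.pos n).le
  exact Pr_mono h0.le hp _ fun ω _ hω => hω.1 f hf

theorem qq_lim (h0 : 0 < p) (h1 : p ≤ 1 / 2) (hC : 0 ≤ C) (hG : Gro d p k C) (hS : Sq d p D v)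
    (x : Fin d → ℤ) :
    Tendsto (fun n => (Zg d).tauD p (D n) x (v n) / (Zg d).tauD p (D n) 0 (v n))
      (hyperfilter ℕ : Filter ℕ) (nhds (qq d p D v x)) := by
  refine ul_tendsto (C := C * (1 + ‖x‖) ^ k) ?_
  filter_upwards [lim_qb h0 h1 hG hS x] with n hn
  rw [abs_of_nonneg hn.1]
  exact hn.2

theorem qq_nonneg (h0 : 0 < p) (h1 : p ≤ 1 / 2) (hC : 0 ≤ C) (hG : Gro d p k C) (hS : Sq d p D v)
    (x : Fin d → ℤ) : 0 ≤ qq d p D v x :=
  ul_le tendsto_const_nhds (qq_lim h0 h1 hC hG hS x)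
    ((lim_qb h0 h1 hG hS x).mono fun _ hn => hn.1)

theorem qq_bound (h0 : 0 < p) (h1 : p ≤ 1 / 2) (hC : 0 ≤ C) (hG : Gro d p k C) (hS : Sq d p D v)
    (x : Fin d → ℤ) : qq d p D v x ≤ C * (1 + ‖x‖) ^ k :=
  ul_le (qq_lim h0 h1 hC hG hS x) tendsto_const_nhds
    ((lim_qb h0 h1 hG hS x).mono fun _ hn => hn.2)

theorem qq_zero (hS : Sq d p D v) : qq d p D v 0 = 1 := by
  refine ul_eq ?_
  have h : (fun n => (Zg d).tauD p (D n) 0 (v n) / (Zg d).tauD p (D n) 0 (v n)) =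
      fun _ : ℕ => (1 : ℝ) := by
    funext n
    exact div_self (hS.pos n).ne'
  rw [h]
  exact tendsto_const_nhds

theorem et_lim (h0 : 0 < p) (h1 : p ≤ 1 / 2) (hC : 0 ≤ C) (hG : Gro d p k C) (hS : Sq d p D v)
    {F : Finset (Fin d → ℤ)} (hF : F.Nonempty) (A : Set (Fin d → ℤ)) :
    Tendsto (fun n => Pr p ((Zg d).ein (D n)) (fun ω => Thru ω A F (v n)) /
      (Zg d).tauD p (D n) 0 (v n)) (hyperfilter ℕ : Filter ℕ) (nhds (et d p D v F A)) := by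
  obtain ⟨f, hf⟩ := hF
  refine ul_tendsto (C := C * (1 + ‖f‖) ^ k) ?_
  filter_upwards [lim_qb h0 h1 hG hS f] with n hn
  have h2 := lim_eb h0 h1 hS hf A n
  rw [abs_of_nonneg h2.1]
  exact h2.2.trans hn.2

theorem et_nonneg (h0 : 0 < p) (h1 : p ≤ 1 / 2) (hC : 0 ≤ C) (hG : Gro d p k C) (hS : Sq d p D v)
    {F : Finset (Fin d → ℤ)} (hF : F.Nonempty) (A : Set (Fin d → ℤ)) : 0 ≤ et d p D v F A := by
  obtain ⟨f, hf⟩ := hF
  exact ul_le tendsto_const_nhds (et_lim h0 h1 hC hG hS ⟨f, hf⟩ A)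
    (Eventually.of_forall fun n => (lim_eb h0 h1 hS hf A n).1)

theorem et_le (h0 : 0 < p) (h1 : p ≤ 1 / 2) (hC : 0 ≤ C) (hG : Gro d p k C) (hS : Sq d p D v)
    {F : Finset (Fin d → ℤ)} {f : Fin d → ℤ} (hf : f ∈ F) (A : Set (Fin d → ℤ)) :
    et d p D v F A ≤ qq d p D v f :=
  ul_le (et_lim h0 h1 hC hG hS ⟨f, hf⟩ A) (qq_lim h0 h1 hC hG hS f)
    (Eventually.of_forall fun n => (lim_eb h0 h1 hS hf A n).2)

theorem et_univ (x : Fin d → ℤ) : et d p D v {x} Set.univ = qq d p D v x := by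
  refine ul_congr fun n => ?_
  have h : Pr p ((Zg d).ein (D n)) (fun ω => Thru ω Set.univ {x} (v n)) =
      (Zg d).tauD p (D n) x (v n) := by
    refine Pr_congr p _ fun ω _ => ?_
    rw [T.thru_univ_iff]
    unfold AllConn
    simp
  rw [h]

theorem et_all (F : Finset (Fin d → ℤ)) : et d p D v F Set.univ =
    ul fun n => Pr p ((Zg d).ein (D n)) (fun ω => AllConn ω F (v n)) /
      (Zg d).tauD p (D n) 0 (v n) := by
  refine ul_congr fun n => ?_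
  have h : Pr p ((Zg d).ein (D n)) (fun ω => Thru ω Set.univ F (v n)) =
      Pr p ((Zg d).ein (D n)) (fun ω => AllConn ω F (v n)) :=
    Pr_congr p _ fun ω _ => T.thru_univ_iff
  rw [h]

theorem et_step (h0 : 0 < p) (h1 : p ≤ 1 / 2) (hN : (Zg d).NoPerc p) (hC : 0 ≤ C)
    (hG : Gro d p k C) (hS : Sq d p D v) {r0 : ℕ} {F : Finset (Fin d → ℤ)} {A : Set (Fin d → ℤ)}
    (hA : Adm d r0 F A) :
    Tendsto (fun r => ∑ x ∈ (Zg d).Lam r, ∑ x2 ∈ (Zg d).nb x, ∑ S ∈ ((Zg d).Lam r).powerset,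
      (Zg d).cc p F A (x, x2) S * (qq d p D v x2 - et d p D v {x2} (S : Set (Fin d → ℤ)))) atTop
      (nhds (et d p D v F A)) := by
  rw [Metric.tendsto_atTop]
  intro ε hε
  obtain ⟨r3, -, h3⟩ := one_step (d := d) h0 h1 hN r0 (half_pos hε)
  refine ⟨r3, fun r hr => ?_⟩
  have ha := et_lim h0 h1 hC hG hS hA.1 A
  have hb : Tendsto (fun n => stepD d p r (D n) (v n) F A / (Zg d).tauD p (D n) 0 (v n))
      (hyperfilter ℕ : Filter ℕ)
      (nhds (∑ x ∈ (Zg d).Lam r, ∑ x2 ∈ (Zg d).nb x, ∑ S ∈ ((Zg d).Lam r).powerset,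
        (Zg d).cc p F A (x, x2) S *
          (qq d p D v x2 - et d p D v {x2} (S : Set (Fin d → ℤ))))) := by
    have e : ∀ n, stepD d p r (D n) (v n) F A / (Zg d).tauD p (D n) 0 (v n) =
        ∑ x ∈ (Zg d).Lam r, ∑ x2 ∈ (Zg d).nb x, ∑ S ∈ ((Zg d).Lam r).powerset,
          (Zg d).cc p F A (x, x2) S *
            ((Zg d).tauD p (D n) x2 (v n) / (Zg d).tauD p (D n) 0 (v n) -
            Pr p ((Zg d).ein (D n)) (fun ω => Thru ω (S : Set (Fin d → ℤ)) {x2} (v n)) /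
              (Zg d).tauD p (D n) 0 (v n)) := by
      intro n
      unfold stepD
      simp only [Finset.sum_div, mul_div_assoc, sub_div]
    simp only [e]
    refine tendsto_finset_sum _ fun x _ => tendsto_finset_sum _ fun x2 _ =>
      tendsto_finset_sum _ fun S _ => ?_
    exact ((qq_lim h0 h1 hC hG hS x2).sub
      (et_lim h0 h1 hC hG hS (Finset.singleton_nonempty x2) (S : Set (Fin d → ℤ)))).const_mul _
  have hc := ul_close ha hb (ε := ε / 2) (by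
    filter_upwards [hS.deep (r + 1)] with n hn
    rw [← sub_div, abs_div, abs_of_pos (hS.pos n), div_le_iff₀ (hS.pos n)]
    exact h3 F A hA r hr (D n) (v n) hn)
  rw [dist_comm, Real.dist_eq]
  linarith

end IPC
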