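import Pool.Agent.Lib.MP_25e40f_pr.F.Rep

/-!
# MP_25e40f_pr, stream F: a theorem of Liouville type (job Lio, about 130 lines)

`dK_conv`: `f (x) = ∑' y, V y * r (x - y)` with `|r z| ≤ R (1+‖z‖)^k`: `fwdDiff_iter_eq_sum_shift` on the left: `dK i K f x = ∑_{j ≤ K} c_j f (x + j • e)`, `f (x + j • e) = ∑' y, V y * r (x + j • e - y) = ∑' y, V (y + j • e) * r (x - y)`
(`Equiv.addRight`/`Equiv.tsum_eq`), so by finite linearity `dK i K f x = ∑' y, (dK i K V y) * r (x - y)`.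
`dK_summable`: `(1+‖y‖)^k |dK i K V y|` is summable: finite sum of shifts of `V` (`(1+‖y‖) ≤ (1+‖y + j • e‖)(1+‖j • e‖)`).
`liouville`: for all `m`: `|dK i K q x| ≤ ∑' |dK i K (V m) y| |rr (x - y)| ≤ Cq ε_m (1+‖x‖)^k ∑' (1+‖y‖)^k |dK i K (V m) y|` by `rr_rep`, `dK_conv`, `rr_bound`, `one_add_norm_sub_le`; the last sum is `≤ C sqrt M`
(`weighted_cs` with `bd0`, `bd`, `Summable.tsum_le_of_sum_le` or `tsum_le_of_sum_le`), `ε_m = ∑' (1+‖y‖)^k |J y - Jm m y| → 0` (`lim`): so `|dK i K q x| ≤ 0` (`ge_of_tendsto`).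
`Cq ≥ 0` from the bound at `x = 0`.
-/

set_option autoImplicit false

noncomputable section

open Finset Filter Topology

namespace IPC

private theorem Lio_sum_aux {d k : ℕ} {V r : (Fin d → ℤ) → ℝ} {R : ℝ}
    (hV : Summable fun y : Fin d → ℤ => (1 + ‖y‖) ^ k * |V y|)
    (hr : ∀ z, |r z| ≤ R * (1 + ‖z‖) ^ k) (x : Fin d → ℤ) :
    Summable fun y : Fin d → ℤ => V y * r (x - y) := by
  have hR : 0 ≤ R := by
    have h := hr 0
    have h2 : 0 ≤ |r 0| := abs_nonneg _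
    simp only [norm_zero, add_zero, one_pow, mul_one] at h
    linarith
  refine Summable.of_norm_bounded (g := fun y : Fin d → ℤ => (R * (1 + ‖x‖) ^ k) * ((1 + ‖y‖) ^ k * |V y|))
    (hV.mul_left _) (fun y => ?_)
  rw [Real.norm_eq_abs, abs_mul]
  have h1 : |r (x - y)| ≤ R * ((1 + ‖x‖) ^ k * (1 + ‖y‖) ^ k) := by
    refine (hr (x - y)).trans (mul_le_mul_of_nonneg_left ?_ hR)
    rw [← mul_pow]
    exact pow_le_pow_left₀ (by positivity) (one_add_norm_sub_le x y) k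
  calc |V y| * |r (x - y)| ≤ |V y| * (R * ((1 + ‖x‖) ^ k * (1 + ‖y‖) ^ k)) :=
        mul_le_mul_of_nonneg_left h1 (abs_nonneg _)
    _ = (R * (1 + ‖x‖) ^ k) * ((1 + ‖y‖) ^ k * |V y|) := by ring

private theorem Lio_dK_eq {d : ℕ} (i : Fin d) (K : ℕ) (f : (Fin d → ℤ) → ℝ) (x : Fin d → ℤ) :
    dK i K f x = ∑ j ∈ range (K + 1), ((-1 : ℤ) ^ (K - j) * K.choose j) •
      f (x + j • Pi.single i (1 : ℤ)) := by
  unfold dK
  exact fwdDiff_iter_eq_sum_shift (Pi.single i (1 : ℤ)) f K x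

theorem dK_conv {d k K : ℕ} {V r f : (Fin d → ℤ) → ℝ} {R : ℝ} (i : Fin d)
    (hV : Summable fun y : Fin d → ℤ => (1 + ‖y‖) ^ k * |V y|)
    (hr : ∀ z, |r z| ≤ R * (1 + ‖z‖) ^ k) (hf : ∀ x, f x = ∑' y, V y * r (x - y))
    (x : Fin d → ℤ) : dK i K f x = ∑' y, dK i K V y * r (x - y) := by
  have key : ∀ a : Fin d → ℤ, f (x + a) = ∑' y, V (y + a) * r (x - y) := by
    intro a
    rw [hf (x + a), ← (Equiv.addRight a).tsum_eq (fun y => V y * r (x + a - y))]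
    refine tsum_congr (fun y => ?_)
    simp only [Equiv.coe_addRight]
    rw [add_sub_add_right_eq_sub]
  have ks : ∀ a : Fin d → ℤ, Summable fun y : Fin d → ℤ => V (y + a) * r (x - y) := by
    intro a
    have h := (Equiv.addRight a).summable_iff.mpr (Lio_sum_aux hV hr (x + a))
    refine h.congr (fun y => ?_)
    simp only [Function.comp_apply, Equiv.coe_addRight]
    rw [add_sub_add_right_eq_sub]
  rw [Lio_dK_eq]
  have e1 : ∀ y, dK i K V y * r (x - y) = ∑ j ∈ range (K + 1), ((-1 : ℤ) ^ (K - j) * K.choose j) •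
      (V (y + j • Pi.single i (1 : ℤ)) * r (x - y)) := by
    intro y
    rw [Lio_dK_eq, Finset.sum_mul]
    refine Finset.sum_congr rfl (fun j _ => ?_)
    rw [smul_mul_assoc]
  rw [tsum_congr e1, Summable.tsum_finsetSum (fun j _ => (ks _).const_smul _)]
  refine Finset.sum_congr rfl (fun j _ => ?_)
  rw [key, Summable.tsum_const_smul _ (ks _)]

private theorem Lio_shift {d k : ℕ} {V : (Fin d → ℤ) → ℝ}
    (hV : Summable fun y : Fin d → ℤ => (1 + ‖y‖) ^ k * |V y|) (a : Fin d → ℤ) :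
    Summable fun y : Fin d → ℤ => (1 + ‖y‖) ^ k * |V (y + a)| := by
  have h := (Equiv.addRight a).summable_iff.mpr hV
  refine Summable.of_nonneg_of_le (fun y => by positivity) (fun y => ?_)
    (h.mul_left ((1 + ‖a‖) ^ k))
  simp only [Function.comp_apply, Equiv.coe_addRight]
  have h1 : (1 + ‖y‖) ^ k ≤ (1 + ‖a‖) ^ k * (1 + ‖y + a‖) ^ k := by
    rw [← mul_pow]
    refine pow_le_pow_left₀ (by positivity) ?_ k
    have h2 := one_add_norm_sub_le (y + a) a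
    rw [add_sub_cancel_right] at h2
    rw [mul_comm]
    exact h2
  calc (1 + ‖y‖) ^ k * |V (y + a)| ≤ ((1 + ‖a‖) ^ k * (1 + ‖y + a‖) ^ k) * |V (y + a)| :=
        mul_le_mul_of_nonneg_right h1 (abs_nonneg _)
    _ = (1 + ‖a‖) ^ k * ((1 + ‖y + a‖) ^ k * |V (y + a)|) := by ring

private theorem Lio_dK_eq' {d : ℕ} (i : Fin d) (K : ℕ) : ∃ c : ℕ → ℝ, ∀ (f : (Fin d → ℤ) → ℝ)
    (x : Fin d → ℤ), dK i K f x = ∑ j ∈ range (K + 1), c j * f (x + j • Pi.single i (1 : ℤ)) := by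
  refine ⟨fun j => (((-1 : ℤ) ^ (K - j) * K.choose j : ℤ) : ℝ), fun f x => ?_⟩
  rw [Lio_dK_eq]
  exact Finset.sum_congr rfl (fun j _ => zsmul_eq_mul _ _)

theorem dK_summable {d k : ℕ} (K : ℕ) {V : (Fin d → ℤ) → ℝ} (i : Fin d)
    (hV : Summable fun y : Fin d → ℤ => (1 + ‖y‖) ^ k * |V y|) :
    Summable fun y : Fin d → ℤ => (1 + ‖y‖) ^ k * |dK i K V y| := by
  obtain ⟨c, hc⟩ := Lio_dK_eq' i K
  have ht : Summable fun y : Fin d → ℤ => ∑ j ∈ range (K + 1),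
      |c j| * ((1 + ‖y‖) ^ k * |V (y + j • Pi.single i (1 : ℤ))|) :=
    summable_sum (fun j _ => (Lio_shift hV _).mul_left _)
  have h1 : ∀ y : Fin d → ℤ, (1 + ‖y‖) ^ k * |dK i K V y| ≤ ∑ j ∈ range (K + 1),
      |c j| * ((1 + ‖y‖) ^ k * |V (y + j • Pi.single i (1 : ℤ))|) := by
    intro y
    rw [hc V y]
    have h2 : |∑ j ∈ range (K + 1), c j * V (y + j • Pi.single i (1 : ℤ))| ≤
        ∑ j ∈ range (K + 1), |c j * V (y + j • Pi.single i (1 : ℤ))| :=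
      Finset.abs_sum_le_sum_abs _ _
    refine (mul_le_mul_of_nonneg_left h2 (by positivity)).trans (le_of_eq ?_)
    rw [Finset.mul_sum]
    refine Finset.sum_congr rfl (fun j _ => ?_)
    rw [abs_mul]
    ring
  have h0 : ∀ y : Fin d → ℤ, 0 ≤ (1 + ‖y‖) ^ k * |dK i K V y| := fun y =>
    mul_nonneg (pow_nonneg (add_nonneg zero_le_one (norm_nonneg y)) k) (abs_nonneg _)
  exact Summable.of_nonneg_of_le h0 h1 ht

theorem liouville {d k s K : ℕ} (hs : d + 2 * k < 2 * s) {J : (Fin d → ℤ) → ℝ}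
    {V Jm : ℕ → (Fin d → ℤ) → ℝ} {M : ℝ} (A : Apx d k s K J V Jm M) {q : (Fin d → ℤ) → ℝ} {Cq : ℝ}
    (hg : ∀ x, |q x| ≤ Cq * (1 + ‖x‖) ^ k) (hq : ∀ x, q x = ∑' y, J y * q (x - y)) :
    ∀ i x, dK i K q x = 0 := by
  intro i x
  obtain ⟨C, hC0, hC⟩ := weighted_cs d k s hs
  have hCq : 0 ≤ Cq := by
    have h := hg 0
    have h2 : 0 ≤ |q 0| := abs_nonneg _
    simp only [norm_zero, add_zero, one_pow, mul_one] at h
    linarith
  have main : ∀ m, |dK i K q x| ≤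
      (Cq * (∑' y : Fin d → ℤ, (1 + ‖y‖) ^ k * |J y - Jm m y|)) *
        ((1 + ‖x‖) ^ k * (C * Real.sqrt M)) := by
    intro m
    set E : ℝ := ∑' y : Fin d → ℤ, (1 + ‖y‖) ^ k * |J y - Jm m y| with hE
    have hE0 : 0 ≤ E := tsum_nonneg (fun y => by positivity)
    have hr := fun z => rr_bound A.hJ (A.hJm m) hg z
    have hrep := fun z => rr_rep A.hJ (A.hJm m) (A.hV m) (A.inv m) hg hq z
    rw [dK_conv i (A.hV m) hr hrep x]
    have hsum := dK_summable K i (A.hV m)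
    have hle : ∑' y : Fin d → ℤ, (1 + ‖y‖) ^ k * |dK i K (V m) y| ≤ C * Real.sqrt M :=
      hsum.tsum_le_of_sum_le (fun T => hC (dK i K (V m)) M A.hM (A.bd0 m i) (A.bd m i) T)
    have hb := tsum_of_norm_bounded
      (f := fun y : Fin d → ℤ => dK i K (V m) y * rr J (Jm m) q (x - y))
      (g := fun y : Fin d → ℤ => (Cq * E * (1 + ‖x‖) ^ k) * ((1 + ‖y‖) ^ k * |dK i K (V m) y|))
      (hsum.mul_left _).hasSum (fun y => by
        rw [Real.norm_eq_abs, abs_mul]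
        have h1 : |rr J (Jm m) q (x - y)| ≤ Cq * E * ((1 + ‖x‖) ^ k * (1 + ‖y‖) ^ k) := by
          refine (hr (x - y)).trans (mul_le_mul_of_nonneg_left ?_ (mul_nonneg hCq hE0))
          rw [← mul_pow]
          exact pow_le_pow_left₀ (by positivity) (one_add_norm_sub_le x y) k
        calc |dK i K (V m) y| * |rr J (Jm m) q (x - y)|
            ≤ |dK i K (V m) y| * (Cq * E * ((1 + ‖x‖) ^ k * (1 + ‖y‖) ^ k)) :=
              mul_le_mul_of_nonneg_left h1 (abs_nonneg _)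
          _ = (Cq * E * (1 + ‖x‖) ^ k) * ((1 + ‖y‖) ^ k * |dK i K (V m) y|) := by ring)
    rw [Real.norm_eq_abs] at hb
    refine hb.trans ?_
    rw [tsum_mul_left]
    calc (Cq * E * (1 + ‖x‖) ^ k) * ∑' y : Fin d → ℤ, (1 + ‖y‖) ^ k * |dK i K (V m) y|
        ≤ (Cq * E * (1 + ‖x‖) ^ k) * (C * Real.sqrt M) :=
          mul_le_mul_of_nonneg_left hle (by positivity)
      _ = (Cq * E) * ((1 + ‖x‖) ^ k * (C * Real.sqrt M)) := by ring
  have hlim : Tendsto (fun m => (Cq * (∑' y : Fin d → ℤ, (1 + ‖y‖) ^ k * |J y - Jm m y|)) *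
        ((1 + ‖x‖) ^ k * (C * Real.sqrt M))) atTop (𝓝 0) := by
    have h := (A.lim.const_mul Cq).mul_const ((1 + ‖x‖) ^ k * (C * Real.sqrt M))
    simpa using h
  have h0 : |dK i K q x| ≤ 0 := ge_of_tendsto' hlim main
  exact abs_nonpos_iff.mp h0

end IPC
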