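import Pool.Agent.Lib.MP_25e40f_pr.F.Uni
import Pool.Agent.Lib.MP_25e40f_pr.F.Bd
import Pool.Agent.Lib.MP_25e40f_pr.F.Eqb
import Pool.Agent.Lib.MP_25e40f_pr.E.ZFinE

/-!
# MP_25e40f_pr, stream F: from the output of stream E to the theorem of Liouville type for the kernel `Jf` (job Lnk, about 170 lines)

`jf_eq`: `Jz d x = ∑' y, Pn pc y * gz d pc (x - y)` with `Pn p y = p * nn d y`, `nn d y = ∑ i, (del d (y - single i 1) + del d (y + single i 1))` (`E/EKA.lean`), `gz d p x = gg (Zg d) p 0 x`; the sum over `y` has at most `2 d` terms: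
`= ∑ i, (pc * gz (x - single i 1) + pc * gz (x + single i 1))` (`tsum_eq_single`, `cv` with `del`; lemmas of `E` about `cv (nn d) f` may exist: grep), and `(Zg d).nb x = nbZ d x` (`rfl`) is the image of `Fin d × Bool` under `Function.update x i (x i ± 1) = x ± single i 1` (injective),
`Finset.sum_image`, `Fintype.sum_prod_type`, `Fintype.sum_bool`.
`lnk_apx`: `obtain ⟨V, Jm, C, hC, hV, hJm, hinv, hSg, hlim⟩ := H.app`; `n = nst d ≥ d - 10` (`le_nst`), `s = d / 2 + 144 ≤ n` (`omega`, `d ≥ 450`).  `M` = `M₀ + M₁` with `M₀`, `M₁` from `dK_bound` (F/Bd) with `a = 0` and `a = s`, `K = s + 2`, constant `C`.  The hypothesis of `dK_bound`: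
for `b ≤ s` and `k` in the cube: if `k = 0` then `‖k‖ ^ (2 + b) = 0`; if `k ≠ 0`, `hSg` (`E/Sg.lean`: `‖FT (mo e b V) k‖ ≤ C * ‖k‖ ^ (-(2 + b) : ℤ)`), `zpow_neg`, `zpow_natCast`, `inv_mul_cancel₀`.
`hJ hJm hV`: `Mo n f` unfolds to the weighted summability, `Mo.mono`.  `inv`: `congrFun (hinv m) x` : `cv (V m) (del - Jm m) x = ∑' y, V m y * (del d (x - y) - Jm m (x - y)) = V m x - ∑' y, V m y * Jm m (x - y)` (`Summable.tsum_sub`, `cv_summable_inner`; `∑' y, V m y * del d (x - y) = V m x`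
by `tsum_eq_single x`), `del d x = if x = 0 then 1 else 0`.  `lim`: `hlim 143`.  `bd0`: `dK_bound` with `a = 0` (`|y e|^0 = 1`; `d ≥ 1` gives some `e`).
`lnk_ker`: `σ = ∑' y, (y 0)^2 J y` (`d > 0`; take `e₀ = ⟨0, _⟩`).  `mom`: `Mo.mono` (`146 ≤ nst d`).  `first`: `f y = y i * J y` is odd under `reflE i` (`E/Mom.lean`): `(reflE i).tsum_eq`, `Ev`: `∑' f = ∑' f ∘ refl = - ∑' f`.  `second`: `i ≠ j`: the same with `refl i` (`refl_other`);
`i = j`: `Sy` with `σ = Equiv.swap i e₀`: the bijection `y ↦ y ∘ σ` of `Fin d → ℤ` (`Equiv.arrowCongr` or `Equiv.piCongrLeft'`; `(fun i => y (σ i)) i = y e₀`), `tsum_eq` of the equivalence.  `pos`: `H.sec` gives `0 < c ≤ σ`.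
`lnk`: `limit_const` (F/Uni) with `k = 143`, `s = d / 2 + 144`, `K = s + 2`: `d + 2 * 143 < 2 * s`.
-/

set_option autoImplicit false

noncomputable section

open Finset Filter
open scoped Classical

namespace IPC

open Fo

private theorem Lnk_nb (d : ℕ) (z x u : Fin d → ℤ) (h : u ∈ (Zg d).nb x) :
    z + u ∈ (Zg d).nb (z + x) := by
  have h1 := nb_add z x
  have h2 : Equiv.addLeft z x = z + x := rfl
  rw [h2] at h1
  rw [h1]
  exact Finset.mem_image.2 ⟨u, h, rfl⟩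

theorem jf_eq (d : ℕ) (x : Fin d → ℤ) : Jf d (Zg d).pc x = Jz d x := by
  unfold Jf Jz
  rw [cv_Pn]
  refine Finset.sum_nbij' (fun u => x - u) (fun v => x - v) ?_ ?_ ?_ ?_ ?_
  · intro u hu
    have h1 := Lnk_nb d (-u) u x ((Zg d).symm x u hu)
    rw [neg_add_cancel, neg_add_eq_sub] at h1
    exact h1
  · intro v hv
    have h1 := Lnk_nb d (x - v) v 0 ((Zg d).symm 0 v hv)
    rw [sub_add_cancel, add_zero] at h1
    exact h1
  · intro u _
    exact sub_sub_cancel x u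
  · intro v _
    exact sub_sub_cancel x v
  · intro u _
    rw [sub_sub_cancel]
    rfl

private theorem Lnk_hyp {n : ℕ} {d s : ℕ} (hs : s ≤ n) {C : ℝ} (hC : 0 ≤ C)
    {V : (Fin d → ℤ) → ℝ} (h : Sg n 2 C V) (e : Fin d) (b : ℕ) (hb : b ≤ s) (k : Fin d → ℝ)
    (hk : ∀ i, |k i| ≤ Real.pi) : ‖FT (mo e b V) k‖ * ‖k‖ ^ (2 + b) ≤ C := by
  by_cases h0 : k = 0
  · rw [h0, norm_zero, zero_pow (by omega), mul_zero]
    exact hC
  · have hp : 0 < ‖k‖ := norm_pos_iff.2 h0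
    have h1 := h e b (hb.trans hs) k hk h0
    have h2 : (‖k‖ : ℝ) ^ (-((2 : ℤ) + (b : ℤ))) = (‖k‖ ^ (2 + b))⁻¹ := by
      have h3 : ((2 : ℤ) + (b : ℤ)) = ((2 + b : ℕ) : ℤ) := by push_cast; ring
      rw [h3, zpow_neg, zpow_natCast]
    rw [h2] at h1
    have h4 : 0 < ‖k‖ ^ (2 + b) := pow_pos hp _
    calc ‖FT (mo e b V) k‖ * ‖k‖ ^ (2 + b) ≤ C * (‖k‖ ^ (2 + b))⁻¹ * ‖k‖ ^ (2 + b) :=
          mul_le_mul_of_nonneg_right h1 h4.le
      _ = C := by rw [mul_assoc, inv_mul_cancel₀ h4.ne', mul_one]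

theorem lnk_apx {d : ℕ} (hd : 450 ≤ d) (H : JOut d) : ∃ (V Jm : ℕ → (Fin d → ℤ) → ℝ) (M : ℝ),
    Apx d 143 (d / 2 + 144) (d / 2 + 144 + 2) (Jz d) V Jm M := by
  obtain ⟨V, Jm, C, hC, hV, hJm, hinv, hSg, hlim⟩ := H.app
  have hn := le_nst d
  have hs : d / 2 + 144 ≤ nst d := by omega
  obtain ⟨M0, hM0, h0⟩ := dK_bound (d := d) (by omega) (d / 2 + 144) 0 (d / 2 + 144 + 2)
    (Nat.zero_le _) le_rfl hC
  obtain ⟨M1, hM1, h1⟩ := dK_bound (d := d) (by omega) (d / 2 + 144) (d / 2 + 144)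
    (d / 2 + 144 + 2) le_rfl le_rfl hC
  have hVs : ∀ m, Mo (d / 2 + 144) (V m) := fun m => (hV m).mono hs
  have hhyp : ∀ m (e : Fin d) (b : ℕ), b ≤ d / 2 + 144 → ∀ k : Fin d → ℝ,
      (∀ i, |k i| ≤ Real.pi) → ‖FT (mo e b (V m)) k‖ * ‖k‖ ^ (2 + b) ≤ C :=
    fun m e b hb k hk => Lnk_hyp hs hC (hSg m) e b hb k hk
  refine ⟨V, Jm, M0 + M1, ⟨add_nonneg hM0 hM1, H.mo.mono (by omega),
    fun m => (hJm m).mono (by omega), fun m => (hV m).mono (by omega), ?_, hlim 143 (by omega),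
    ?_, ?_⟩⟩
  · intro m x
    have h2 := congrFun (hinv m) x
    unfold cv at h2
    have h3 : Summable fun y => V m y * del d (x - y) :=
      Summable.of_abs (cv_summable_inner (hV m).s1 S1_del x)
    have h4 : Summable fun y => V m y * Jm m (x - y) :=
      Summable.of_abs (cv_summable_inner (hV m).s1 (hJm m).s1 x)
    have h5 : ∑' y, V m y * (del d (x - y) - Jm m (x - y)) =
        ∑' y, V m y * del d (x - y) - ∑' y, V m y * Jm m (x - y) := by
      rw [← h3.tsum_sub h4]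
      exact tsum_congr fun y => by ring
    have h6 : ∑' y, V m y * del d (x - y) = V m x := by
      rw [tsum_eq_single x]
      · unfold del
        rw [sub_self, if_pos rfl, mul_one]
      · intro y hy
        unfold del
        rw [if_neg (sub_ne_zero.2 (Ne.symm hy)), mul_zero]
    rw [h5, h6] at h2
    rw [h2]
    rfl
  · intro m i T
    have h2 := h0 (V m) (hVs m) (hhyp m) i i T
    simp only [mul_zero, pow_zero, one_mul] at h2
    linarith
  · intro m i j T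
    have h2 := h1 (V m) (hVs m) (hhyp m) i j T
    linarith

theorem lnk_ker {d : ℕ} (hd : 450 ≤ d) (H : JOut d) : ∃ σ : ℝ, JKer d 146 (Jz d) σ := by
  have hn := le_nst d
  have hd0 : 0 < d := by omega
  refine ⟨∑' y : Fin d → ℤ, (y ⟨0, hd0⟩ : ℝ) ^ 2 * Jz d y, ⟨H.mo.mono (by omega), H.one, ?_, ?_, ?_⟩⟩
  · intro i
    have h1 : ∑' y : Fin d → ℤ, (y i : ℝ) * Jz d y = -∑' y : Fin d → ℤ, (y i : ℝ) * Jz d y := by
      conv_lhs => rw [← (reflE i).tsum_eq (fun y : Fin d → ℤ => (y i : ℝ) * Jz d y)]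
      rw [← tsum_neg]
      refine tsum_congr fun y => ?_
      show ((refl i y i : ℤ) : ℝ) * Jz d (refl i y) = _
      rw [H.ev i y, refl_self]
      push_cast
      ring
    linarith
  · intro i j
    by_cases hij : i = j
    · subst hij
      rw [if_pos rfl]
      rw [← (permE (Equiv.swap i (⟨0, hd0⟩ : Fin d))).tsum_eq
        (fun y : Fin d → ℤ => (y i : ℝ) * (y i : ℝ) * Jz d y)]
      refine tsum_congr fun y => ?_
      show ((y (Equiv.swap i ⟨0, hd0⟩ i) : ℤ) : ℝ) * ((y (Equiv.swap i ⟨0, hd0⟩ i) : ℤ) : ℝ) *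
        Jz d (fun k => y (Equiv.swap i ⟨0, hd0⟩ k)) = _
      rw [H.sy (Equiv.swap i ⟨0, hd0⟩) y, Equiv.swap_apply_left]
      ring
    · rw [if_neg hij]
      have h1 : ∑' y : Fin d → ℤ, (y i : ℝ) * (y j : ℝ) * Jz d y =
          -∑' y : Fin d → ℤ, (y i : ℝ) * (y j : ℝ) * Jz d y := by
        conv_lhs => rw [← (reflE i).tsum_eq (fun y : Fin d → ℤ => (y i : ℝ) * (y j : ℝ) * Jz d y)]
        rw [← tsum_neg]
        refine tsum_congr fun y => ?_
        show ((refl i y i : ℤ) : ℝ) * ((refl i y j : ℤ) : ℝ) * Jz d (refl i y) = _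
        rw [H.ev i y, refl_self, refl_other (Ne.symm hij)]
        push_cast
        ring
      linarith
  · obtain ⟨c, hc, h⟩ := H.sec
    have h1 := h ⟨0, hd0⟩
    exact (lt_of_lt_of_le hc h1).ne'

theorem lnk {d : ℕ} (hd : 450 ≤ d) (H : JOut d) (q : (Fin d → ℤ) → ℝ) (h0 : ∀ x, 0 ≤ q x)
    (hg : ∃ C : ℝ, 0 ≤ C ∧ ∀ x, q x ≤ C * (1 + ‖x‖) ^ 143)
    (hq : ∀ x, q x = ∑' y, Jf d (Zg d).pc y * q (x - y)) : ∀ x, q x = q 0 := by
  obtain ⟨V, Jm, M, A⟩ := lnk_apx hd H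
  obtain ⟨σ, hJ⟩ := lnk_ker hd H
  obtain ⟨C, _, hC⟩ := hg
  refine limit_const (k := 143) (by omega) A hJ h0 hC fun x => ?_
  rw [hq x]
  exact tsum_congr fun y => by rw [jf_eq]

end IPC
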