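import Pool.Agent.Lib.MP_25e40f_pr.F.Brn
import Pool.Agent.Lib.MP_25e40f_pr.T.TauD
import Pool.Agent.Lib.MP_25e40f_pr.A.BK

/-!
# MP_25e40f_pr, stream F: moments of the size of the cluster (job Mom, about 220 lines)

`szD D ω x` = number of points of `D` connected to `x`.
`sz_pow`: `(szD D ω x)^N = ∑_{y : Fin N → V, y ∈ piFinset D} ind (∀ i, Conn ω x (y i))`: `szD = ∑_{a ∈ D} ind (Conn ω x a)`, `Finset.prod_univ_sum` (`∏ i, ∑ a ∈ D, h i a = ∑ y ∈ Fintype.piFinset (fun _ => D), ∏ i, h i (y i)`), and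
a product of indicators is the indicator of the intersection.
`mom_step` (`N ≥ 2`, `x ∈ D`): for `ω ⊆ ein D` and `y ∈ piFinset D` with all `y i` connected to `x`: `branch` (`J = univ`): `I`, `z`, `ω₀, ω₁, ω₂`; `z ∈ D` (`T.Conn_mem_ein'` for `ω₀`).  So the event is contained in the union over `I`
(nonempty, nonempty complement) and `z ∈ D` of the disjoint occurrence of `{x <-> z}`, `{z <-> y i for all i ∈ I}`, `{z <-> y i for all i ∉ I}` (increasing events; `bk_list` with three events and `Occ_of_witness`, or `bk` twice with `Box`).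
Hence `EE (szD)^N = ∑_y Pr(..) ≤ ∑_I ∑_z τ_D(x,z) ∑_y Pr(z <-> y i, i ∈ I) Pr(z <-> y i, i ∉ I)`, and the inner sum over `y ∈ piFinset D` is `EE (szD ω z)^(#I) * EE (szD ω z)^(N - #I)`: write the product of the two probabilities as
`EE_ω EE_ω' ∏ i, (if i ∈ I then ind (Conn ω z (y i)) else ind (Conn ω' z (y i)))` (`EE_const_mul`, `EE_sum`), exchange the sum over `y` and use `Finset.prod_univ_sum` backwards, `Finset.prod_ite` / `Finset.prod_const`.
`mom_bound`: strong induction on `N`.  `N = 1`: `EE szD = ∑_{a ∈ D} τ_D(x,a) ≤ χ`, constant `1`.  `N ≥ 2`: let `C` be the maximum (or sum) of the constants for `1 ≤ M < N`: by `mom_step` and `1 ≤ #I ≤ N - 1`: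
`EE szD^N ≤ ∑_I ∑_z τ_D(x,z) C² χ^(2 #I - 1) χ^(2 (N - #I) - 1) ≤ 2^N C² χ χ^(2N - 2) = 2^N C² χ^(2N-1)`.
-/

set_option autoImplicit false

noncomputable section

open Finset
open scoped Classical

namespace IPC

variable {V : Type} [DecidableEq V]

/-- number of the points of `B` connected to `x` -/
def szD (B : Finset V) (ω : Finset (Sym2 V)) (x : V) : ℝ := ((B.filter fun y => Conn ω x y).card : ℝ)

private theorem Mom_sz (B : Finset V) (ω : Finset (Sym2 V)) (x : V) :
    szD B ω x = ∑ a ∈ B, ind (Conn ω x a) := by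
  unfold szD ind
  rw [Finset.card_filter]
  push_cast
  exact Finset.sum_congr rfl fun a _ => rfl

private theorem Mom_ind {ι : Type} [Fintype ι] (Q : ι → Prop) :
    ind (∀ i, Q i) = ∏ i, ind (Q i) := by
  by_cases h : ∀ i, Q i
  · rw [ind_of h, Finset.prod_eq_one fun i _ => ind_of (h i)]
  · rw [ind_not h]
    push Not at h
    obtain ⟨i, hi⟩ := h
    exact (Finset.prod_eq_zero (Finset.mem_univ i) (ind_not hi)).symm

private theorem Mom_ind_mem {ι : Type} (I : Finset ι) (Q : ι → Prop) :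
    ind (∀ i ∈ I, Q i) = ∏ i ∈ I, ind (Q i) := by
  by_cases h : ∀ i ∈ I, Q i
  · rw [ind_of h, Finset.prod_eq_one fun i hi => ind_of (h i hi)]
  · rw [ind_not h]
    push Not at h
    obtain ⟨i, hiI, hi⟩ := h
    exact (Finset.prod_eq_zero hiI (ind_not hi)).symm

private theorem Mom_EE2 {ε : Type} [DecidableEq ε] (p : ℝ) (E : Finset ε) (f g : Finset ε → ℝ) :
    EE p E f * EE p E g = EE p E (fun ω => EE p E (fun ω' => f ω * g ω')) := by
  rw [mul_comm, ← EE_const_mul]
  refine EE_congr p E fun ω _ => ?_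
  rw [EE_const_mul, mul_comm]

private theorem Mom_split (B : Finset V) (z : V) {N : ℕ} (I : Finset (Fin N))
    (ω ω' : Finset (Sym2 V)) :
    ∑ y ∈ Fintype.piFinset fun _ : Fin N => B,
      ind (∀ i ∈ I, Conn ω z (y i)) * ind (∀ i ∈ Iᶜ, Conn ω' z (y i)) =
    szD B ω z ^ I.card * szD B ω' z ^ (N - I.card) := by
  have key : ∀ f g : Fin N → ℝ, (∏ i ∈ I, f i) * ∏ i ∈ Iᶜ, g i =
      ∏ i, if i ∈ I then f i else g i := by
    intro f g
    rw [← Finset.prod_mul_prod_compl I (fun i => if i ∈ I then f i else g i)]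
    refine congrArg₂ (· * ·) ?_ ?_
    · exact Finset.prod_congr rfl fun i hi => (if_pos hi).symm
    · exact Finset.prod_congr rfl fun i hi => (if_neg (Finset.mem_compl.1 hi)).symm
  have h1 : ∀ y : Fin N → V, ind (∀ i ∈ I, Conn ω z (y i)) * ind (∀ i ∈ Iᶜ, Conn ω' z (y i)) =
      ∏ i, (if i ∈ I then ind (Conn ω z (y i)) else ind (Conn ω' z (y i))) := by
    intro y
    rw [Mom_ind_mem, Mom_ind_mem, key]
  rw [Finset.sum_congr rfl fun y _ => h1 y]
  have h2 := Finset.prod_univ_sum (fun _ : Fin N => B)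
    (fun i a => if i ∈ I then ind (Conn ω z a) else ind (Conn ω' z a))
  rw [← h2]
  have h3 : ∀ i : Fin N, ∑ a ∈ B, (if i ∈ I then ind (Conn ω z a) else ind (Conn ω' z a)) =
      if i ∈ I then szD B ω z else szD B ω' z := by
    intro i
    by_cases hi : i ∈ I
    · simp only [if_pos hi]; exact (Mom_sz B ω z).symm
    · simp only [if_neg hi]; exact (Mom_sz B ω' z).symm
  rw [Finset.prod_congr rfl fun i _ => h3 i, ← key, Finset.prod_const, Finset.prod_const,
    Finset.card_compl, Fintype.card_fin]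

theorem sz_pow (B : Finset V) (ω : Finset (Sym2 V)) (x : V) (N : ℕ) :
    szD B ω x ^ N = ∑ y ∈ Fintype.piFinset fun _ : Fin N => B, ind (∀ i, Conn ω x (y i)) := by
  rw [Mom_sz]
  have h1 : (∑ a ∈ B, ind (Conn ω x a)) ^ N = ∏ _i : Fin N, ∑ a ∈ B, ind (Conn ω x a) := by
    rw [Finset.prod_const, Finset.card_univ, Fintype.card_fin]
  rw [h1, Finset.prod_univ_sum]
  exact Finset.sum_congr rfl fun y _ => (Mom_ind (fun i => Conn ω x (y i))).symm

theorem mom_step (G : PG V) {p : ℝ} (h0 : 0 ≤ p) (h1 : p ≤ 1 / 2) (D : Finset V) {N : ℕ} (hN : 2 ≤ N)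
    {x : V} (hx : x ∈ D) :
    EE p (G.ein D) (fun ω => szD D ω x ^ N) ≤
      ∑ I ∈ (univ : Finset (Finset (Fin N))).filter (fun I => I.Nonempty ∧ Iᶜ.Nonempty), ∑ z ∈ D,
        G.tauD p D x z * (EE p (G.ein D) (fun ω => szD D ω z ^ I.card) *
          EE p (G.ein D) (fun ω => szD D ω z ^ (N - I.card))) := by
  have h1' : p ≤ 1 := by linarith
  have e1 : EE p (G.ein D) (fun ω => szD D ω x ^ N) =
      ∑ y ∈ Fintype.piFinset fun _ : Fin N => D,
        Pr p (G.ein D) (fun ω => ∀ i, Conn ω x (y i)) := by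
    unfold Pr
    rw [← EE_sum]
    exact EE_congr p _ fun ω _ => sz_pow D ω x N
  rw [e1]
  have e2 : ∀ y ∈ Fintype.piFinset fun _ : Fin N => D,
      Pr p (G.ein D) (fun ω => ∀ i, Conn ω x (y i)) ≤
      ∑ I ∈ (univ : Finset (Finset (Fin N))).filter (fun I => I.Nonempty ∧ Iᶜ.Nonempty), ∑ z ∈ D,
        G.tauD p D x z * (Pr p (G.ein D) (fun ω => ∀ i ∈ I, Conn ω z (y i)) *
          Pr p (G.ein D) (fun ω => ∀ i ∈ Iᶜ, Conn ω z (y i))) := by
    intro y _
    have e3 : Pr p (G.ein D) (fun ω => ∀ i, Conn ω x (y i)) ≤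
        Pr p (G.ein D) (fun ω => ∃ I ∈ (univ : Finset (Finset (Fin N))).filter
          (fun I => I.Nonempty ∧ Iᶜ.Nonempty), ∃ z ∈ D,
          Occ [fun ω => Conn ω x z, fun ω => ∀ i ∈ I, Conn ω z (y i),
            fun ω => ∀ i ∈ Iᶜ, Conn ω z (y i)] ω) := by
      refine Pr_mono h0 h1' _ fun ω hω hall => ?_
      obtain ⟨I, _, hI, hIc, z, ω₀, ω₁, ω₂, s0, s1, s2, d01, d02, d12, c0, c1, c2⟩ :=
        branch (univ : Finset (Fin N)) y x ω
          (by rw [Finset.card_univ, Fintype.card_fin]; exact hN) (fun i _ => hall i)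
      refine ⟨I, Finset.mem_filter.2 ⟨Finset.mem_univ _, hI, ?_⟩, z, ?_, ?_⟩
      · rw [Finset.compl_eq_univ_sdiff]; exact hIc
      · exact T.Conn_mem_ein' G (s0.trans hω) c0 hx
      · refine Occ_of_witness _ ω [ω₀, ω₁, ω₂] rfl ?_ ?_ ?_
        · intro w hw
          simp only [List.mem_cons, List.not_mem_nil, or_false] at hw
          rcases hw with rfl | rfl | rfl
          · exact s0
          · exact s1
          · exact s2
        · simp only [List.pairwise_cons, List.mem_cons, List.not_mem_nil, or_false,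
            forall_eq_or_imp, forall_eq, false_imp_iff, implies_true, List.Pairwise.nil, and_true]
          exact ⟨⟨d01, d02⟩, d12⟩
        · refine List.Forall₂.cons c0 (List.Forall₂.cons c1 (List.Forall₂.cons ?_
            List.Forall₂.nil))
          intro i hi
          rw [Finset.compl_eq_univ_sdiff] at hi
          exact c2 i hi
    refine e3.trans ((Pr_exists_le h0 h1' _ _ _).trans ?_)
    refine Finset.sum_le_sum fun I _ => (Pr_exists_le h0 h1' _ _ _).trans ?_
    refine Finset.sum_le_sum fun z _ => ?_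
    have e4 := bk_list h0 h1 (G.ein D) [fun ω => Conn ω x z, fun ω => ∀ i ∈ I, Conn ω z (y i),
            fun ω => ∀ i ∈ Iᶜ, Conn ω z (y i)] (by
      intro A hA
      simp only [List.mem_cons, List.not_mem_nil, or_false] at hA
      rcases hA with rfl | rfl | rfl
      · exact fun ω ω' h => Conn_mono h
      · exact fun ω ω' h hc i hi => Conn_mono h (hc i hi)
      · exact fun ω ω' h hc i hi => Conn_mono h (hc i hi))
    simp only [List.map_cons, List.map_nil, List.prod_cons, List.prod_nil, mul_one] at e4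
    exact e4
  refine (Finset.sum_le_sum e2).trans (le_of_eq ?_)
  rw [Finset.sum_comm]
  refine Finset.sum_congr rfl fun I _ => ?_
  rw [Finset.sum_comm]
  refine Finset.sum_congr rfl fun z _ => ?_
  rw [← Finset.mul_sum]
  congr 1
  rw [Mom_EE2, ← Finset.sum_congr rfl fun y _ => (Mom_EE2 p (G.ein D)
    (fun ω => ind (∀ i ∈ I, Conn ω z (y i))) (fun ω => ind (∀ i ∈ Iᶜ, Conn ω z (y i)))).symm,
    ← EE_sum]
  refine EE_congr p _ fun ω _ => ?_
  rw [← EE_sum]
  refine EE_congr p _ fun ω' _ => ?_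
  exact Mom_split D z I ω ω'

/-- all the moments, with constants which depend only on the order -/
theorem mom_bound (N : ℕ) (hN : 1 ≤ N) : ∃ C : ℝ, 0 ≤ C ∧ ∀ (V : Type) [DecidableEq V] (G : PG V)
    (p : ℝ), 0 ≤ p → p ≤ 1 / 2 → ∀ (D : Finset V) (χ : ℝ), 0 ≤ χ →
      (∀ a ∈ D, ∑ y ∈ D, G.tauD p D a y ≤ χ) → ∀ x ∈ D,
        EE p (G.ein D) (fun ω => szD D ω x ^ N) ≤ C * χ ^ (2 * N - 1) := by
  induction N using Nat.strong_induction_on with
  | _ N ih =>
    rcases Nat.lt_or_ge N 2 with hlt | hge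
    · have hN1 : N = 1 := by omega
      subst hN1
      refine ⟨1, zero_le_one, ?_⟩
      intro V _ G p h0 h1 D χ hχ hb x hx
      have e1 : EE p (G.ein D) (fun ω => szD D ω x ^ 1) = ∑ y ∈ D, G.tauD p D x y := by
        unfold PG.tauD Pr
        rw [← EE_sum]
        refine EE_congr p _ fun ω _ => ?_
        rw [pow_one, Mom_sz]
      rw [e1]
      have h2 := hb x hx
      simpa using h2
    · have hex : ∃ C : ℝ, 0 ≤ C ∧ ∀ M, 1 ≤ M → M < N → ∀ (V : Type) [DecidableEq V] (G : PG V)
          (p : ℝ), 0 ≤ p → p ≤ 1 / 2 → ∀ (D : Finset V) (χ : ℝ), 0 ≤ χ →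
          (∀ a ∈ D, ∑ y ∈ D, G.tauD p D a y ≤ χ) → ∀ x ∈ D,
            EE p (G.ein D) (fun ω => szD D ω x ^ M) ≤ C * χ ^ (2 * M - 1) := by
        choose c hc0 hc using ih
        refine ⟨∑ M ∈ Finset.range N, if h : M < N ∧ 1 ≤ M then c M h.1 h.2 else 0, ?_, ?_⟩
        · refine Finset.sum_nonneg fun M _ => ?_
          split_ifs with h
          · exact hc0 M h.1 h.2
          · exact le_rfl
        · intro M hM1 hMN V _ G p h0 h1 D χ hχ hb x hx
          refine (hc M hMN hM1 V G p h0 h1 D χ hχ hb x hx).trans ?_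
          refine mul_le_mul_of_nonneg_right ?_ (pow_nonneg hχ _)
          have h2 := Finset.single_le_sum (s := Finset.range N)
            (f := fun M => if h : M < N ∧ 1 ≤ M then c M h.1 h.2 else 0) (fun M _ => by
              split_ifs with h
              · exact hc0 M h.1 h.2
              · exact le_rfl) (Finset.mem_range.2 hMN)
          rw [dif_pos ⟨hMN, hM1⟩] at h2
          exact h2
      obtain ⟨C, hC0, hC⟩ := hex
      refine ⟨2 ^ N * C ^ 2, by positivity, ?_⟩
      intro V _ G p h0 h1 D χ hχ hb x hx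
      have h1' : p ≤ 1 := by linarith
      refine (mom_step G h0 h1 D hge hx).trans ?_
      have e1 : ∀ I ∈ (univ : Finset (Finset (Fin N))).filter
          (fun I => I.Nonempty ∧ Iᶜ.Nonempty), ∑ z ∈ D,
          G.tauD p D x z * (EE p (G.ein D) (fun ω => szD D ω z ^ I.card) *
          EE p (G.ein D) (fun ω => szD D ω z ^ (N - I.card))) ≤ C ^ 2 * χ ^ (2 * N - 1) := by
        intro I hI
        rw [Finset.mem_filter] at hI
        have hI1 : 1 ≤ I.card := Finset.card_pos.2 hI.2.1
        have hI2 : 1 ≤ N - I.card := by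
          have h3 := Finset.card_pos.2 hI.2.2
          rw [Finset.card_compl, Fintype.card_fin] at h3
          exact h3
        have e2 : ∀ z ∈ D, G.tauD p D x z * (EE p (G.ein D) (fun ω => szD D ω z ^ I.card) *
            EE p (G.ein D) (fun ω => szD D ω z ^ (N - I.card))) ≤
            G.tauD p D x z * (C ^ 2 * χ ^ (2 * N - 2)) := by
          intro z hz
          refine mul_le_mul_of_nonneg_left ?_ (T.tauD_nonneg G h0 h1' D x z)
          have e3 := hC I.card hI1 (by omega) V G p h0 h1 D χ hχ hb z hz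
          have e4 := hC (N - I.card) hI2 (by omega) V G p h0 h1 D χ hχ hb z hz
          have e5 : 0 ≤ EE p (G.ein D) (fun ω => szD D ω z ^ (N - I.card)) :=
            EE_nonneg h0 h1' _ fun ω _ => pow_nonneg (Nat.cast_nonneg _) _
          have e6 : 0 ≤ C * χ ^ (2 * I.card - 1) := mul_nonneg hC0 (pow_nonneg hχ _)
          refine (mul_le_mul e3 e4 e5 e6).trans (le_of_eq ?_)
          have e7 : 2 * N - 2 = (2 * I.card - 1) + (2 * (N - I.card) - 1) := by omega
          rw [e7, pow_add]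
          ring
        refine (Finset.sum_le_sum e2).trans ?_
        rw [← Finset.sum_mul]
        have e8 : 2 * N - 1 = (2 * N - 2) + 1 := by omega
        calc (∑ z ∈ D, G.tauD p D x z) * (C ^ 2 * χ ^ (2 * N - 2))
            ≤ χ * (C ^ 2 * χ ^ (2 * N - 2)) :=
              mul_le_mul_of_nonneg_right (hb x hx) (by positivity)
          _ = C ^ 2 * χ ^ (2 * N - 1) := by rw [e8, pow_succ]; ring
      refine (Finset.sum_le_sum e1).trans ?_
      rw [Finset.sum_const, nsmul_eq_mul]
      have e9 : (((univ : Finset (Finset (Fin N))).filter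
          (fun I => I.Nonempty ∧ Iᶜ.Nonempty)).card : ℝ) ≤ 2 ^ N := by
        have h3 := Finset.card_filter_le (univ : Finset (Finset (Fin N)))
          (fun I => I.Nonempty ∧ Iᶜ.Nonempty)
        rw [Finset.card_univ, Fintype.card_finset, Fintype.card_fin] at h3
        exact_mod_cast h3
      calc _ ≤ 2 ^ N * (C ^ 2 * χ ^ (2 * N - 1)) :=
            mul_le_mul_of_nonneg_right e9 (by positivity)
        _ = 2 ^ N * C ^ 2 * χ ^ (2 * N - 1) := by ring

end IPC
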