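import Pool.Agent.Lib.MP_25e40f_pr.F.Gli
import Pool.Agent.Lib.MP_25e40f_pr.F.Lnk
import Pool.Agent.Lib.MP_25e40f_pr.W.Fin
import Pool.Agent.Lib.MP_25e40f_pr.W.Glue
import Pool.Agent.Lib.MP_25e40f_pr.E.ZDd
import Pool.Agent.Lib.MP_25e40f_pr.E.ZFinA
import Pool.Agent.Lib.MP_25e40f_pr.E.ZFinE
import Pool.Agent.Lib.MP_25e40f_pr.IfU

/-!
# MP_25e40f_pr, stream F: the robust IIC (T1) in all high dimensions
-/

set_option autoImplicit false

noncomputable section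

open Finset Filter
open scoped Classical

namespace IPC

open Fo

theorem wsum_of {d : ℕ} (hd : 520 ≤ d) {δ : ENNReal} (H : DB d δ) : Wsum d (Zg d).pc 143 := by
  have hZ := DZ_of_DB H
  have hp0 : 0 < (Zg d).pc := by
    refine lt_of_le_of_lt ?_ H.lt
    positivity
  have hp1 : (Zg d).pc ≤ 1 / 2 := by
    have := H.le
    linarith
  obtain ⟨C, hC, h⟩ := decay_pc hZ
  have hW : FWH d 72 (Zg d).pc δ (XC d (ENNReal.ofReal C)) := by
    refine FWH_pc (by omega) hp0 hp1 hZ.small (fun p h0 h1 x y => H.q4 p h0 h1 x y)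
      fun x y => ?_
    rw [tau_tr hp0.le (hp1.trans (by norm_num)) x y]
    exact h (y - x)
  intro F hF
  refine ne_top_of_le_ne_top (FW_one hW F hF).ne ?_
  refine ENNReal.tsum_le_tsum fun n => ENNReal.tsum_le_tsum fun u => ?_
  refine mul_le_mul_left ?_ _
  refine ENNReal.ofReal_le_ofReal ?_
  refine pow_le_pow_right₀ ?_ (by norm_num)
  linarith [norm_nonneg u]

theorem fin_of {d : ℕ} (hd : 520 ≤ d) {δ : ENNReal} (H : DB d δ)
    (hK : Ker (CE.tK (Zg d) (Zg d).pc) (CE.pK (Zg d) (Zg d).pc) δ) : FIn d (Zg d).pc := by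
  have hZ := DZ_of_DB H
  have hp0 : 0 < (Zg d).pc := by
    refine lt_of_le_of_lt ?_ H.lt
    positivity
  have hp1 : (Zg d).pc < 1 / 2 := by
    have := H.le
    linarith
  refine ⟨gin_of hZ (tau_box_lower d (by omega) hp1 hp0), H.noperc _ hp0.le le_rfl, wsum_of hd H,
    lnk (by omega) (J_out hZ hK)⟩

/-- T1: the robust incipient infinite cluster -/
theorem t_one {n₀ : ℕ} {C₀ : ℝ} (hB : BootS n₀ C₀) : ∃ d₀ : ℕ, ∀ d, d₀ ≤ d →
    ∀ F : Finset (Fin d → ℤ), (0 : Fin d → ℤ) ∈ F → ∃ ι : ℝ, ∀ ε : ℝ, 0 < ε → ∃ ρ : ℕ,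
  ∀ (D : Finset (Fin d → ℤ)) (v x : Fin d → ℤ), v ∈ D → box x ρ ⊆ D → v ∉ box x ρ →
    |Pr (Zg d).pc ((Zg d).ein D) (fun ω => AllConn ω (F.image (fun f => x + f)) v) -
      ι * (Zg d).tauD (Zg d).pc D x v| ≤ ε * (Zg d).tauD (Zg d).pc D x v := by
  obtain ⟨d₁, h⟩ := exists_DB hB
  refine ⟨max d₁ 520, fun d hd F hF => ?_⟩
  obtain ⟨δ, hDB, hK⟩ := h d ((le_max_left _ _).trans hd)
  exact rob (fin_of ((le_max_right _ _).trans hd) hDB hK) hF

end IPC
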