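import Pool.Agent.Lib.MP_25e40f_pr.F.Apx
import Pool.Agent.Lib.MP_25e40f_pr.F.Sm

/-!
# MP_25e40f_pr, stream F: representation (job Rep, about 150 lines)

`|q x| ≤ Cq (1+‖x‖)^k`, `(1+‖x+y‖) ≤ (1+‖x‖)(1+‖y‖)` (`one_add_norm_add_le`, `one_add_norm_sub_le`), so `|J y * q (x - y)| ≤ Cq (1+‖x‖)^k (1+‖y‖)^k |J y|`: all the series converge absolutely.
`r_bound`: `|r z| ≤ ∑' |J y - Jm y| |q (z - y)| ≤ Cq (1+‖z‖)^k ∑' (1+‖y‖)^k |J y - Jm y|` (`|J - Jm| ≤ |J| + |Jm|` for the summability).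
`rep`: `r z = q z - ∑' y, Jm y * q (z - y)` (`hq`, `tsum_sub`).  So `∑' y, V y * r (x - y) = ∑' y, V y * q (x - y) - ∑' y, ∑' z, V y * Jm z * q (x - y - z)`.  In the double series (absolutely summable on the product: bounded by
`Cq (1+‖x‖)^k (1+‖y‖)^k |V y| (1+‖z‖)^k |Jm z|`, `Summable.mul_of_nonneg`) put `w = y + z` (the equivalence `(y, z) ↦ (y, y + z)` and `Summable.tsum_prod`, `tsum_comm'`): `∑' w, (∑' y, V y * Jm (w - y)) * q (x - w)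
= ∑' w, (V w - ite (w = 0) 1 0) * q (x - w)` by `inv` and this is `∑' w, V w * q (x - w) - q x` (`tsum_sub`, `tsum_ite_eq` or `tsum_eq_single 0`).
-/

set_option autoImplicit false

noncomputable section

open Finset Filter Topology

namespace IPC

/-- the error term -/
def rr {d : ℕ} (J Jm q : (Fin d → ℤ) → ℝ) (z : Fin d → ℤ) : ℝ :=
  ∑' y, (J y - Jm y) * q (z - y)

private theorem Rep_w {d k : ℕ} (z y : Fin d → ℤ) : (1 + ‖z - y‖) ^ k ≤ (1 + ‖z‖) ^ k * (1 + ‖y‖) ^ k := by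
  rw [← mul_pow]
  exact pow_le_pow_left₀ (by positivity) (one_add_norm_sub_le z y) k

private theorem Rep_w' {d k : ℕ} (z y : Fin d → ℤ) : (1 + ‖z + y‖) ^ k ≤ (1 + ‖z‖) ^ k * (1 + ‖y‖) ^ k := by
  rw [← mul_pow]
  exact pow_le_pow_left₀ (by positivity) (one_add_norm_add_le z y) k

private theorem Rep_Cq {d k : ℕ} {q : (Fin d → ℤ) → ℝ} {Cq : ℝ} (hg : ∀ x, |q x| ≤ Cq * (1 + ‖x‖) ^ k) :
    0 ≤ Cq := by
  have := (abs_nonneg _).trans (hg 0)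
  simpa using this

private theorem Rep_term {d k : ℕ} {K q : (Fin d → ℤ) → ℝ} {Cq : ℝ}
    (hg : ∀ x, |q x| ≤ Cq * (1 + ‖x‖) ^ k) (z y : Fin d → ℤ) :
    |K y * q (z - y)| ≤ Cq * (1 + ‖z‖) ^ k * ((1 + ‖y‖) ^ k * |K y|) := by
  have hC := Rep_Cq hg
  rw [abs_mul]
  calc |K y| * |q (z - y)| ≤ |K y| * (Cq * (1 + ‖z - y‖) ^ k) :=
        mul_le_mul_of_nonneg_left (hg _) (abs_nonneg _)
    _ ≤ |K y| * (Cq * ((1 + ‖z‖) ^ k * (1 + ‖y‖) ^ k)) :=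
        mul_le_mul_of_nonneg_left (mul_le_mul_of_nonneg_left (Rep_w z y) hC) (abs_nonneg _)
    _ = Cq * (1 + ‖z‖) ^ k * ((1 + ‖y‖) ^ k * |K y|) := by ring

private theorem Rep_sum {d k : ℕ} {K q : (Fin d → ℤ) → ℝ} {Cq : ℝ}
    (hK : Summable fun y : Fin d → ℤ => (1 + ‖y‖) ^ k * |K y|)
    (hg : ∀ x, |q x| ≤ Cq * (1 + ‖x‖) ^ k) (z : Fin d → ℤ) :
    Summable (fun y => K y * q (z - y)) := by
  refine Summable.of_norm_bounded (hK.mul_left (Cq * (1 + ‖z‖) ^ k)) (fun y => ?_)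
  rw [Real.norm_eq_abs]
  exact Rep_term hg z y

private theorem Rep_bd {d k : ℕ} {K q : (Fin d → ℤ) → ℝ} {Cq : ℝ}
    (hK : Summable fun y : Fin d → ℤ => (1 + ‖y‖) ^ k * |K y|)
    (hg : ∀ x, |q x| ≤ Cq * (1 + ‖x‖) ^ k) (z : Fin d → ℤ) :
    |∑' y, K y * q (z - y)| ≤ Cq * (∑' y : Fin d → ℤ, (1 + ‖y‖) ^ k * |K y|) * (1 + ‖z‖) ^ k := by
  have h1 := tsum_of_norm_bounded (hK.mul_left (Cq * (1 + ‖z‖) ^ k)).hasSum
    (fun y => by rw [Real.norm_eq_abs]; exact Rep_term (K := K) hg z y)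
  rw [Real.norm_eq_abs, tsum_mul_left] at h1
  linarith

private theorem Rep_sub {d k : ℕ} {J Jm : (Fin d → ℤ) → ℝ}
    (hJ : Summable fun y : Fin d → ℤ => (1 + ‖y‖) ^ k * |J y|)
    (hJm : Summable fun y : Fin d → ℤ => (1 + ‖y‖) ^ k * |Jm y|) :
    Summable fun y : Fin d → ℤ => (1 + ‖y‖) ^ k * |J y - Jm y| := by
  refine Summable.of_nonneg_of_le (fun y => by positivity) (fun y => ?_) (hJ.add hJm)
  rw [← mul_add]
  exact mul_le_mul_of_nonneg_left (abs_sub _ _) (by positivity)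

private theorem Rep_prod {d k : ℕ} {Jm V q : (Fin d → ℤ) → ℝ} {Cq : ℝ}
    (hJm : Summable fun y : Fin d → ℤ => (1 + ‖y‖) ^ k * |Jm y|)
    (hV : Summable fun y : Fin d → ℤ => (1 + ‖y‖) ^ k * |V y|)
    (hg : ∀ x, |q x| ≤ Cq * (1 + ‖x‖) ^ k) (x : Fin d → ℤ) :
    Summable (Function.uncurry fun y w : Fin d → ℤ => V y * Jm (w - y) * q (x - w)) := by
  have hC := Rep_Cq hg
  have h1 : Summable (fun t : (Fin d → ℤ) × (Fin d → ℤ) =>
      ((1 + ‖t.1‖) ^ k * |V t.1|) * ((1 + ‖t.2‖) ^ k * |Jm t.2|)) :=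
    hV.mul_of_nonneg hJm (fun y => by positivity) (fun y => by positivity)
  have h2 := ((Equiv.prodShear (Equiv.refl (Fin d → ℤ)) (fun y => Equiv.subRight y)).summable_iff
    (f := fun t : (Fin d → ℤ) × (Fin d → ℤ) =>
      ((1 + ‖t.1‖) ^ k * |V t.1|) * ((1 + ‖t.2‖) ^ k * |Jm t.2|))).2 h1
  refine Summable.of_norm_bounded (h2.mul_left (Cq * (1 + ‖x‖) ^ k)) ?_
  rintro ⟨y, w⟩
  simp only [Function.uncurry, Function.comp_apply, Equiv.prodShear_apply, Equiv.refl_apply, Equiv.subRight_apply]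
  rw [Real.norm_eq_abs, abs_mul, abs_mul]
  have e1 : (1 + ‖w‖) ^ k ≤ (1 + ‖y‖) ^ k * (1 + ‖w - y‖) ^ k := by
    have := Rep_w' (k := k) y (w - y)
    rwa [add_sub_cancel] at this
  calc |V y| * |Jm (w - y)| * |q (x - w)| ≤ |V y| * |Jm (w - y)| * (Cq * (1 + ‖x - w‖) ^ k) :=
        mul_le_mul_of_nonneg_left (hg _) (by positivity)
    _ ≤ |V y| * |Jm (w - y)| * (Cq * ((1 + ‖x‖) ^ k * ((1 + ‖y‖) ^ k * (1 + ‖w - y‖) ^ k))) := by
        apply mul_le_mul_of_nonneg_left _ (by positivity)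
        apply mul_le_mul_of_nonneg_left _ hC
        exact (Rep_w x w).trans (mul_le_mul_of_nonneg_left e1 (by positivity))
    _ = Cq * (1 + ‖x‖) ^ k * ((1 + ‖y‖) ^ k * |V y| * ((1 + ‖w - y‖) ^ k * |Jm (w - y)|)) := by ring

theorem rr_bound {d k : ℕ} {J Jm q : (Fin d → ℤ) → ℝ} {Cq : ℝ}
    (hJ : Summable fun y : Fin d → ℤ => (1 + ‖y‖) ^ k * |J y|)
    (hJm : Summable fun y : Fin d → ℤ => (1 + ‖y‖) ^ k * |Jm y|)
    (hg : ∀ x, |q x| ≤ Cq * (1 + ‖x‖) ^ k) (z : Fin d → ℤ) :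
    |rr J Jm q z| ≤ Cq * (∑' y : Fin d → ℤ, (1 + ‖y‖) ^ k * |J y - Jm y|) * (1 + ‖z‖) ^ k := by
  unfold rr
  exact Rep_bd (K := fun y => J y - Jm y) (Rep_sub hJ hJm) hg z

theorem rr_rep {d k : ℕ} {J Jm V q : (Fin d → ℤ) → ℝ} {Cq : ℝ}
    (hJ : Summable fun y : Fin d → ℤ => (1 + ‖y‖) ^ k * |J y|)
    (hJm : Summable fun y : Fin d → ℤ => (1 + ‖y‖) ^ k * |Jm y|)
    (hV : Summable fun y : Fin d → ℤ => (1 + ‖y‖) ^ k * |V y|)
    (inv : ∀ x, V x - ∑' y, V y * Jm (x - y) = if x = 0 then 1 else 0)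
    (hg : ∀ x, |q x| ≤ Cq * (1 + ‖x‖) ^ k) (hq : ∀ x, q x = ∑' y, J y * q (x - y))
    (x : Fin d → ℤ) : q x = ∑' y, V y * rr J Jm q (x - y) := by
  have hr : ∀ z, rr J Jm q z = q z - ∑' y, Jm y * q (z - y) := by
    intro z
    unfold rr
    have h1 := (Rep_sum hJ hg z).tsum_sub (Rep_sum hJm hg z)
    rw [← hq z] at h1
    rw [← h1]
    refine tsum_congr (fun y => ?_)
    ring
  have hA := Rep_sum hV hg x
  have hgB : ∀ z, |∑' y, Jm y * q (z - y)| ≤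
      (Cq * (∑' y : Fin d → ℤ, (1 + ‖y‖) ^ k * |Jm y|)) * (1 + ‖z‖) ^ k := fun z => Rep_bd hJm hg z
  have hB := Rep_sum hV hgB x
  have e1 : ∑' y, V y * rr J Jm q (x - y) =
      ∑' y, V y * q (x - y) - ∑' y, V y * ∑' z, Jm z * q (x - y - z) := by
    rw [← hA.tsum_sub hB]
    refine tsum_congr (fun y => ?_)
    rw [hr]
    ring
  have e2 : ∑' y, V y * ∑' z, Jm z * q (x - y - z) = ∑' y, ∑' w, V y * Jm (w - y) * q (x - w) := by
    refine tsum_congr (fun y => ?_)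
    rw [← tsum_mul_left, ← (Equiv.subRight y).tsum_eq]
    refine tsum_congr (fun w => ?_)
    simp only [Equiv.subRight_apply]
    have e : x - y - (w - y) = x - w := by abel
    rw [e]
    ring
  have e3 : ∑' y, ∑' w, V y * Jm (w - y) * q (x - w) = ∑' w, ∑' y, V y * Jm (w - y) * q (x - w) :=
    ((Rep_prod hJm hV hg x).tsum_comm).symm
  have e4 : ∑' w, ∑' y, V y * Jm (w - y) * q (x - w) = ∑' w, (V w * q (x - w) - (if w = 0 then 1 else 0) * q (x - w)) := by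
    refine tsum_congr (fun w => ?_)
    rw [tsum_mul_right]
    have := inv w
    have e : ∑' y, V y * Jm (w - y) = V w - if w = 0 then 1 else 0 := by linarith
    rw [e]
    ring
  have hδ : HasSum (fun w : Fin d → ℤ => (if w = 0 then (1 : ℝ) else 0) * q (x - w)) (q x) := by
    have h := hasSum_single (f := fun w : Fin d → ℤ => (if w = 0 then (1 : ℝ) else 0) * q (x - w)) 0
      (fun w hw => by simp [hw])
    simpa using h
  have e5 : ∑' w, (V w * q (x - w) - (if w = 0 then 1 else 0) * q (x - w)) = ∑' w, V w * q (x - w) - q x := by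
    rw [hA.tsum_sub hδ.summable, hδ.tsum_eq]
  rw [e1, e2, e3, e4, e5]
  ring

end IPC
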