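import Mathlib

/-!
# MP_25e40f_pr, stream F: scaling of polynomials (job Scl, about 180 lines)

`eval_smul_hom`: `MvPolynomial.eval_eq`: each monomial of the support has degree `m` (`IsHomogeneous`), `∏ (N x_i)^(α_i) = N^m ∏ x_i^(α_i)` (`Finset.prod_pow_eq_pow_sum`, `mul_pow`, `Finset.prod_mul_distrib`).
`tendsto_scale`: `P = ∑_{j ≤ m} homogeneousComponent j P` (`MvPolynomial.sum_homogeneousComponent`, extend the range with zero components: `homogeneousComponent_eq_zero` above the total degree), so
`eval (N x) P / N^m = ∑_{j ≤ m} N^j / N^m * eval x (component j)`; `N^j / N^m → 0` for `j < m`, `= 1` for `j = m`, `N ≥ 1`.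
`eq_zero_of_eval_int`: a polynomial vanishing on all integer points is zero: `MvPolynomial.funext_set` / `MvPolynomial.funext` for infinite subsets, or induction; see `MvPolynomial.funext` and the version for products of infinite sets
(`MvPolynomial.funext_set`, if it exists), otherwise by the difference: all the partial functions are one variable polynomials with infinitely many zeros (`Polynomial.eq_zero_of_infinite_isRoot`), replace the integer coordinates by
real ones one after the other, then `MvPolynomial.funext`.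
`totalDegree_le_of_growth`: otherwise `m := P.totalDegree > k`, the component of degree `m` is not zero, so it does not vanish at some integer point `x`; `tendsto_scale` at `x`, but
`|eval (N x) P| / N^m ≤ C (1 + N ‖x‖)^k / N^m → 0`: the limit is `0`, contradiction.
`top_nonneg`: integer `x`: `ge_of_tendsto`.  Real `x`: the integer points `z_n = (⌊n x_i⌋)_i`: `eval (z_n) T = n^m eval (z_n / n) T` for `T = homogeneousComponent m P` (`eval_smul_hom`, `homogeneousComponent_isHomogeneous`), so
`eval (z_n / n) T ≥ 0`, and `z_n / n → x`, `MvPolynomial.continuous_eval`, `ge_of_tendsto`.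
-/

set_option autoImplicit false

noncomputable section

open Finset MvPolynomial Filter Topology

namespace IPC

theorem eval_smul_hom {d m : ℕ} {P : MvPolynomial (Fin d) ℝ} (hP : P.IsHomogeneous m) (N : ℝ)
    (x : Fin d → ℝ) : eval (fun i => N * x i) P = N ^ m * eval x P := by
  rw [eval_eq', eval_eq', Finset.mul_sum]
  refine Finset.sum_congr rfl fun a ha => ?_
  have hdeg : ∑ i, a i = m := by
    rw [hP.degree_eq_sum_deg_support ha]
    symm
    refine Finset.sum_subset (Finset.subset_univ _) ?_
    intro i _ hi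
    simpa using hi
  have h1 : ∏ i, (N * x i) ^ a i = N ^ m * ∏ i, x i ^ a i := by
    simp only [mul_pow]
    rw [Finset.prod_mul_distrib, Finset.prod_pow_eq_pow_sum, hdeg]
  rw [h1]
  ring

private theorem scl_sum_comp {d m : ℕ} {P : MvPolynomial (Fin d) ℝ} (hP : P.totalDegree ≤ m) :
    (∑ i ∈ Finset.range (m + 1), homogeneousComponent i P) = P := by
  have h := sum_homogeneousComponent P
  have h2 : (∑ i ∈ Finset.range (P.totalDegree + 1), homogeneousComponent i P)
      = ∑ i ∈ Finset.range (m + 1), homogeneousComponent i P := by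
    refine Finset.sum_subset ?_ ?_
    · intro i hi
      rw [Finset.mem_range] at hi ⊢
      omega
    · intro i _ hi
      rw [Finset.mem_range] at hi
      exact homogeneousComponent_eq_zero i P (by omega)
  rw [← h2, h]

theorem tendsto_scale {d m : ℕ} {P : MvPolynomial (Fin d) ℝ} (hP : P.totalDegree ≤ m)
    (x : Fin d → ℝ) :
    Tendsto (fun N : ℕ => eval (fun i => (N : ℝ) * x i) P / (N : ℝ) ^ m) atTop
      (𝓝 (eval x (homogeneousComponent m P))) := by
  have h1 : ∀ N : ℕ, eval (fun i => (N : ℝ) * x i) P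
      = ∑ j ∈ Finset.range (m + 1), (N : ℝ) ^ j * eval x (homogeneousComponent j P) := by
    intro N
    conv_lhs => rw [← scl_sum_comp hP]
    rw [map_sum]
    refine Finset.sum_congr rfl fun j _ => ?_
    exact eval_smul_hom (homogeneousComponent_isHomogeneous j P) (N : ℝ) x
  have h2 : ∀ j ∈ Finset.range (m + 1), Tendsto (fun N : ℕ => (N : ℝ) ^ j / (N : ℝ) ^ m *
      eval x (homogeneousComponent j P)) atTop
      (𝓝 ((if j = m then (1 : ℝ) else 0) * eval x (homogeneousComponent j P))) := by
    intro j hj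
    rw [Finset.mem_range] at hj
    refine Tendsto.mul_const _ ?_
    split_ifs with hjm
    · subst hjm
      refine tendsto_const_nhds.congr' ?_
      filter_upwards [eventually_ge_atTop 1] with N hN
      have : (N : ℝ) ^ j ≠ 0 := pow_ne_zero _ (by positivity)
      field_simp
    · have hlt : j < m := by omega
      have h3 : Tendsto (fun N : ℕ => ((N : ℝ) ^ (m - j))⁻¹) atTop (𝓝 0) := by
        refine Tendsto.inv_tendsto_atTop ?_
        exact (tendsto_pow_atTop (by omega : m - j ≠ 0)).comp tendsto_natCast_atTop_atTop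
      refine h3.congr' ?_
      filter_upwards [eventually_ge_atTop 1] with N hN
      have hN0 : (N : ℝ) ≠ 0 := by positivity
      have h4 : (N : ℝ) ^ m = (N : ℝ) ^ j * (N : ℝ) ^ (m - j) := by
        rw [← pow_add]
        congr 1
        omega
      rw [h4]
      have : (N : ℝ) ^ j ≠ 0 := pow_ne_zero _ hN0
      have : (N : ℝ) ^ (m - j) ≠ 0 := pow_ne_zero _ hN0
      field_simp
  have h5 := tendsto_finsetSum (Finset.range (m + 1)) h2
  have h6 : ∑ j ∈ Finset.range (m + 1), (if j = m then (1 : ℝ) else 0) *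
      eval x (homogeneousComponent j P) = eval x (homogeneousComponent m P) := by
    rw [Finset.sum_eq_single m]
    · simp
    · intro j _ hj
      simp [hj]
    · intro h
      exact absurd (Finset.mem_range.2 (Nat.lt_succ_self m)) h
  rw [h6] at h5
  refine h5.congr ?_
  intro N
  rw [h1 N, Finset.sum_div]
  refine Finset.sum_congr rfl fun j _ => ?_
  ring

theorem eq_zero_of_eval_int {d : ℕ} {P : MvPolynomial (Fin d) ℝ}
    (h : ∀ x : Fin d → ℤ, eval (fun i => (x i : ℝ)) P = 0) : P = 0 := by
  refine funext_set (fun _ => Set.range (fun z : ℤ => (z : ℝ))) ?_ ?_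
  · intro _
    exact Set.infinite_range_of_injective Int.cast_injective
  · intro x hx
    have hx' : ∀ i, ∃ z : ℤ, (z : ℝ) = x i := fun i => hx i (Set.mem_univ i)
    choose z hz using hx'
    have hxz : x = fun i => (z i : ℝ) := by
      funext i
      exact (hz i).symm
    rw [hxz, map_zero]
    exact h z

theorem homogeneousComponent_totalDegree_ne_zero {d : ℕ} {P : MvPolynomial (Fin d) ℝ} (hP : P ≠ 0) :
    homogeneousComponent P.totalDegree P ≠ 0 := by
  intro h0
  obtain ⟨a, ha, hmax⟩ := Finset.exists_max_image P.support (fun a => a.degree)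
    (by
      rw [Finset.nonempty_iff_ne_empty]
      intro he
      exact hP (MvPolynomial.support_eq_empty.1 he))
  have h1 : P.totalDegree = a.degree := by
    apply le_antisymm
    · rw [totalDegree]
      refine Finset.sup_le ?_
      intro b hb
      exact hmax b hb
    · exact le_totalDegree ha
  have h2 := coeff_homogeneousComponent P.totalDegree P a
  rw [h0, coeff_zero, if_pos h1.symm] at h2
  exact (mem_support_iff.1 ha) h2.symm

theorem totalDegree_le_of_growth {d k : ℕ} {P : MvPolynomial (Fin d) ℝ} {C : ℝ}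
    (h : ∀ x : Fin d → ℤ, |eval (fun i => (x i : ℝ)) P| ≤ C * (1 + ‖x‖) ^ k) :
    P.totalDegree ≤ k := by
  by_contra hcon
  have hk : k < P.totalDegree := not_le.1 hcon
  have hP : P ≠ 0 := by
    rintro rfl
    simp at hk
  have hC : 0 ≤ C := by
    have h1 := (abs_nonneg _).trans (h 0)
    have h2 : (0 : ℝ) < (1 + ‖(0 : Fin d → ℤ)‖) ^ k := by positivity
    by_contra hC'
    have := mul_neg_of_neg_of_pos (not_le.1 hC') h2
    linarith
  apply homogeneousComponent_totalDegree_ne_zero hP
  apply eq_zero_of_eval_int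
  intro x
  have ht := tendsto_scale (le_refl P.totalDegree) (fun i => (x i : ℝ))
  have ht2 : Tendsto (fun N : ℕ => eval (fun i => (N : ℝ) * (x i : ℝ)) P / (N : ℝ) ^ P.totalDegree)
      atTop (𝓝 0) := by
    have hb : Tendsto (fun N : ℕ => C * (1 + ‖x‖) ^ k * ((N : ℝ) ^ (P.totalDegree - k))⁻¹) atTop
        (𝓝 0) := by
      have h3 : Tendsto (fun N : ℕ => ((N : ℝ) ^ (P.totalDegree - k))⁻¹) atTop (𝓝 0) := by
        refine Tendsto.inv_tendsto_atTop ?_
        exact (tendsto_pow_atTop (by omega : P.totalDegree - k ≠ 0)).comp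
          tendsto_natCast_atTop_atTop
      have := h3.const_mul (C * (1 + ‖x‖) ^ k)
      rwa [mul_zero] at this
    refine squeeze_zero_norm' ?_ hb
    filter_upwards [eventually_ge_atTop 1] with N hN
    have hN1 : (1 : ℝ) ≤ N := by exact_mod_cast hN
    have hN0 : (0 : ℝ) < N := by linarith
    have h4 := h (fun i => (N : ℤ) * x i)
    have h5 : (fun i => (((N : ℤ) * x i : ℤ) : ℝ)) = fun i => (N : ℝ) * (x i : ℝ) := by
      funext i
      push_cast
      ring
    rw [h5] at h4
    have h6 : ‖(fun i => (N : ℤ) * x i : Fin d → ℤ)‖ ≤ N * ‖x‖ := by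
      rw [pi_norm_le_iff_of_nonneg (by positivity)]
      intro i
      rw [norm_mul]
      have h7 : ‖(N : ℤ)‖ = (N : ℝ) := by
        rw [Int.norm_eq_abs]
        push_cast
        exact abs_of_nonneg (by positivity)
      rw [h7]
      exact mul_le_mul_of_nonneg_left (norm_le_pi_norm x i) (by positivity)
    have h8 : (1 + ‖(fun i => (N : ℤ) * x i : Fin d → ℤ)‖) ^ k ≤ (N * (1 + ‖x‖)) ^ k := by
      apply pow_le_pow_left₀ (by positivity)
      nlinarith [norm_nonneg x]
    rw [Real.norm_eq_abs, abs_div, abs_of_pos (pow_pos hN0 _), div_le_iff₀ (pow_pos hN0 _)]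
    have h9 : (N : ℝ) ^ P.totalDegree = (N : ℝ) ^ k * (N : ℝ) ^ (P.totalDegree - k) := by
      rw [← pow_add]
      congr 1
      omega
    calc |eval (fun i => (N : ℝ) * (x i : ℝ)) P| ≤ C * (1 + ‖(fun i => (N : ℤ) * x i : Fin d → ℤ)‖) ^ k := h4
      _ ≤ C * (N * (1 + ‖x‖)) ^ k := mul_le_mul_of_nonneg_left h8 hC
      _ = C * (1 + ‖x‖) ^ k * ((N : ℝ) ^ (P.totalDegree - k))⁻¹ * (N : ℝ) ^ P.totalDegree := by
        rw [h9, mul_pow]
        have : (N : ℝ) ^ (P.totalDegree - k) ≠ 0 := (pow_pos hN0 _).ne'
        field_simp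
  exact tendsto_nhds_unique ht ht2

theorem top_nonneg {d m : ℕ} {P : MvPolynomial (Fin d) ℝ} (hP : P.totalDegree ≤ m)
    (h : ∀ x : Fin d → ℤ, 0 ≤ eval (fun i => (x i : ℝ)) P) (x : Fin d → ℝ) :
    0 ≤ eval x (homogeneousComponent m P) := by
  have hint : ∀ z : Fin d → ℤ, 0 ≤ eval (fun i => (z i : ℝ)) (homogeneousComponent m P) := by
    intro z
    refine ge_of_tendsto' (tendsto_scale hP (fun i => (z i : ℝ))) ?_
    intro N
    apply div_nonneg _ (by positivity)
    have h1 := h (fun i => (N : ℤ) * z i)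
    have h5 : (fun i => (((N : ℤ) * z i : ℤ) : ℝ)) = fun i => (N : ℝ) * (z i : ℝ) := by
      funext i
      push_cast
      ring
    rwa [h5] at h1
  have hlim : Tendsto (fun n : ℕ => fun i => ((⌊(n : ℝ) * x i⌋ : ℤ) : ℝ) / (n : ℝ)) atTop (𝓝 x) := by
    rw [tendsto_pi_nhds]
    intro i
    have h1 : Tendsto (fun n : ℕ => (1 : ℝ) / (n : ℝ)) atTop (𝓝 0) :=
      tendsto_one_div_atTop_nhds_zero_nat
    rw [tendsto_iff_norm_sub_tendsto_zero]
    refine squeeze_zero' (Eventually.of_forall fun _ => norm_nonneg _) ?_ h1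
    filter_upwards [eventually_ge_atTop 1] with n hn
    have hn0 : (0 : ℝ) < n := by
      have : (1 : ℝ) ≤ n := by exact_mod_cast hn
      linarith
    have h2 : ((⌊(n : ℝ) * x i⌋ : ℤ) : ℝ) / (n : ℝ) - x i
        = (((⌊(n : ℝ) * x i⌋ : ℤ) : ℝ) - (n : ℝ) * x i) / (n : ℝ) := by
      field_simp
    rw [h2, norm_div, Real.norm_eq_abs, Real.norm_eq_abs, abs_of_pos hn0]
    apply div_le_div_of_nonneg_right _ hn0.le
    rw [abs_le]
    constructor
    · have := Int.lt_floor_add_one ((n : ℝ) * x i)
      linarith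
    · have := Int.floor_le ((n : ℝ) * x i)
      linarith
  have hc : Continuous (fun y : Fin d → ℝ => eval y (homogeneousComponent m P)) :=
    MvPolynomial.continuous_eval _
  have ht := (hc.tendsto x).comp hlim
  refine ge_of_tendsto ht ?_
  filter_upwards [eventually_ge_atTop 1] with n hn
  have hn0 : (0 : ℝ) < n := by
    have : (1 : ℝ) ≤ n := by exact_mod_cast hn
    linarith
  have h3 := hint (fun i => ⌊(n : ℝ) * x i⌋)
  have h4 : (fun i => ((⌊(n : ℝ) * x i⌋ : ℤ) : ℝ))
      = fun i => (n : ℝ) * (((⌊(n : ℝ) * x i⌋ : ℤ) : ℝ) / (n : ℝ)) := by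
    funext i
    field_simp
  have h5 := eval_smul_hom (homogeneousComponent_isHomogeneous m P) (n : ℝ)
    (fun i => (((⌊(n : ℝ) * x i⌋ : ℤ) : ℝ) / (n : ℝ)))
  rw [h4, h5] at h3
  exact nonneg_of_mul_nonneg_right h3 (pow_pos hn0 m)

end IPC
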