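import Mathlib

/-!
# MP_25e40f_pr, stream F: limits of bounded real sequences along a fixed ultrafilter (job Ulm, about 60 lines)

`hyper_le`: `Nat.hyperfilter_le_atTop` or: `Filter.hyperfilter_le_cofinite` and `Nat.cofinite_eq_atTop`.
`ul_tendsto`: eventually `a n ∈ Set.Icc (-C) C`, compact; `(hyperfilter ℕ).map a` is an ultrafilter which contains `Icc (-C) C`; `isCompact_Icc.ultrafilter_le_nhds` (or `isCompact_iff_ultrafilter_le_nhds`) gives a limit `l`, `Filter.Tendsto.limUnder_eq`.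
`ul_eq`: `Filter.Tendsto.limUnder_eq`.   `ul_le`: `le_of_tendsto_of_tendsto` along the (NeBot) hyperfilter; `hyper_ev`: eventually along `atTop` implies eventually along the hyperfilter (`Filter.Eventually.filter_mono hyper_le`).
-/

set_option autoImplicit false

noncomputable section

open Filter

namespace IPC

theorem hyper_le : (hyperfilter ℕ : Filter ℕ) ≤ atTop := by
  rw [← Nat.cofinite_eq_atTop]
  exact hyperfilter_le_cofinite

/-- limit along a fixed ultrafilter -/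
def ul (a : ℕ → ℝ) : ℝ := limUnder (hyperfilter ℕ : Filter ℕ) a

theorem ul_tendsto {a : ℕ → ℝ} {C : ℝ} (h : ∀ᶠ n in atTop, |a n| ≤ C) :
    Tendsto a (hyperfilter ℕ : Filter ℕ) (nhds (ul a)) := by
  have h1 : (((hyperfilter ℕ).map a : Ultrafilter ℝ) : Filter ℝ) ≤ Filter.principal (Set.Icc (-C) C) := by
    rw [Filter.le_principal_iff]
    have h2 : ∀ᶠ n in (hyperfilter ℕ : Filter ℕ), |a n| ≤ C := hyper_le h
    have h3 : ∀ᶠ n in (hyperfilter ℕ : Filter ℕ), a n ∈ Set.Icc (-C) C := by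
      filter_upwards [h2] with n hn
      exact abs_le.1 hn
    exact h3
  obtain ⟨l, -, hl⟩ := (isCompact_Icc (a := -C) (b := C)).ultrafilter_le_nhds _ h1
  have h4 : Tendsto a (hyperfilter ℕ : Filter ℕ) (nhds l) := hl
  rw [ul, h4.limUnder_eq]
  exact h4

theorem ul_eq {a : ℕ → ℝ} {l : ℝ} (h : Tendsto a (hyperfilter ℕ : Filter ℕ) (nhds l)) : ul a = l :=
  h.limUnder_eq

theorem ul_congr {a b : ℕ → ℝ} (h : ∀ n, a n = b n) : ul a = ul b := by
  have h1 : a = b := funext h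
  rw [h1]

theorem ul_le {a b : ℕ → ℝ} {l m : ℝ} (ha : Tendsto a (hyperfilter ℕ : Filter ℕ) (nhds l))
    (hb : Tendsto b (hyperfilter ℕ : Filter ℕ) (nhds m)) (h : ∀ᶠ n in atTop, a n ≤ b n) : l ≤ m :=
  le_of_tendsto_of_tendsto ha hb (hyper_le h)

/-- closeness passes to the limit -/
theorem ul_close {a b : ℕ → ℝ} {l m ε : ℝ} (ha : Tendsto a (hyperfilter ℕ : Filter ℕ) (nhds l))
    (hb : Tendsto b (hyperfilter ℕ : Filter ℕ) (nhds m)) (h : ∀ᶠ n in atTop, |a n - b n| ≤ ε) :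
    |l - m| ≤ ε :=
  le_of_tendsto (ha.sub hb).abs (hyper_le h)

end IPC
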