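import Pool.Agent.Lib.MP_25e40f_pr.F.Lio
import Pool.Agent.Lib.MP_25e40f_pr.F.Itp
import Pool.Agent.Lib.MP_25e40f_pr.F.Cst

/-!
# MP_25e40f_pr, stream F: nonnegative solutions of the limit equation are constant
-/

set_option autoImplicit false

noncomputable section

open Finset Filter Topology

namespace IPC

theorem limit_const {d k s K : ℕ} (hs : d + 2 * k < 2 * s) {J : (Fin d → ℤ) → ℝ}
    {V Jm : ℕ → (Fin d → ℤ) → ℝ} {M σ : ℝ} (A : Apx d k s K J V Jm M) (hJ : JKer d (k + 3) J σ)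
    {q : (Fin d → ℤ) → ℝ} {C : ℝ} (h0 : ∀ x, 0 ≤ q x) (hg : ∀ x, q x ≤ C * (1 + ‖x‖) ^ k)
    (hq : ∀ x, q x = ∑' y, J y * q (x - y)) : ∀ x, q x = q 0 := by
  have hg' : ∀ x, |q x| ≤ C * (1 + ‖x‖) ^ k := fun x => by rw [abs_of_nonneg (h0 x)]; exact hg x
  exact const_of_nonneg hJ h0 hg' (exists_poly (liouville hs A hg' hq)) hq

end IPC
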